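import Pool.Agent.Work.MP_2df4ce_n.Interface

/-!
# MP_2df4ce_lc, NearClusterKernels: block BAC (the kept bad vertices)
-/

set_option autoImplicit false

namespace Pool.Ker.N

open Classical St Alg Pool.Ker

theorem stmt_BAC (hCMP : Stmt_CMP) (hBRC : Stmt_BRC) (hFIB : Stmt_FIB) : Stmt_BAC := by
  intro G U D K S p b t k hclu hS hKU hK
  have hm : ∀ s : Finset ℕ, ∃ m, s.Nonempty → m ∈ s := by
    intro s
    by_cases hs : s.Nonempty
    · obtain ⟨m, hm⟩ := hs
      exact ⟨m, fun _ => hm⟩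
    · exact ⟨0, fun h => absurd h hs⟩
  choose m hm using hm
  set A := K.filter fun y => y ∉ D ∧ y ∉ tch U S ∧ Bad (ed G S) U D S y with hA
  have hAm : ∀ y ∈ A, y ∈ K ∧ y ∈ U ∧ y ∉ D ∧ y ∉ tch U S ∧ Bad (ed G S) U D S y := by
    intro y hy
    rw [hA, Finset.mem_filter] at hy
    exact ⟨hy.1, hKU hy.1, hy.2⟩
  have hC := fun x (hx : x ∈ A) =>
    hCMP (ed G S) U D p b hclu x (hAm x hx).2.1 (hAm x hx).2.2.1
  have hrep : ∀ y ∈ A, m (cp (ed G S) U D y) ∈ cp (ed G S) U D y := fun y hy =>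
    hm _ ⟨y, (hC y hy).1⟩
  have hrepc : ∀ y ∈ A, cp (ed G S) U D (m (cp (ed G S) U D y)) = cp (ed G S) U D y :=
    fun y hy => (hC y hy).2.1 _ (hrep y hy)
  have hrepU : ∀ y ∈ A, m (cp (ed G S) U D y) ∈ U ∧ m (cp (ed G S) U D y) ∉ D := by
    intro y hy
    have h := hrep y hy
    simp only [cp, Finset.mem_filter, Finset.mem_sdiff] at h
    exact h.1
  let f : ℕ → ℕ × Finset ℕ := fun y =>
    (m (cp (ed G S) U D y), D.filter fun v => (ed G S).Adj v y)
  have hR : (A.image fun y => m (cp (ed G S) U D y)).card ≤ 2 * k + p * (b + 1) := by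
    refine hBRC G U D S p b k hclu hS _ ?_ ?_ ?_
    · intro r hr
      obtain ⟨y, hy, rfl⟩ := Finset.mem_image.1 hr
      exact (hrepU y hy).1
    · intro r hr
      obtain ⟨y, hy, rfl⟩ := Finset.mem_image.1 hr
      refine ⟨(hrepU y hy).2, ?_⟩
      unfold Bad
      simp only [hrepc y hy]
      exact (hAm y hy).2.2.2.2
    · intro r hr r' hr' hne hadj
      obtain ⟨y, hy, rfl⟩ := Finset.mem_image.1 hr
      obtain ⟨y', hy', rfl⟩ := Finset.mem_image.1 hr'
      have h1 := (hC y hy).2.2.2 _ (hrep y hy) _ (hrepU y' hy').1 (hrepU y' hy').2 hadj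
      have h2 := (hC y hy).2.1 _ h1
      simp only [hrepc y' hy'] at h2
      exact hne (by simp only [h2])
  have h1 : A.card ≤ t * (A.image f).card := by
    refine Finset.card_le_mul_card_image A t ?_
    intro a ha
    obtain ⟨y, hy, rfl⟩ := Finset.mem_image.1 ha
    refine le_trans (Finset.card_le_card ?_) (hFIB G U D K S p b t hclu hKU hK
      (m (cp (ed G S) U D y)) (hrepU y hy).1 (hrepU y hy).2 (D.filter fun v => (ed G S).Adj v y))
    intro z hz
    rw [Finset.mem_filter] at hz ⊢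
    obtain ⟨hzA, hzf⟩ := hz
    have hz1 : m (cp (ed G S) U D z) = m (cp (ed G S) U D y) := congrArg Prod.fst hzf
    have hz2 : (D.filter fun v => (ed G S).Adj v z) = D.filter fun v => (ed G S).Adj v y :=
      congrArg Prod.snd hzf
    obtain ⟨hzK, hzU, hzD, hzt, hzB⟩ := hAm z hzA
    refine ⟨hzK, hzD, hzt, ?_, ?_⟩
    · rw [← hz1]
      simp only [hrepc z hzA]
      exact (hC z hzA).1
    · intro v hv
      rw [← hz2, Finset.mem_filter]
      exact ⟨fun h => ⟨hv, h⟩, fun h => h.2⟩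
  have h2 : (A.image f).card ≤ (2 * k + p * (b + 1)) * 2 ^ p := by
    have hsub : A.image f ⊆ (A.image fun y => m (cp (ed G S) U D y)) ×ˢ D.powerset := by
      intro a ha
      obtain ⟨y, hy, rfl⟩ := Finset.mem_image.1 ha
      rw [Finset.mem_product]
      exact ⟨Finset.mem_image.2 ⟨y, hy, rfl⟩, Finset.mem_powerset.2 (Finset.filter_subset _ _)⟩
    refine (Finset.card_le_card hsub).trans ?_
    rw [Finset.card_product, Finset.card_powerset]
    exact Nat.mul_le_mul hR (Nat.pow_le_pow_right (by norm_num) hclu.card)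
  calc A.card ≤ t * (A.image f).card := h1
    _ ≤ t * ((2 * k + p * (b + 1)) * 2 ^ p) := Nat.mul_le_mul_left _ h2
    _ = (2 * k + p * (b + 1)) * 2 ^ p * t := by ring

end Pool.Ker.N
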