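import Pool.Agent.Work.MP_2df4ce_n.Interface

set_option autoImplicit false

namespace Pool.Ker.N

open Classical St Alg Pool.Ker

theorem stmt_BIG (hPT1 : Stmt_PT1) (hPT2 : Stmt_PT2) (hPT3 : Stmt_PT3) (hDM3 : Stmt_DM3)
    (hDM4 : Stmt_DM4) (hDM5 : Stmt_DM5) (hKPB : Stmt_KPB) (hTCH : Stmt_TCH) (hBAC : Stmt_BAC)
    (hGDV : Stmt_GDV) : Stmt_BIG := by
  intro F G U p b t k hF1 hF2 hpb hyes
  obtain ⟨S, hS, hsol⟩ := hyes
  refine ⟨S, hS, ?_⟩
  apply hPT3 F G U S (mm p b) hsol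
  rintro ⟨Q, hQ⟩
  have hB : Big (ed G S) U p b (mm p b) Q :=
    ⟨hPT1 F G U S p hF1 hsol, hPT2 F G U S b hF2 hsol, hQ, le_rfl⟩
  have hC : Clu (ed G S) U (DD (ed G S) U Q) p b :=
    ⟨Finset.filter_subset _ _, hDM3 _ _ _ _ _ _ hB, hDM4 _ _ _ _ _ _ hB, hDM5 _ _ _ _ _ _ hB⟩
  have hK : Kp G U t ⊆ U := Finset.filter_subset _ _
  obtain ⟨hk1, hk2⟩ := hKPB G U t
  have h1 := hBAC G U (DD (ed G S) U Q) (Kp G U t) S p b t k hC hS hK hk1
  have h2 := hGDV G U (DD (ed G S) U Q) (Kp G U t) S p b t hC hK hk1 hk2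
  have h3 := (hTCH G U S).1
  have h4 := hC.card
  have h5 : Kp G U t ⊆ ((DD (ed G S) U Q ∪ tch U S) ∪
      ((Kp G U t).filter fun y => y ∉ DD (ed G S) U Q ∧ y ∉ tch U S ∧
        Bad (ed G S) U (DD (ed G S) U Q) S y)) ∪
      ((Kp G U t).filter fun y => y ∉ DD (ed G S) U Q ∧
        ¬ Bad (ed G S) U (DD (ed G S) U Q) S y) := by
    intro y hy
    by_cases hy1 : y ∈ DD (ed G S) U Q
    · exact Finset.mem_union_left _ (Finset.mem_union_left _ (Finset.mem_union_left _ hy1))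
    by_cases hy3 : Bad (ed G S) U (DD (ed G S) U Q) S y
    · by_cases hy2 : y ∈ tch U S
      · exact Finset.mem_union_left _ (Finset.mem_union_left _ (Finset.mem_union_right _ hy2))
      · exact Finset.mem_union_left _
          (Finset.mem_union_right _ (Finset.mem_filter.2 ⟨hy, hy1, hy2, hy3⟩))
    · exact Finset.mem_union_right _ (Finset.mem_filter.2 ⟨hy, hy1, hy3⟩)
  have h6 := Finset.card_le_card h5
  have h7 := Finset.card_union_le ((DD (ed G S) U Q ∪ tch U S) ∪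
      ((Kp G U t).filter fun y => y ∉ DD (ed G S) U Q ∧ y ∉ tch U S ∧
        Bad (ed G S) U (DD (ed G S) U Q) S y))
      ((Kp G U t).filter fun y => y ∉ DD (ed G S) U Q ∧
        ¬ Bad (ed G S) U (DD (ed G S) U Q) S y)
  have h8 := Finset.card_union_le (DD (ed G S) U Q ∪ tch U S)
      ((Kp G U t).filter fun y => y ∉ DD (ed G S) U Q ∧ y ∉ tch U S ∧
        Bad (ed G S) U (DD (ed G S) U Q) S y)
  have h9 := Finset.card_union_le (DD (ed G S) U Q) (tch U S)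
  have h10 : 2 * S.card ≤ 2 * k := Nat.mul_le_mul_left 2 hS
  unfold pb at hpb
  omega

end Pool.Ker.N
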