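import Pool.Agent.Work.MP_2df4ce_n.Interface

/-!
# MP_2df4ce_lc, NearClusterKernels: block BRC (number of bad components)
-/

set_option autoImplicit false

namespace Pool.Ker.N

open Classical St Alg Pool.Ker

theorem stmt_BRC (hTCH : Stmt_TCH) (hCMP : Stmt_CMP) : Stmt_BRC := by
  intro G U D S p b k hclu hS R hRU hbad hind
  obtain ⟨ht1, -⟩ := hTCH G U S
  have hC := fun x (hx : x ∈ R) => hCMP (ed G S) U D p b hclu x (hRU hx) (hbad x hx).1
  have hw : ∀ x, ∃ y, x ∈ R → y ∈ cp (ed G S) U D x ∧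
      (y ∈ tch U S ∨ ∃ v ∈ D, ¬ (ed G S).Adj v y) := by
    intro x
    by_cases hx : x ∈ R
    · obtain ⟨y, hy1, hy2⟩ := (hbad x hx).2
      exact ⟨y, fun _ => ⟨hy1, hy2⟩⟩
    · exact ⟨x, fun h => absurd h hx⟩
  choose w hw using hw
  have hkey : ∀ x ∈ R, ∀ x' ∈ R, w x' ∈ cp (ed G S) U D x → x' = x := by
    intro x hx x' hx' h
    have e1 := (hC x hx).2.1 _ h
    have e2 := (hC x' hx').2.1 _ (hw x' hx').1
    have h3 : x' ∈ cp (ed G S) U D x := by
      rw [← e1, e2]
      exact (hC x' hx').1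
    by_contra hne
    simp only [cp, Finset.mem_filter] at h3
    rcases h3.2 with h4 | h4
    · exact hne h4
    · exact hind x hx x' hx' (Ne.symm hne) h4
  have hinj : Set.InjOn w (R : Set ℕ) := by
    intro x hx x' hx' h
    have h1 : w x' ∈ cp (ed G S) U D x := by
      rw [← h]
      exact (hw x hx).1
    exact (hkey x hx x' hx' h1).symm
  have hcp : ∀ x ∈ R, w x ∈ U ∧ w x ∉ D := by
    intro x hx
    have h := (hw x hx).1
    simp only [cp, Finset.mem_filter, Finset.mem_sdiff] at h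
    exact h.1
  have hcard : R.card = (R.image w).card := (Finset.card_image_of_injOn hinj).symm
  have hsub : R.image w ⊆ tch U S ∪ D.biUnion fun v => (R.image w).filter fun y =>
      ¬ (ed G S).Adj v y := by
    intro y hy
    obtain ⟨x, hx, rfl⟩ := Finset.mem_image.1 hy
    rw [Finset.mem_union]
    rcases (hw x hx).2 with h | ⟨v, hv, hvy⟩
    · exact Or.inl h
    · refine Or.inr ?_
      rw [Finset.mem_biUnion]
      exact ⟨v, hv, Finset.mem_filter.2 ⟨hy, hvy⟩⟩
  have hpart : ∀ v ∈ D, ((R.image w).filter fun y => ¬ (ed G S).Adj v y).card ≤ b + 1 := by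
    intro v hv
    refine hclu.ind v hv _ ?_ ?_ ?_
    · intro y hy
      obtain ⟨x, hx, rfl⟩ := Finset.mem_image.1 (Finset.mem_filter.1 hy).1
      exact (hcp x hx).1
    · intro y hy
      obtain ⟨x, hx, rfl⟩ := Finset.mem_image.1 (Finset.mem_filter.1 hy).1
      exact ⟨(hcp x hx).2, (Finset.mem_filter.1 hy).2⟩
    · intro y hy y' hy' hne hadj
      obtain ⟨x, hx, rfl⟩ := Finset.mem_image.1 (Finset.mem_filter.1 hy).1
      obtain ⟨x', hx', rfl⟩ := Finset.mem_image.1 (Finset.mem_filter.1 hy').1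
      have h1 := (hC x hx).2.2.2 _ (hw x hx).1 (w x') (hcp x' hx').1 (hcp x' hx').2 hadj
      have h2 := hkey x hx x' hx' h1
      exact hne (by rw [h2])
  have h1 : (R.image w).card ≤ (tch U S).card + D.card * (b + 1) := by
    refine (Finset.card_le_card hsub).trans ((Finset.card_union_le _ _).trans ?_)
    exact Nat.add_le_add_left (Finset.card_biUnion_le_card_mul _ _ _ hpart) _
  have h2 : D.card * (b + 1) ≤ p * (b + 1) := Nat.mul_le_mul_right _ hclu.card
  rw [hcard]
  omega

end Pool.Ker.N
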