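import Pool.Agent.Work.MP_2df4ce_n.Interface

/-! # MP_2df4ce_lc, NearClusterKernels: block CCC -/

set_option autoImplicit false

namespace Pool.Ker.N

open Classical St Alg Pool.Ker

theorem stmt_CCC (hTWQ : Stmt_TWQ) (hCLQ : Stmt_CLQ) : Stmt_CCC := by
  intro G U t u v hu hv huv
  obtain ⟨hrefl, hsymm, htrans, -, -, -⟩ := hTWQ G U
  obtain ⟨-, hcl, -⟩ := hCLQ G U t
  rw [crk, crk]
  congr 1
  refine Finset.filter_congr fun w hw => ?_
  refine and_congr_right fun _ => and_congr ?_ ?_
  · constructor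
    · intro h x hx hvx
      exact h x hx (htrans u v x hu hv hx huv hvx)
    · intro h x hx hux
      exact h x hx (htrans v u x hv hu hx (hsymm _ _ huv) hux)
  · exact ⟨hcl u v w w hu hv hw hw huv (hrefl w), hcl v u w w hv hu hw hw (hsymm _ _ huv) (hrefl w)⟩

end Pool.Ker.N

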