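import Pool.Agent.Work.MP_2df4ce_n.Interface

/-! # MP_2df4ce_lc, NearClusterKernels: block CLQ -/

set_option autoImplicit false

namespace Pool.Ker.N

open Classical St Alg Pool.Ker

theorem stmt_CLQ (hTWQ : Stmt_TWQ) : Stmt_CLQ := by
  intro G U t
  obtain ⟨hrefl, hsymm, htrans, hadj, hadj2, hcls⟩ := hTWQ G U
  refine ⟨?_, ?_, ?_⟩
  · rintro u v ⟨h1, h2, h3, h4⟩
    refine ⟨fun h => h1 (hsymm _ _ h), fun h => h2 h.symm, fun w hw a b => (h3 w hw b a).symm, ?_⟩
    rcases h4 with h | h
    · exact Or.inl h.symm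
    · exact Or.inr ⟨h.2, h.1⟩
  · rintro u u' v v' hu hu' hv hv' huu hvv ⟨h1, h2, h3, h4⟩
    have n1 : ¬ Tw G U u' v' := fun h =>
      h1 (htrans u u' v hu hu' hv huu (htrans u' v' v hu' hv' hv h (hsymm _ _ hvv)))
    have n2 : ¬ Tw G U u v' := fun h => h1 (htrans u v' v hu hv' hv h (hsymm _ _ hvv))
    refine ⟨n1, ?_, ?_, ?_⟩
    · intro h
      have e1 : v' ≠ u := by
        rintro rfl
        exact n2 (hrefl _)
      have e2 : v' ≠ u' := by
        rintro rfl
        exact n1 (hrefl _)
      have a1 := (hadj u u' v' huu hv' e1 e2).2 h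
      have e3 : u ≠ v := by
        rintro rfl
        exact h1 (hrefl _)
      have a2 := (hadj v v' u hvv hu e3 e1.symm).2 a1.symm
      exact h2 a2.symm
    · intro w hw a b
      have a' : ¬ Tw G U u w := fun h => a (htrans u' u w hu' hu hw (hsymm _ _ huu) h)
      have b' : ¬ Tw G U v w := fun h => b (htrans v' v w hv' hv hw (hsymm _ _ hvv) h)
      have ne : ∀ z, ¬ Tw G U z w → w ≠ z := by
        rintro z hz rfl
        exact hz (hrefl _)
      have c1 := hadj u u' w huu hw (ne _ a') (ne _ a)
      have c2 := hadj v v' w hvv hw (ne _ b') (ne _ b)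
      rw [← c1, ← c2]
      exact h3 w hw a' b'
    · rw [← hcls u u' hu hu' huu, ← hcls v v' hv hv' hvv]
      exact h4
  · rintro u v w hu hv hw ⟨h1, h2, h3, h4⟩ ⟨g1, g2, g3, g4⟩
    by_cases huw : Tw G U u w
    · exact Or.inl huw
    refine Or.inr ⟨huw, ?_, ?_, ?_⟩
    · intro h
      exact g2 ((h3 w hw huw g1).1 h)
    · intro x hx a b
      have ne : ∀ z, ¬ Tw G U z x → z ≠ x := by
        rintro z hz rfl
        exact hz (hrefl _)
      by_cases hvx : Tw G U v x
      · have e1 : u ≠ v := by
          rintro rfl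
          exact h1 (hrefl _)
        have e2 : w ≠ v := by
          rintro rfl
          exact g1 (hrefl _)
        have c1 := hadj v x u hvx hu e1 (ne _ a)
        have c2 := hadj v x w hvx hw e2 (ne _ b)
        constructor
        · intro h
          exact absurd (c1.2 h.symm).symm h2
        · intro h
          exact absurd (c2.2 h.symm) g2
      · exact (h3 x hx a hvx).trans (g3 x hx hvx b)
    · omega

end Pool.Ker.N

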