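import Pool.Agent.Work.MP_2df4ce_n.Interface

/-!
# CMP: components
-/

set_option autoImplicit false

namespace Pool.Ker.N

open Classical St Alg Pool.Ker

theorem mem_cp {H : SimpleGraph ℕ} {U D : Finset ℕ} {x y : ℕ} :
    y ∈ cp H U D x ↔ (y ∈ U ∧ y ∉ D) ∧ (y = x ∨ H.Adj x y) := by
  unfold cp
  rw [Finset.mem_filter, Finset.mem_sdiff]

theorem stmt_CMP : Stmt_CMP := by
  intro H U D p b h x hx hxD
  have hself : x ∈ cp H U D x := mem_cp.2 ⟨⟨hx, hxD⟩, Or.inl rfl⟩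
  have hadj : ∀ y ∈ cp H U D x, ∀ z ∈ cp H U D x, y ≠ z → H.Adj y z := by
    intro y hy z hz hyz
    obtain ⟨⟨hyU, hyD⟩, hy1⟩ := mem_cp.1 hy
    obtain ⟨⟨hzU, hzD⟩, hz1⟩ := mem_cp.1 hz
    rcases hy1 with rfl | hy1
    · rcases hz1 with rfl | hz1
      · exact absurd rfl hyz
      · exact hz1
    · rcases hz1 with rfl | hz1
      · exact hy1.symm
      · exact h.clus y hyU x hx z hzU hyD hxD hzD hyz hy1.symm hz1
  have hcl : ∀ y ∈ cp H U D x, ∀ z ∈ U, z ∉ D → H.Adj y z → z ∈ cp H U D x := by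
    intro y hy z hzU hzD hyz
    obtain ⟨⟨hyU, hyD⟩, hy1⟩ := mem_cp.1 hy
    refine mem_cp.2 ⟨⟨hzU, hzD⟩, ?_⟩
    by_cases hzx : z = x
    · exact Or.inl hzx
    · right
      rcases hy1 with rfl | hy1
      · exact hyz
      · exact h.clus x hx y hyU z hzU hxD hyD hzD (fun e => hzx e.symm) hy1 hyz
  refine ⟨hself, ?_, hadj, hcl⟩
  intro y hy
  obtain ⟨⟨hyU, hyD⟩, hy1⟩ := mem_cp.1 hy
  ext z
  constructor
  · intro hz
    obtain ⟨⟨hzU, hzD⟩, hz1⟩ := mem_cp.1 hz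
    rcases hz1 with rfl | hz1
    · exact hy
    · exact hcl y hy z hzU hzD hz1
  · intro hz
    obtain ⟨⟨hzU, hzD⟩, hz1⟩ := mem_cp.1 hz
    refine mem_cp.2 ⟨⟨hzU, hzD⟩, ?_⟩
    by_cases hzy : z = y
    · exact Or.inl hzy
    · exact Or.inr (hadj y hy z hz (fun e => hzy e.symm))

end Pool.Ker.N
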