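import Pool.Agent.Work.MP_2df4ce_n.Interface

/-!
# Block DM1 (typed by helper66)
-/

set_option autoImplicit false

namespace Pool.Ker.N

open Classical St Alg Pool.Ker

theorem DM1_notin {H : SimpleGraph ℕ} {U : Finset ℕ} {m : ℕ} {Q : Fin m → Finset ℕ}
    (hQ : IsCQ H U m Q) {v : ℕ} (hv : v ∈ DD H U Q) (i : Fin m) : v ∉ Q i := by
  intro hi
  unfold DD at hv
  rw [Finset.mem_filter] at hv
  obtain ⟨-, j, l, hjl, ⟨x, hx, hvx⟩, ⟨y, hy, hvy⟩⟩ := hv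
  obtain ⟨-, -, -, h4⟩ := hQ
  by_cases h1 : i = j
  · have h2 : i ≠ l := fun h => hjl (h1 ▸ h)
    exact (h4 i l h2 v hi y hy).2 hvy
  · exact (h4 i j h1 v hi x hx).2 hvx

theorem stmt_DM1 : Stmt_DM1 := by
  intro H U p b m Q hB v hv
  have hQ := hB.cq
  have hnot : ∀ i, v ∉ Q i := fun i => DM1_notin hQ hv i
  refine ⟨hnot, ?_⟩
  have hv0 := hv
  unfold DD at hv0
  rw [Finset.mem_filter] at hv0
  obtain ⟨hvU, i, j, hij, ⟨x, hx, hvx⟩, ⟨z, hz, hvz⟩⟩ := hv0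
  obtain ⟨hQU, hQc, hQq, hQ4⟩ := hQ
  by_contra hcon
  rw [not_le] at hcon
  obtain ⟨W, hW⟩ : ∃ W, W = Finset.univ.filter fun i : Fin m => ∃ x ∈ Q i, ¬ H.Adj v x := ⟨_, rfl⟩
  rw [← hW] at hcon
  have h1 : b ≤ ((W.erase i).erase j).card := by
    have h2 := Finset.pred_card_le_card_erase (s := W) (a := i)
    have h3 := Finset.pred_card_le_card_erase (s := W.erase i) (a := j)
    omega
  obtain ⟨W', hW', hWc⟩ := Finset.exists_subset_card_eq h1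
  have hW2 : ∀ l ∈ W', l ≠ i ∧ l ≠ j ∧ ∃ x ∈ Q l, ¬ H.Adj v x := by
    intro l hl
    have h4 := hW' hl
    rw [Finset.mem_erase, Finset.mem_erase, hW, Finset.mem_filter] at h4
    exact ⟨h4.2.1, h4.1, h4.2.2.2⟩
  have hex : ∀ l : Fin m, ∃ a : ℕ, l ∈ W' → a ∈ Q l ∧ ¬ H.Adj v a := by
    intro l
    by_cases hl : l ∈ W'
    · obtain ⟨-, -, a, ha, ha'⟩ := hW2 l hl
      exact ⟨a, fun _ => ⟨ha, ha'⟩⟩
    · exact ⟨0, fun h => absurd h hl⟩
  choose f hf using hex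
  have hinj : Set.InjOn f W' := by
    intro l hl l' hl' hll
    by_contra hne
    exact (hQ4 l l' hne (f l) (hf l hl).1 (f l') (hf l' hl').1).1 hll
  refine hB.p3 x (hQU i hx) v hvU z (hQU j hz) (hQ4 i j hij x hx z hz).1 hvx.symm hvz
    (hQ4 i j hij x hx z hz).2 (W'.image f) ?_ ?_ ?_ ?_
  · intro a ha
    rw [Finset.mem_image] at ha
    obtain ⟨l, hl, rfl⟩ := ha
    exact hQU l (hf l hl).1
  · rw [Finset.card_image_of_injOn hinj, hWc]
  · intro a ha a' ha' hne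
    rw [Finset.mem_image] at ha ha'
    obtain ⟨l, hl, rfl⟩ := ha
    obtain ⟨l', hl', rfl⟩ := ha'
    have hll : l ≠ l' := fun h => hne (by rw [h])
    exact (hQ4 l l' hll (f l) (hf l hl).1 (f l') (hf l' hl').1).2
  · intro a ha
    rw [Finset.mem_image] at ha
    obtain ⟨l, hl, rfl⟩ := ha
    obtain ⟨hli, hlj, -⟩ := hW2 l hl
    obtain ⟨hfl, hfv⟩ := hf l hl
    refine ⟨?_, ?_, ?_, ?_, hfv, ?_⟩
    · exact (hQ4 l i hli (f l) hfl x hx).1
    · intro h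
      exact hnot l (h ▸ hfl)
    · exact (hQ4 l j hlj (f l) hfl z hz).1
    · exact (hQ4 i l (Ne.symm hli) x hx (f l) hfl).2
    · exact (hQ4 j l (Ne.symm hlj) z hz (f l) hfl).2

end Pool.Ker.N
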