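import Pool.Agent.Work.MP_2df4ce_n.Interface

/-!
# Block DM2 (typed by helper66)
-/

set_option autoImplicit false

namespace Pool.Ker.N

open Classical St Alg Pool.Ker

theorem stmt_DM2 (h1 : Stmt_DM1) : Stmt_DM2 := by
  intro H U p b m Q hB v hv w hw hvw
  by_contra hnad
  have hv1 := (h1 H U p b m Q hB v hv).2
  have hw1 := (h1 H U p b m Q hB w hw).2
  have hm := hB.hm
  unfold mm at hm
  have hex : ∃ i : Fin m, (∀ x ∈ Q i, H.Adj v x) ∧ ∀ x ∈ Q i, H.Adj w x := by
    by_contra hcon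
    push Not at hcon
    have hcov : (Finset.univ : Finset (Fin m)) ⊆
        (Finset.univ.filter fun i : Fin m => ∃ x ∈ Q i, ¬ H.Adj v x) ∪
        (Finset.univ.filter fun i : Fin m => ∃ x ∈ Q i, ¬ H.Adj w x) := by
      intro i _
      rw [Finset.mem_union, Finset.mem_filter, Finset.mem_filter]
      by_cases h : ∀ x ∈ Q i, H.Adj v x
      · right
        exact ⟨Finset.mem_univ _, hcon i h⟩
      · left
        push Not at h
        exact ⟨Finset.mem_univ _, h⟩
    have h2 := (Finset.card_le_card hcov).trans (Finset.card_union_le _ _)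
    rw [Finset.card_univ, Fintype.card_fin] at h2
    have h3 : (p + 2) * (b + 2) ≥ 2 * (b + 2) := Nat.mul_le_mul_right _ (by omega)
    omega
  obtain ⟨i, hi1, hi2⟩ := hex
  obtain ⟨hQU, hQc, hQq, -⟩ := hB.cq
  have hp : p ≤ (Q i).card := by
    rw [hQc i]
    have h3 : (p + 2) * (b + 2) ≥ (p + 2) * 1 := Nat.mul_le_mul_left _ (by omega)
    omega
  obtain ⟨P, hP, hPc⟩ := Finset.exists_subset_card_eq hp
  have hvU : v ∈ U := (Finset.mem_filter.1 hv).1
  have hwU : w ∈ U := (Finset.mem_filter.1 hw).1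
  exact hB.km v hvU w hwU hvw hnad P (hP.trans (hQU i)) hPc
    (fun a ha a' ha' hne => hQq i a (hP ha) a' (hP ha') hne)
    (fun a ha => ⟨hi1 a (hP ha), hi2 a (hP ha)⟩)

end Pool.Ker.N
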