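import Pool.Agent.Work.MP_2df4ce_n.Interface

/-!
# Block DM3: the vertices with neighbours in two of the cliques are few
-/

set_option autoImplicit false

namespace Pool.Ker.N

open Classical St Alg Pool.Ker

theorem p_DM3 (h1 : Stmt_DM1) (h2 : Stmt_DM2) : Stmt_DM3 := by
  intro H U p b m Q hB
  by_contra hcon
  push Not at hcon
  obtain ⟨P, hPsub, hPcard⟩ := Finset.exists_subset_card_eq (s := DD H U Q) (n := p) hcon.le
  have hm : mm p b ≤ m := hB.hm
  have hmm : p * (b + 1) + 2 ≤ m := by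
    refine le_trans ?_ hm
    unfold mm
    nlinarith
  -- the bad indices
  set B : Finset (Fin m) := P.biUnion fun v => Finset.univ.filter fun i : Fin m =>
    ∃ x ∈ Q i, ¬ H.Adj v x with hBdef
  have hBcard : B.card ≤ p * (b + 1) := by
    rw [← hPcard]
    refine Finset.card_biUnion_le_card_mul _ _ _ fun v hv => ?_
    exact (h1 H U p b m Q hB v (hPsub hv)).2
  have hcompl : 2 ≤ Bᶜ.card := by
    rw [Finset.card_compl, Fintype.card_fin]
    omega
  obtain ⟨i, hi, j, hj, hij⟩ := Finset.one_lt_card.mp (by omega : 1 < Bᶜ.card)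
  have hne : ∀ k : Fin m, (Q k).Nonempty := by
    intro k
    rw [← Finset.card_pos, hB.cq.2.1 k]
    omega
  have hadj : ∀ k ∈ Bᶜ, ∀ x ∈ Q k, ∀ a ∈ P, H.Adj x a := by
    intro k hk x hx a ha
    by_contra hnot
    apply Finset.mem_compl.mp hk
    rw [hBdef, Finset.mem_biUnion]
    exact ⟨a, ha, Finset.mem_filter.mpr ⟨Finset.mem_univ _, x, hx, fun h => hnot h.symm⟩⟩
  obtain ⟨x, hx⟩ := hne i
  obtain ⟨y, hy⟩ := hne j
  obtain ⟨hxy, hnadj⟩ := hB.cq.2.2.2 i j hij x hx y hy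
  refine hB.km x (hB.cq.1 i hx) y (hB.cq.1 j hy) hxy hnadj P
    (fun v hv => (Finset.mem_filter.mp (hPsub hv)).1) hPcard ?_ ?_
  · intro a ha a' ha' hne'
    exact h2 H U p b m Q hB a (hPsub ha) a' (hPsub ha') hne'
  · intro a ha
    exact ⟨hadj i hi x hx a ha, hadj j hj y hy a ha⟩

end Pool.Ker.N
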