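import Pool.Agent.Work.MP_2df4ce_n.Interface

/-!
# Block DM4 (typed by helper66)
-/

set_option autoImplicit false

namespace Pool.Ker.N

open Classical St Alg Pool.Ker

/-- a vertex outside of `DD` meets or sees at most one of the cliques -/
theorem DM4_one {H : SimpleGraph ℕ} {U : Finset ℕ} {m : ℕ} {Q : Fin m → Finset ℕ}
    (hQ : IsCQ H U m Q) {u : ℕ} (hu : u ∈ U) (hud : u ∉ DD H U Q) :
    (Finset.univ.filter fun i : Fin m => u ∈ Q i ∨ ∃ a ∈ Q i, H.Adj u a).card ≤ 1 := by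
  rw [Finset.card_le_one]
  intro i hi j hj
  rw [Finset.mem_filter] at hi hj
  by_contra hne
  obtain ⟨-, -, -, h4⟩ := hQ
  rcases hi.2 with h1 | ⟨a, ha, hua⟩
  · rcases hj.2 with h2 | ⟨c, hc, huc⟩
    · exact (h4 i j hne u h1 u h2).1 rfl
    · exact (h4 i j hne u h1 c hc).2 huc
  · rcases hj.2 with h2 | ⟨c, hc, huc⟩
    · exact (h4 j i (Ne.symm hne) u h2 a ha).2 hua
    · apply hud
      unfold DD
      rw [Finset.mem_filter]
      exact ⟨hu, i, j, hne, ⟨a, ha, hua⟩, c, hc, huc⟩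

theorem stmt_DM4 : Stmt_DM4 := by
  intro H U p b m Q hB x hx y hy z hz hxd hyd hzd hxz hxy hyz
  by_contra hnad
  have hQ := hB.cq
  obtain ⟨hQU, hQc, hQq, hQ4⟩ := hB.cq
  have hm := hB.hm
  unfold mm at hm
  obtain ⟨Z, hZ⟩ : ∃ Z : ℕ → Finset (Fin m), Z = fun u =>
    Finset.univ.filter fun i : Fin m => u ∈ Q i ∨ ∃ a ∈ Q i, H.Adj u a := ⟨_, rfl⟩
  have hx1 : (Z x).card ≤ 1 := by rw [hZ]; exact DM4_one hQ hx hxd
  have hy1 : (Z y).card ≤ 1 := by rw [hZ]; exact DM4_one hQ hy hyd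
  have hz1 : (Z z).card ≤ 1 := by rw [hZ]; exact DM4_one hQ hz hzd
  have hb : b ≤ (Finset.univ \ (Z x ∪ Z y ∪ Z z)).card := by
    have h1 := Finset.le_card_sdiff (Z x ∪ Z y ∪ Z z) (Finset.univ : Finset (Fin m))
    have h2 := Finset.card_union_le (Z x ∪ Z y) (Z z)
    have h3 := Finset.card_union_le (Z x) (Z y)
    rw [Finset.card_univ, Fintype.card_fin] at h1
    omega
  obtain ⟨W, hW, hWc⟩ := Finset.exists_subset_card_eq hb
  have hm0 : 0 < m := by omega
  have hne : ∀ i : Fin m, (Q i).Nonempty := by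
    intro i
    rw [← Finset.card_pos, hQc i]
    exact hm0
  choose f hf using hne
  have hinj : Function.Injective f := by
    intro l l' hll
    by_contra h
    exact (hQ4 l l' h (f l) (hf l) (f l') (hf l')).1 hll
  have hout : ∀ l ∈ W, ∀ u, (u = x ∨ u = y ∨ u = z) → f l ≠ u ∧ ¬ H.Adj u (f l) := by
    intro l hl u hu
    have h1 := hW hl
    rw [Finset.mem_sdiff, Finset.mem_union, Finset.mem_union] at h1
    have h2 : l ∉ Z u := by
      intro h3
      apply h1.2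
      rcases hu with rfl | rfl | rfl
      · exact Or.inl (Or.inl h3)
      · exact Or.inl (Or.inr h3)
      · exact Or.inr h3
    rw [hZ, Finset.mem_filter] at h2
    refine ⟨fun h => h2 ⟨Finset.mem_univ _, Or.inl (h ▸ hf l)⟩, fun h =>
      h2 ⟨Finset.mem_univ _, Or.inr ⟨f l, hf l, h⟩⟩⟩
  refine hB.p3 x hx y hy z hz hxz hxy hyz hnad (W.image f) ?_ ?_ ?_ ?_
  · intro a ha
    rw [Finset.mem_image] at ha
    obtain ⟨l, -, rfl⟩ := ha
    exact hQU l (hf l)
  · rw [Finset.card_image_of_injective _ hinj, hWc]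
  · intro a ha a' ha' hne
    rw [Finset.mem_image] at ha ha'
    obtain ⟨l, -, rfl⟩ := ha
    obtain ⟨l', -, rfl⟩ := ha'
    have hll : l ≠ l' := fun h => hne (by rw [h])
    exact (hQ4 l l' hll (f l) (hf l) (f l') (hf l')).2
  · intro a ha
    rw [Finset.mem_image] at ha
    obtain ⟨l, hl, rfl⟩ := ha
    obtain ⟨h1, h2⟩ := hout l hl x (Or.inl rfl)
    obtain ⟨h3, h4⟩ := hout l hl y (Or.inr (Or.inl rfl))
    obtain ⟨h5, h6⟩ := hout l hl z (Or.inr (Or.inr rfl))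
    exact ⟨h1, h3, h5, h2, h4, h6⟩

end Pool.Ker.N
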