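import Pool.Agent.Work.MP_2df4ce_n.Interface

/-!
# Block DM5 (typed by helper66)
-/

set_option autoImplicit false

namespace Pool.Ker.N

open Classical St Alg Pool.Ker

theorem stmt_DM5 (h1 : Stmt_DM1) (h4 : Stmt_DM4) : Stmt_DM5 := by
  intro H U p b m Q hB v hv I hIU hI hind
  by_contra hcon
  rw [not_le] at hcon
  obtain ⟨hQU, hQc, hQq, hQ4⟩ := hB.cq
  have hv0 := hv
  unfold DD at hv0
  rw [Finset.mem_filter] at hv0
  obtain ⟨hvU, i, j, hij, ⟨x, hx, hvx⟩, ⟨z, hz, hvz⟩⟩ := hv0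
  have hxd : x ∉ DD H U Q := fun h => (h1 H U p b m Q hB x h).1 i hx
  have hzd : z ∉ DD H U Q := fun h => (h1 H U p b m Q hB z h).1 j hz
  have hxU := hQU i hx
  have hzU := hQU j hz
  obtain ⟨hxz, hnad⟩ := hQ4 i j hij x hx z hz
  have hone : ∀ u ∈ U, u ∉ DD H U Q → (I.filter fun a => H.Adj u a).card ≤ 1 := by
    intro u hu hud
    rw [Finset.card_le_one]
    intro a ha a' ha'
    rw [Finset.mem_filter] at ha ha'
    by_contra hne
    exact hind a ha.1 a' ha'.1 hne (h4 H U p b m Q hB a (hIU ha.1) u hu a' (hIU ha'.1)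
      (hI a ha.1).1 hud (hI a' ha'.1).1 hne ha.2.symm ha'.2)
  have hx1 := hone x hxU hxd
  have hz1 := hone z hzU hzd
  have hb : b ≤ (I \ ((I.filter fun a => H.Adj x a) ∪ (I.filter fun a => H.Adj z a))).card := by
    have h2 := Finset.le_card_sdiff ((I.filter fun a => H.Adj x a) ∪
      (I.filter fun a => H.Adj z a)) I
    have h3 := Finset.card_union_le (I.filter fun a => H.Adj x a) (I.filter fun a => H.Adj z a)
    omega
  obtain ⟨J, hJ, hJc⟩ := Finset.exists_subset_card_eq hb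
  have hJ2 : ∀ a ∈ J, a ∈ I ∧ ¬ H.Adj x a ∧ ¬ H.Adj z a := by
    intro a ha
    have h2 := hJ ha
    rw [Finset.mem_sdiff, Finset.mem_union, Finset.mem_filter, Finset.mem_filter] at h2
    exact ⟨h2.1, fun h => h2.2 (Or.inl ⟨h2.1, h⟩), fun h => h2.2 (Or.inr ⟨h2.1, h⟩)⟩
  refine hB.p3 x hxU v hvU z hzU hxz hvx.symm hvz hnad J (fun a ha => hIU (hJ2 a ha).1) hJc
    (fun a ha a' ha' hne => hind a (hJ2 a ha).1 a' (hJ2 a' ha').1 hne) ?_
  intro a ha
  obtain ⟨haI, hxa, hza⟩ := hJ2 a ha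
  obtain ⟨had, hva⟩ := hI a haI
  exact ⟨fun h => hva (h ▸ hvx), fun h => had (h ▸ hv), fun h => hva (h ▸ hvz), hxa, hva, hza⟩

end Pool.Ker.N
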