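import Pool.Agent.Work.MP_2df4ce_n.Interface

set_option autoImplicit false

namespace Pool.Ker.N

open Classical St Alg Pool.Ker

theorem EQB_adj (E : List (ℕ × ℕ)) (u v : ℕ) : (gr E).Adj u v ↔ adj E u v = true := Iff.rfl

theorem EQB_tw (E : List (ℕ × ℕ)) (n u v : ℕ) :
    twB E n u v = true ↔ Tw (gr E) (Finset.range n) u v := by
  simp only [twB, Tw, Bool.or_eq_true, Bool.and_eq_true, List.all_eq_true, decide_eq_true_eq,
    List.mem_range, Finset.mem_range, EQB_adj]
  constructor
  · rintro (h | ⟨h1, h2⟩)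
    · exact Or.inl h
    · refine Or.inr ⟨h1, fun w hw hu hv => ?_⟩
      rcases h2 w hw with h | h | h
      · exact absurd h hu
      · exact absurd h hv
      · exact Bool.eq_iff_iff.1 h
  · rintro (h | ⟨h1, h2⟩)
    · exact Or.inl h
    · refine Or.inr ⟨h1, fun w hw => ?_⟩
      by_cases hu : w = u
      · exact Or.inl hu
      by_cases hv : w = v
      · exact Or.inr (Or.inl hv)
      · exact Or.inr (Or.inr (Bool.eq_iff_iff.2 (h2 w hw hu hv)))

theorem EQB_len (n : ℕ) (p : ℕ → Bool) (P : ℕ → Prop) [DecidablePred P] (h : ∀ x, x < n → (p x = true ↔ P x)) :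
    ((List.range n).filter p).length = ((Finset.range n).filter P).card := by
  have h1 : ((List.range n).filter p).toFinset = (Finset.range n).filter P := by
    ext x
    simp only [List.mem_toFinset, List.mem_filter, List.mem_range, Finset.mem_filter,
      Finset.mem_range]
    constructor
    · rintro ⟨h1, h2⟩
      exact ⟨h1, (h x h1).1 h2⟩
    · rintro ⟨h1, h2⟩
      exact ⟨h1, (h x h1).2 h2⟩
  rw [← h1, List.toFinset_card_of_nodup (List.nodup_range.filter _)]

theorem EQB_cls (E : List (ℕ × ℕ)) (n v : ℕ) :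
    (clsB E n v).length = (cls (gr E) (Finset.range n) v).card :=
  EQB_len n _ _ fun x _ => EQB_tw E n v x

theorem EQB_cl (E : List (ℕ × ℕ)) (n t u v : ℕ) :
    clB E n t u v = true ↔ Cl (gr E) (Finset.range n) t u v := by
  have hn : ∀ a : Bool, (!a) = true ↔ ¬ a = true := by decide
  simp only [clB, Cl, Bool.or_eq_true, Bool.and_eq_true, List.all_eq_true, decide_eq_true_eq,
    List.mem_range, Finset.mem_range, EQB_adj, hn, EQB_tw, EQB_cls]
  refine and_congr_right fun _ => and_congr_right fun _ => and_congr ?_ Iff.rfl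
  constructor
  · intro h w hw h1 h2
    rcases h w hw with h | h | h
    · exact absurd h h1
    · exact absurd h h2
    · rw [h]
  · intro h w hw
    by_cases h1 : Tw (gr E) (Finset.range n) u w
    · exact Or.inl h1
    by_cases h2 : Tw (gr E) (Finset.range n) v w
    · exact Or.inr (Or.inl h2)
    · exact Or.inr (Or.inr (Bool.eq_iff_iff.2 (h w hw h1 h2)))

theorem EQB_rk (E : List (ℕ × ℕ)) (n v : ℕ) : rkB E n v = rk (gr E) (Finset.range n) v := by
  unfold rkB rk
  refine EQB_len n _ _ fun x _ => ?_
  simp only [Bool.and_eq_true, decide_eq_true_eq, EQB_tw]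

theorem EQB_crk (E : List (ℕ × ℕ)) (n t v : ℕ) :
    crkB E n t v = crk (gr E) (Finset.range n) t v := by
  unfold crkB crk
  refine EQB_len n _ _ fun x _ => ?_
  have hn : ∀ a : Bool, (!a) = true ↔ ¬ a = true := by decide
  simp only [Bool.or_eq_true, Bool.and_eq_true, List.all_eq_true, decide_eq_true_eq,
      List.mem_range, Finset.mem_range, hn, EQB_tw, EQB_cl, ← imp_iff_not_or]

theorem stmt_EQB : Stmt_EQB := by
  intro E n t
  refine ⟨?_, List.nodup_range.filter _, ?_⟩
  · ext v
    simp only [kpB, Kp, List.mem_toFinset, List.mem_filter, List.mem_range, Finset.mem_filter,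
      Finset.mem_range, Bool.and_eq_true, decide_eq_true_eq, EQB_rk, EQB_crk]
  · intro v hv
    exact List.mem_range.1 (List.mem_filter.1 hv).1

end Pool.Ker.N
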