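import Pool.Agent.Work.MP_2df4ce_n.Interface
import Pool.Agent.Work.MP_2df4ce_k.InterfaceF

/-!
# MP_2df4ce_lc, NearClusterKernels: block FI2
-/

set_option autoImplicit false

namespace Pool.Ker.N

open Classical St Alg Pool.Ker Pool.Agent.Work.TMLib

theorem stmt_FI2 (hUNA : Stmt_UNA) (hFTN : Stmt_FTN) (hGS4 : Stmt_GS4) (hZER : Stmt_ZER)
    (hTRS : Stmt_TRS) (hKN2 : Stmt_KN2) (hPF3 : Stmt_PF3) (hPEN : Stmt_PEN) : Stmt_FI2 := by
  intro F p b hF hp hb
  by_cases h0 : ∃ H ∈ F, H.1 = 0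
  · exact hZER F h0
  have hF' : (insert (cliqG (mm p b)) F).Finite := hF.insert _
  have hS : Structured (insert (cliqG (mm p b)) F) :=
    hGS4 _ ((hFTN _).2 (hUNA F p b (mm p b) hp hb))
  have hbd : ∃ s : ℕ, ∀ H ∈ insert (cliqG (mm p b)) F, H.1 ≤ s := by
    obtain ⟨s, hs⟩ := (hF'.image (fun H : Gr => H.1)).bddAbove
    exact ⟨s, fun H hH => hs ⟨H, hH, rfl⟩⟩
  obtain ⟨s, hs⟩ := hbd
  have hB : Bdd (insert (cliqG (mm p b)) F) s := by
    intro H hH
    refine ⟨?_, hs H hH⟩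
    rcases Set.mem_insert_iff.1 hH with rfl | hH'
    · show 0 < mm p b * mm p b
      have : 0 < mm p b := by
        unfold mm
        omega
      positivity
    · rcases Nat.eq_zero_or_pos H.1 with h | h
      · exact absurd ⟨H, hH', h⟩ h0
      · exact h
  obtain ⟨r, D, c, hN⟩ := hTRS _ hS
  have hOL : IsOL (insert (cliqG (mm p b)) F) (hF'.toFinset.toList.map patG) := by
    intro g
    rw [List.mem_map]
    constructor
    · rintro ⟨H, hH, rfl⟩
      rw [Finset.mem_toList, Set.Finite.mem_toFinset] at hH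
      exact ⟨H, hH, rfl⟩
    · rintro ⟨H, hH, rfl⟩
      refine ⟨H, ?_, rfl⟩
      rw [Finset.mem_toList, Set.Finite.mem_toFinset]
      exact hH
  obtain ⟨noI, P, hP⟩ := hKN2 F (hF'.toFinset.toList.map patG) s r D c p b hp hb hOL hB hN
  exact ⟨fun I => kern2 (hF'.toFinset.toList.map patG) s r D (c + r * (2 * D + 2)) p b noI I, P,
    hPEN _ (hPF3 _ s r D _ p b noI), hP⟩

end Pool.Ker.N
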