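import Pool.Agent.Work.MP_2df4ce_n.Interface

/-!
# MP_2df4ce_lc, NearClusterKernels: block FIB (fibres)
-/

set_option autoImplicit false

namespace Pool.Ker.N

open Classical St Alg Pool.Ker

theorem stmt_FIB (hTCH : Stmt_TCH) (hCMP : Stmt_CMP) : Stmt_FIB := by
  intro G U D K S p b t hclu hKU hK x hxU hxD P
  obtain ⟨-, ht2⟩ := hTCH G U S
  obtain ⟨-, -, hc3, hc4⟩ := hCMP (ed G S) U D p b hclu x hxU hxD
  by_cases hne : (K.filter fun y => y ∉ D ∧ y ∉ tch U S ∧ y ∈ cp (ed G S) U D x ∧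
        ∀ v ∈ D, ((ed G S).Adj v y ↔ v ∈ P)).Nonempty
  · obtain ⟨y0, hy0⟩ := hne
    rw [Finset.mem_filter] at hy0
    obtain ⟨hy0K, hy0D, hy0t, hy0c, hy0P⟩ := hy0
    have hy0U := hKU hy0K
    refine le_trans (Finset.card_le_card ?_) (hK y0 hy0U)
    intro y hy
    rw [Finset.mem_filter] at hy ⊢
    obtain ⟨hyK, hyD, hyt, hyc, hyP⟩ := hy
    have hyU := hKU hyK
    refine ⟨hyK, ?_⟩
    by_cases he : y0 = y
    · exact Or.inl he
    refine Or.inr ⟨(ht2 y0 hy0U hy0t y).1 (hc3 y0 hy0c y hyc he), ?_⟩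
    intro w hwU hw1 hw2
    rw [← ht2 y0 hy0U hy0t w, ← ht2 y hyU hyt w]
    by_cases hwD : w ∈ D
    · rw [(ed G S).adj_comm y0 w, (ed G S).adj_comm y w, hy0P w hwD, hyP w hwD]
    · constructor
      · intro h
        exact hc3 y hyc w (hc4 y0 hy0c w hwU hwD h) (Ne.symm hw2)
      · intro h
        exact hc3 y0 hy0c w (hc4 y hyc w hwU hwD h) (Ne.symm hw1)
  · rw [Finset.not_nonempty_iff_eq_empty] at hne
    rw [hne, Finset.card_empty]
    exact Nat.zero_le _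

end Pool.Ker.N
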