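import Pool.Agent.Work.MP_2df4ce_n.B_GTW

/-!
# GCL: good components of the same size are clones
-/

set_option autoImplicit false

namespace Pool.Ker.N

open Classical St Alg Pool.Ker

theorem stmt_GCL : Stmt_GCL := by
  intro G U D S p b t h x hx y hy hxD hyD hgx hgy hxy hnadj hcard
  obtain ⟨hxs, _, _, _⟩ := stmt_CMP (ed G S) U D p b h x hx hxD
  obtain ⟨hys, _, _, _⟩ := stmt_CMP (ed G S) U D p b h y hy hyD
  obtain ⟨hxt, hxv⟩ := good_untouched hgx x hxs
  obtain ⟨hyt, hyv⟩ := good_untouched hgy y hys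
  have hT1 : ∀ z ∈ U, (Tw G U x z ↔ z ∈ cp (ed G S) U D x) :=
    stmt_GTW G U D S p b h x hx y hy hxD hyD hgx hgy hxy hnadj
  have hT2 : ∀ z ∈ U, (Tw G U y z ↔ z ∈ cp (ed G S) U D y) :=
    stmt_GTW G U D S p b h y hy x hx hyD hxD hgy hgx (fun e => hxy e.symm) (fun e => hnadj e.symm)
  have hc1 : cls G U x = cp (ed G S) U D x := by
    ext z
    unfold cls
    rw [Finset.mem_filter]
    constructor
    · rintro ⟨h1, h2⟩
      exact (hT1 z h1).1 h2
    · intro h1
      have h2 : z ∈ U := (mem_cp.1 h1).1.1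
      exact ⟨h2, (hT1 z h2).2 h1⟩
  have hc2 : cls G U y = cp (ed G S) U D y := by
    ext z
    unfold cls
    rw [Finset.mem_filter]
    constructor
    · rintro ⟨h1, h2⟩
      exact (hT2 z h1).1 h2
    · intro h1
      have h2 : z ∈ U := (mem_cp.1 h1).1.1
      exact ⟨h2, (hT2 z h2).2 h1⟩
  refine ⟨?_, ?_, ?_, ?_⟩
  · intro h1
    have h2 := (hT1 y hy).1 h1
    rcases (mem_cp.1 h2).2 with h3 | h3
    · exact hxy h3.symm
    · exact hnadj h3
  · intro h1
    exact hnadj ((ed_untouched hx hxt y).2 h1)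
  · intro w hw h1 h2
    rw [← ed_untouched hx hxt w, ← ed_untouched hy hyt w]
    by_cases hwD : w ∈ D
    · exact ⟨fun _ => (hyv w hwD).symm, fun _ => (hxv w hwD).symm⟩
    · constructor
      · intro h3
        exact absurd ((hT1 w hw).2 (mem_cp.2 ⟨⟨hw, hwD⟩, Or.inr h3⟩)) h1
      · intro h3
        exact absurd ((hT2 w hw).2 (mem_cp.2 ⟨⟨hw, hwD⟩, Or.inr h3⟩)) h2
  · rw [hc1, hc2]
    exact hcard

end Pool.Ker.N
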