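import Pool.Agent.Work.MP_2df4ce_n.Interface

/-!
# MP_2df4ce_lc, NearClusterKernels: block GDC (number of good components)
-/

set_option autoImplicit false

namespace Pool.Ker.N

open Classical St Alg Pool.Ker

theorem stmt_GDC (hGCL : Stmt_GCL) : Stmt_GDC := by
  intro G U D K S p b t hclu hKU hcl R hRK hR hind
  have hmap : ∀ x ∈ R, min (cp (ed G S) U D x).card t ∈ Finset.range (t + 1) := by
    intro x hx
    rw [Finset.mem_range]
    omega
  have h1 : R.card ≤ t * (Finset.range (t + 1)).card := by
    refine Finset.card_le_mul_card_image_of_maps_to hmap t ?_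
    intro j hj
    refine hcl _ ((Finset.filter_subset _ _).trans hRK) ?_
    intro x hx y hy hxy
    rw [Finset.mem_filter] at hx hy
    refine hGCL G U D S p b t hclu x (hKU (hRK hx.1)) y (hKU (hRK hy.1)) (hR x hx.1).1
      (hR y hy.1).1 (hR x hx.1).2 (hR y hy.1).2 hxy (hind x hx.1 y hy.1 hxy) ?_
    have h := hx.2.trans hy.2.symm
    omega
  rw [Finset.card_range] at h1
  omega

end Pool.Ker.N
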