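import Pool.Agent.Work.MP_2df4ce_n.Interface

/-!
# MP_2df4ce_lc, NearClusterKernels: block GDV (the kept good vertices)
-/

set_option autoImplicit false

namespace Pool.Ker.N

open Classical St Alg Pool.Ker

theorem stmt_GDV (hCMP : Stmt_CMP) (hFIB : Stmt_FIB) (hGDC : Stmt_GDC) : Stmt_GDV := by
  intro G U D K S p b t hclu hKU hK hcl
  have hm : ∀ s : Finset ℕ, ∃ m, s.Nonempty → m ∈ s := by
    intro s
    by_cases hs : s.Nonempty
    · obtain ⟨m, hm⟩ := hs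
      exact ⟨m, fun _ => hm⟩
    · exact ⟨0, fun h => absurd h hs⟩
  choose m hm using hm
  set A := K.filter fun y => y ∉ D ∧ ¬ Bad (ed G S) U D S y with hA
  have hAm : ∀ y ∈ A, y ∈ K ∧ y ∈ U ∧ y ∉ D ∧ ¬ Bad (ed G S) U D S y := by
    intro y hy
    rw [hA, Finset.mem_filter] at hy
    exact ⟨hy.1, hKU hy.1, hy.2⟩
  have hC := fun x (hx : x ∈ A) =>
    hCMP (ed G S) U D p b hclu x (hAm x hx).2.1 (hAm x hx).2.2.1
  have hrep0 : ∀ y ∈ A, m (cp (ed G S) U D y ∩ A) ∈ cp (ed G S) U D y ∩ A := fun y hy =>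
    hm _ ⟨y, Finset.mem_inter.2 ⟨(hC y hy).1, hy⟩⟩
  have hrep : ∀ y ∈ A, m (cp (ed G S) U D y ∩ A) ∈ cp (ed G S) U D y := fun y hy =>
    (Finset.mem_inter.1 (hrep0 y hy)).1
  have hrepA : ∀ y ∈ A, m (cp (ed G S) U D y ∩ A) ∈ A := fun y hy =>
    (Finset.mem_inter.1 (hrep0 y hy)).2
  have hrepc : ∀ y ∈ A, cp (ed G S) U D (m (cp (ed G S) U D y ∩ A)) = cp (ed G S) U D y :=
    fun y hy => (hC y hy).2.1 _ (hrep y hy)
  have hR : (A.image fun y => m (cp (ed G S) U D y ∩ A)).card ≤ t * (t + 1) + 1 := by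
    refine hGDC G U D K S p b t hclu hKU hcl _ ?_ ?_ ?_
    · intro r hr
      obtain ⟨y, hy, rfl⟩ := Finset.mem_image.1 hr
      exact (hAm _ (hrepA y hy)).1
    · intro r hr
      obtain ⟨y, hy, rfl⟩ := Finset.mem_image.1 hr
      exact (hAm _ (hrepA y hy)).2.2
    · intro r hr r' hr' hne hadj
      obtain ⟨y, hy, rfl⟩ := Finset.mem_image.1 hr
      obtain ⟨y', hy', rfl⟩ := Finset.mem_image.1 hr'
      have hA' := hAm _ (hrepA y' hy')
      have h1 := (hC y hy).2.2.2 _ (hrep y hy) _ hA'.2.1 hA'.2.2.1 hadj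
      have h2 := (hC y hy).2.1 _ h1
      simp only [hrepc y' hy'] at h2
      exact hne (by simp only [h2])
  have h1 : A.card ≤ t * (A.image fun y => m (cp (ed G S) U D y ∩ A)).card := by
    refine Finset.card_le_mul_card_image A t ?_
    intro a ha
    obtain ⟨y, hy, rfl⟩ := Finset.mem_image.1 ha
    have hA' := hAm _ (hrepA y hy)
    refine le_trans (Finset.card_le_card ?_) (hFIB G U D K S p b t hclu hKU hK
      (m (cp (ed G S) U D y ∩ A)) hA'.2.1 hA'.2.2.1 D)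
    intro z hz
    rw [Finset.mem_filter] at hz ⊢
    obtain ⟨hzA, hzf⟩ := hz
    obtain ⟨hzK, hzU, hzD, hzB⟩ := hAm z hzA
    have hzc := (hC z hzA).1
    refine ⟨hzK, hzD, ?_, ?_, ?_⟩
    · intro h
      exact hzB ⟨z, hzc, Or.inl h⟩
    · rw [← hzf]
      simp only [hrepc z hzA]
      exact hzc
    · intro v hv
      refine ⟨fun _ => hv, fun _ => ?_⟩
      by_contra h
      exact hzB ⟨z, hzc, Or.inr ⟨v, hv, h⟩⟩
  exact h1.trans (Nat.mul_le_mul_left _ hR)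

end Pool.Ker.N
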