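import Pool.Agent.Work.MP_2df4ce_n.B_CMP

/-!
# GTW: good components are twin classes
-/

set_option autoImplicit false

namespace Pool.Ker.N

open Classical St Alg Pool.Ker

theorem ed_untouched {G : SimpleGraph ℕ} {U : Finset ℕ} {S : Finset (Sym2 ℕ)} {x : ℕ} (hx : x ∈ U)
    (ht : x ∉ tch U S) (y : ℕ) : (ed G S).Adj x y ↔ G.Adj x y := by
  have h1 : s(x, y) ∉ S := by
    intro h1
    exact ht (Finset.mem_filter.2 ⟨hx, s(x, y), h1, Sym2.mem_mk_left x y⟩)
  show (x ≠ y ∧ ¬ (G.Adj x y ↔ s(x, y) ∈ S)) ↔ G.Adj x y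
  constructor
  · rintro ⟨_, h2⟩
    by_contra h3
    exact h2 ⟨fun h => absurd h h3, fun h => absurd h h1⟩
  · intro h2
    exact ⟨h2.ne, fun h3 => h1 (h3.1 h2)⟩

theorem good_untouched {H : SimpleGraph ℕ} {U D : Finset ℕ} {S : Finset (Sym2 ℕ)} {x : ℕ}
    (hg : ¬ Bad H U D S x) : ∀ y ∈ cp H U D x, y ∉ tch U S ∧ ∀ v ∈ D, H.Adj v y := by
  intro y hy
  constructor
  · intro h1
    exact hg ⟨y, hy, Or.inl h1⟩
  · intro v hv
    by_contra h1
    exact hg ⟨y, hy, Or.inr ⟨v, hv, h1⟩⟩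

theorem stmt_GTW : Stmt_GTW := by
  intro G U D S p b h x hx y hy hxD hyD hgx hgy hxy hnadj z hz
  obtain ⟨hxs, _, hadj, hcl⟩ := stmt_CMP (ed G S) U D p b h x hx hxD
  obtain ⟨hys, _, _, _⟩ := stmt_CMP (ed G S) U D p b h y hy hyD
  obtain ⟨hxt, hxv⟩ := good_untouched hgx x hxs
  obtain ⟨hyt, hyv⟩ := good_untouched hgy y hys
  constructor
  · rintro (rfl | ⟨h1, h2⟩)
    · exact hxs
    · have h3 : (ed G S).Adj x z := (ed_untouched hx hxt z).2 h1
      by_cases hzD : z ∈ D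
      · exfalso
        have h4 : (ed G S).Adj y z := (hyv z hzD).symm
        have h5 : G.Adj y z := (ed_untouched hy hyt z).1 h4
        have h6 : G.Adj x y := (h2 y hy (fun e => hxy e.symm) (fun e => hyD (e ▸ hzD))).2 h5.symm
        exact hnadj ((ed_untouched hx hxt y).2 h6)
      · exact mem_cp.2 ⟨⟨hz, hzD⟩, Or.inr h3⟩
  · intro hzc
    obtain ⟨⟨hzU, hzD⟩, hz1⟩ := mem_cp.1 hzc
    rcases hz1 with rfl | hz1
    · exact Or.inl rfl
    · right
      obtain ⟨hzt, hzv⟩ := good_untouched hgx z hzc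
      refine ⟨(ed_untouched hx hxt z).1 hz1, ?_⟩
      intro w hw hwx hwz
      rw [← ed_untouched hx hxt w, ← ed_untouched hz hzt w]
      by_cases hwD : w ∈ D
      · exact ⟨fun _ => (hzv w hwD).symm, fun _ => (hxv w hwD).symm⟩
      · constructor
        · intro h4
          have h5 : w ∈ cp (ed G S) U D x := mem_cp.2 ⟨⟨hw, hwD⟩, Or.inr h4⟩
          exact hadj z hzc w h5 (fun e => hwz e.symm)
        · intro h4
          have h5 := hcl z hzc w hw hwD h4
          exact hadj x hxs w h5 (fun e => hwx e.symm)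

end Pool.Ker.N
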