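import Pool.Agent.Work.MP_2df4ce_n.Interface

/-! MP_2df4ce_lc, block KCL (helper12). -/

set_option autoImplicit false

namespace Pool.Ker.N

open Classical St Alg Pool.Ker

/-- Block KCL. -/
theorem stmt_KCL (hTWQ : Stmt_TWQ) (hCLQ : Stmt_CLQ) (hSEG : Stmt_SEG) : Stmt_KCL := by
  intro G U t v hv ht
  obtain ⟨hr, hs, htr, -, -, -⟩ := hTWQ G U
  obtain ⟨-, -, hct⟩ := hCLQ G U t
  set W : Finset ℕ := U.filter fun w => (∀ x ∈ U, Tw G U w x → w ≤ x) ∧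
    (∀ x ∈ U, Tw G U v x → w < x) ∧ Cl G U t v w with hW
  have hWc : crk G U t v = W.card := rfl
  have hmem : ∀ w, w ∈ W ↔ w ∈ U ∧ (∀ x ∈ U, Tw G U w x → w ≤ x) ∧
      (∀ x ∈ U, Tw G U v x → w < x) ∧ Cl G U t v w := by
    intro w; rw [hW, Finset.mem_filter]
  refine ⟨W.filter fun w => (W.filter fun x => x < w).card < t, ?_, ?_, ?_, ?_⟩
  · intro w hw
    exact ((hmem w).1 (Finset.mem_filter.1 hw).1).1
  · rw [hSEG W t]
    rw [hWc] at ht
    exact le_min ht le_rfl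
  · intro w hw
    obtain ⟨hwW, hwt⟩ := Finset.mem_filter.1 hw
    obtain ⟨hwU, hwm, hwv, hwc⟩ := (hmem w).1 hwW
    refine ⟨hwc, lt_of_le_of_lt (Finset.card_le_card ?_) hwt⟩
    intro x hx
    obtain ⟨hxU, hxm, hxw, hxc⟩ := Finset.mem_filter.1 hx
    have hlt : x < w := hxw w hwU (hr w)
    refine Finset.mem_filter.2 ⟨(hmem x).2 ⟨hxU, hxm, ?_, ?_⟩, hlt⟩
    · intro y hy hvy
      exact hlt.trans (hwv y hy hvy)
    · rcases hct v w x hv hwU hxU hwc hxc with h | h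
      · exact absurd (hwv x hxU h) (not_lt.2 hlt.le)
      · exact h
  · intro w hw w' hw' hne htw
    obtain ⟨hwU, hwm, -, -⟩ := (hmem w).1 (Finset.mem_filter.1 hw).1
    obtain ⟨hwU', hwm', -, -⟩ := (hmem w').1 (Finset.mem_filter.1 hw').1
    exact hne (le_antisymm (hwm w' hwU' htw) (hwm' w hwU (hs _ _ htw)))

end Pool.Ker.N
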