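import Pool.Agent.Work.MP_2df4ce_n.Interface

/-!
# MP_2df4ce_lc, NearClusterKernels: block KN2
-/

set_option autoImplicit false

namespace Pool.Ker.N

open Classical St Alg Pool.Ker

theorem stmt_KN2 (hKRG : Stmt_KRG) (hRDI : Stmt_RDI) (hNOI : Stmt_NOI) : Stmt_KN2 := by
  intro F OL s r D c p b hp hb hOL hB hS
  obtain ⟨noI, h0, hno⟩ := hNOI F ⟨_, hp⟩
  have hsub : F ⊆ insert (cliqG (mm p b)) F := Set.subset_insert _ _
  have hBF : Bdd F s := fun H hH => hB H (hsub hH)
  obtain ⟨P, hP⟩ := hKRG F _ OL s r D c noI hsub hOL hB hS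
  obtain ⟨Q, hQ⟩ : ∃ Q : Polynomial ℕ, ∀ k : ℕ, Q.eval k = pb p b (2 * k + s + 1) k := by
    refine ⟨Polynomial.C p + Polynomial.C 2 * Polynomial.X +
      (Polynomial.C 2 * Polynomial.X + Polynomial.C (p * (b + 1))) * Polynomial.C (2 ^ p) *
        (Polynomial.C 2 * Polynomial.X + Polynomial.C s + Polynomial.C 1) +
      (Polynomial.C 2 * Polynomial.X + Polynomial.C s + Polynomial.C 1) *
        ((Polynomial.C 2 * Polynomial.X + Polynomial.C s + Polynomial.C 1) *
          ((Polynomial.C 2 * Polynomial.X + Polynomial.C s + Polynomial.C 1) +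
            Polynomial.C 1) + Polynomial.C 1), fun k => ?_⟩
    simp only [Polynomial.eval_add, Polynomial.eval_C, Polynomial.eval_mul, Polynomial.eval_X]
    rfl
  refine ⟨noI, P + ((Q + Polynomial.C 1) + (Polynomial.X + Polynomial.C 1) +
    Q ^ 2 * (Polynomial.C 2 * Q + Polynomial.C 2)), fun I => ?_⟩
  obtain ⟨hR1, hR2, hR3, hR4⟩ := hRDI F s p b hBF hp hb I
  have hev : (P + ((Q + Polynomial.C 1) + (Polynomial.X + Polynomial.C 1) +
      Q ^ 2 * (Polynomial.C 2 * Q + Polynomial.C 2))).eval I.2.2 =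
      P.eval I.2.2 + ((pb p b (2 * I.2.2 + s + 1) I.2.2 + 1) + (I.2.2 + 1) +
        pb p b (2 * I.2.2 + s + 1) I.2.2 ^ 2 *
          (2 * pb p b (2 * I.2.2 + s + 1) I.2.2 + 2)) := by
    simp only [Polynomial.eval_add, Polynomial.eval_C, Polynomial.eval_mul, Polynomial.eval_X,
      Polynomial.eval_pow, hQ]
  rw [hev]
  by_cases h : (redI s I).1 ≤ pb p b (2 * I.2.2 + s + 1) I.2.2
  · have hk : kern2 OL s r D (c + r * (2 * D + 2)) p b noI I = redI s I := by
      unfold kern2
      rw [decide_eq_true h]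
      rfl
    rw [hk]
    refine ⟨hR1, hR2.le, hR3.trans (le_trans ?_ (Nat.le_add_left _ _))⟩
    gcongr
  · have hk : kern2 OL s r D (c + r * (2 * D + 2)) p b noI I =
        kern OL s r D (c + r * (2 * D + 2)) noI (redI s I) := by
      unfold kern2
      rw [decide_eq_false h]
      rfl
    rw [hk]
    obtain ⟨h1, h2, h3⟩ := hP (redI s I)
    have h3' : (kern OL s r D (c + r * (2 * D + 2)) noI (redI s I)).enc.length ≤
        P.eval I.2.2 := by
      rw [hR2] at h3
      exact h3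
    by_cases hp' : (packO OL s (redI s I).1 (redI s I).2.2 (redI s I).2.1).length ≤
        (redI s I).2.2
    · obtain ⟨h4, h5⟩ := h1 hp'
      exact ⟨h4.trans hR1, h5.trans hR2.le, h3'.trans (Nat.le_add_right _ _)⟩
    · obtain ⟨he, hn⟩ := h2 (not_le.1 hp')
      refine ⟨⟨fun h6 => ?_, fun h6 => ?_⟩, ?_, h3'.trans (Nat.le_add_right _ _)⟩
      · rw [he] at h6
        exact absurd h6 hno
      · exact absurd (hR4 (not_le.1 h) (hR1.2 h6)) hn
      · rw [he, h0]
        exact Nat.zero_le _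

end Pool.Ker.N
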