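import Pool.Agent.Work.MP_2df4ce_n.Interface

/-! MP_2df4ce_lc, block KPB (helper12). -/

set_option autoImplicit false

namespace Pool.Ker.N

open Classical St Alg Pool.Ker

/-- Block KPB. -/
theorem stmt_KPB (hTWQ : Stmt_TWQ) (hCLQ : Stmt_CLQ) (hRKC : Stmt_RKC) : Stmt_KPB := by
  intro G U t
  obtain ⟨hr, hs, htr, -, -, -⟩ := hTWQ G U
  obtain ⟨-, hcc, -⟩ := hCLQ G U t
  have hKp : ∀ w, w ∈ Kp G U t ↔ w ∈ U ∧ rk G U w < t ∧ crk G U t w < t := by
    intro w; rw [Kp, Finset.mem_filter]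
  refine ⟨?_, ?_⟩
  · intro v hv
    have h1 := hRKC G U t v hv
    refine le_trans (Finset.card_le_card ?_) (h1.le.trans (min_le_right _ _))
    intro w hw
    obtain ⟨hwK, hwt⟩ := Finset.mem_filter.1 hw
    obtain ⟨hwU, hwr, -⟩ := (hKp w).1 hwK
    exact Finset.mem_filter.2 ⟨Finset.mem_filter.2 ⟨hwU, hwt⟩, hwr⟩
  · intro R hRK hR
    have hRU : ∀ x ∈ R, x ∈ U := fun x hx => ((hKp x).1 (hRK hx)).1
    rcases R.eq_empty_or_nonempty with h0 | hne
    · rw [h0]; simp
    have hex : ∀ x : ℕ, ∃ l : ℕ, x ∈ U → (l ∈ U ∧ Tw G U x l ∧ ∀ y ∈ U, Tw G U x y → l ≤ y) := by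
      intro x
      by_cases hx : x ∈ U
      · have hn : (cls G U x).Nonempty := ⟨x, Finset.mem_filter.2 ⟨hx, hr x⟩⟩
        refine ⟨(cls G U x).min' hn, fun _ => ?_⟩
        have h1 := Finset.mem_filter.1 ((cls G U x).min'_mem hn)
        exact ⟨h1.1, h1.2, fun y hy hxy =>
          (cls G U x).min'_le y (Finset.mem_filter.2 ⟨hy, hxy⟩)⟩
      · exact ⟨0, fun h => absurd h hx⟩
    choose l hl using hex
    have hinj : ∀ x ∈ R, ∀ y ∈ R, l x = l y → x = y := by
      intro x hx y hy hxy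
      by_contra hne'
      obtain ⟨h1, h2, -⟩ := hl x (hRU x hx)
      obtain ⟨h3, h4, -⟩ := hl y (hRU y hy)
      rw [← hxy] at h3 h4
      exact (hR x hx y hy hne').1 (htr x (l x) y (hRU x hx) h1 (hRU y hy) h2 (hs _ _ h4))
    obtain ⟨x0, hx0, hmax⟩ := Finset.exists_max_image R l hne
    have hcard : (R.erase x0).card < t := by
      have h1 : ((R.erase x0).image l).card = (R.erase x0).card := by
        apply Finset.card_image_of_injOn
        intro x hx y hy hxy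
        exact hinj x (Finset.mem_of_mem_erase hx) y (Finset.mem_of_mem_erase hy) hxy
      rw [← h1]
      refine lt_of_le_of_lt (Finset.card_le_card ?_) ((hKp x0).1 (hRK hx0)).2.2
      intro z hz
      obtain ⟨x, hx, rfl⟩ := Finset.mem_image.1 hz
      obtain ⟨hxne, hxR⟩ := Finset.mem_erase.1 hx
      obtain ⟨h2, h3, h4⟩ := hl x (hRU x hxR)
      obtain ⟨h5, h6, h7⟩ := hl x0 (hRU x0 hx0)
      have hlt : l x < l x0 :=
        lt_of_le_of_ne (hmax x hxR) (fun h => hxne (hinj x hxR x0 hx0 h))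
      refine Finset.mem_filter.2 ⟨h2, ?_, ?_, ?_⟩
      · intro y hy hxy
        exact h4 y hy (htr x (l x) y (hRU x hxR) h2 hy h3 hxy)
      · intro y hy hxy
        exact lt_of_lt_of_le hlt (h7 y hy hxy)
      · exact hcc x0 x0 x (l x) (hRU x0 hx0) (hRU x0 hx0) (hRU x hxR) h2 (hr x0) h3
          (hR x0 hx0 x hxR (Ne.symm hxne))
    have h8 := Finset.card_erase_of_mem hx0
    omega

end Pool.Ker.N
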