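import Pool.Agent.Work.MP_2df4ce_n.Interface

/-!
# MP_2df4ce_lc, NearClusterKernels: block KRG
-/

set_option autoImplicit false

namespace Pool.Ker.N

open Classical St Alg Pool.Ker

theorem stmt_KRG (hPFR : Stmt_PFR) (hCOG : Stmt_COG) (hVKB : Stmt_VKB) (hTRF : Stmt_TRF)
    (hSBB : Stmt_SBB) : Stmt_KRG := by
  intro F F' OL s r D c noI hFF hOL hB hS
  obtain ⟨P1, hP1⟩ := hVKB F' OL s r D c hOL hB hS
  have hBF : Bdd F s := fun H hH => hB H (hFF hH)
  refine ⟨Polynomial.C noI.enc.length +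
    ((P1 + Polynomial.C 1) + (Polynomial.X + Polynomial.C 1) +
      P1 ^ 2 * (Polynomial.C 2 * P1 + Polynomial.C 2)), ?_⟩
  intro I
  have hid : ∀ F0 : Set Gr, St.Yes F0 I ↔
      Ker.Yes (OF F0) (gr I.2.1) (Finset.range I.1) I.2.2 := by
    intro F0
    have h := hTRF F0 I.2.1 I id (fun i j _ _ h => h) (fun i j _ _ => rfl)
    rw [Finset.image_id] at h
    exact h
  by_cases h : I.2.2 < (packO OL s I.1 I.2.2 I.2.1).length
  · have hk : kern OL s r D (c + r * (2 * D + 2)) noI I = noI := by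
      unfold kern
      rw [decide_eq_true h]
      rfl
    rw [hk]
    have hnot : ¬ St.Yes F' I := by
      rw [hid]
      exact (hPFR F' OL s hOL hB I.1 I.2.2 I.2.1).1 h
    refine ⟨fun h' => absurd h (not_lt.2 h'), fun _ => ⟨rfl, hnot⟩, ?_⟩
    rw [Polynomial.eval_add, Polynomial.eval_C]
    exact Nat.le_add_right _ _
  · have h' : (packO OL s I.1 I.2.2 I.2.1).length ≤ I.2.2 := not_lt.1 h
    obtain ⟨K, hK⟩ : ∃ K, K = vk s r D (c + r * (2 * D + 2)) I.1 I.2.2 I.2.1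
      (packO OL s I.1 I.2.2 I.2.1) := ⟨_, rfl⟩
    have hk : kern OL s r D (c + r * (2 * D + 2)) noI I = sub I.2.1 I.2.2 K := by
      unfold kern
      rw [decide_eq_false h, hK]
      rfl
    rw [hk]
    obtain ⟨hc1, hc2, _⟩ := hCOG F s r D (c + r * (2 * D + 2)) hBF I.1 I.2.2 I.2.1
      (packO OL s I.1 I.2.2 I.2.1)
    have hlen := hP1 I.1 I.2.2 I.2.1 h'
    rw [← hK] at hc1 hc2 hlen
    obtain ⟨hs1, hs2, hs3, hs4⟩ := hSBB I.2.1 I.2.2 K hc2
    refine ⟨fun _ => ⟨?_, le_refl _⟩, fun h'' => absurd h'' h, ?_⟩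
    · have h2 := hTRF F I.2.1 (sub I.2.1 I.2.2 K) (fun i => K.getD i 0) hs2 hs1
      have h3 : (Finset.range (sub I.2.1 I.2.2 K).1).image (fun i => K.getD i 0) =
          K.toFinset := hs3
      rw [h3] at h2
      rw [h2, hid]
      exact hc1.symm
    · refine hs4.trans ?_
      simp only [Polynomial.eval_add, Polynomial.eval_C, Polynomial.eval_mul, Polynomial.eval_pow,
        Polynomial.eval_X]
      refine le_trans ?_ (Nat.le_add_left _ _)
      gcongr

end Pool.Ker.N
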