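import Pool.Agent.Work.MP_2df4ce_n.Interface

/-!
# Block PF1: twins and clones in polynomial time
-/

set_option autoImplicit false

namespace Pool.Ker.N

open Classical St Alg Pool.Ker Pool.Agent.Work.TMLib

section
variable {α : Type} [DE α]

theorem PF1_twB (h1 : Stmt_PA1) {E : α → List (ℕ × ℕ)} {n u v : α → ℕ} (hE : PolyF E)
    (hn : PolyF n) (hu : PolyF u) (hv : PolyF v) :
    PolyF (fun a => twB (E a) (n a) (u a) (v a)) := by
  unfold twB
  refine PolyF.or (PolyF.natEq hu hv) (PolyF.and (h1.1 α E u v hE hu hv) ?_)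
  refine PolyF.all (l := fun a => List.range (n a)) (f := fun a w => decide (w = u a) ||
    (decide (w = v a) || decide (adj (E a) (u a) w = adj (E a) (v a) w))) (by fun_prop) ?_
  refine PolyF.or (by fun_prop) (PolyF.or (by fun_prop) (PolyF.eq ?_ ?_))
  · exact h1.1 (α × ℕ) (fun p => E p.1) (fun p => u p.1) (fun p => p.2) (by fun_prop)
      (by fun_prop) (by fun_prop)
  · exact h1.1 (α × ℕ) (fun p => E p.1) (fun p => v p.1) (fun p => p.2) (by fun_prop)
      (by fun_prop) (by fun_prop)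

theorem PF1_clsB (h1 : Stmt_PA1) {E : α → List (ℕ × ℕ)} {n v : α → ℕ} (hE : PolyF E)
    (hn : PolyF n) (hv : PolyF v) : PolyF (fun a => clsB (E a) (n a) (v a)) := by
  unfold clsB
  refine PolyF.filter (l := fun a => List.range (n a)) (f := fun a w => twB (E a) (n a) (v a) w)
    (by fun_prop) ?_
  exact PF1_twB h1 (E := fun p : α × ℕ => E p.1) (n := fun p => n p.1) (u := fun p => v p.1)
    (v := fun p => p.2) (by fun_prop) (by fun_prop) (by fun_prop) (by fun_prop)

theorem PF1_clB (h1 : Stmt_PA1) {E : α → List (ℕ × ℕ)} {n t u v : α → ℕ} (hE : PolyF E)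
    (hn : PolyF n) (ht : PolyF t) (hu : PolyF u) (hv : PolyF v) :
    PolyF (fun a => clB (E a) (n a) (t a) (u a) (v a)) := by
  have hcu := PF1_clsB h1 hE hn hu
  have hcv := PF1_clsB h1 hE hn hv
  unfold clB
  refine PolyF.and (PolyF.not (PF1_twB h1 hE hn hu hv)) (PolyF.and
    (PolyF.not (h1.1 α E u v hE hu hv)) (PolyF.and ?_ (PolyF.or ?_ (PolyF.and ?_ ?_))))
  · refine PolyF.all (l := fun a => List.range (n a)) (f := fun a w => twB (E a) (n a) (u a) w ||
      (twB (E a) (n a) (v a) w || decide (adj (E a) (u a) w = adj (E a) (v a) w)))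
      (by fun_prop) ?_
    refine PolyF.or ?_ (PolyF.or ?_ (PolyF.eq ?_ ?_))
    · exact PF1_twB h1 (E := fun p : α × ℕ => E p.1) (n := fun p => n p.1) (u := fun p => u p.1)
        (v := fun p => p.2) (by fun_prop) (by fun_prop) (by fun_prop) (by fun_prop)
    · exact PF1_twB h1 (E := fun p : α × ℕ => E p.1) (n := fun p => n p.1) (u := fun p => v p.1)
        (v := fun p => p.2) (by fun_prop) (by fun_prop) (by fun_prop) (by fun_prop)
    · exact h1.1 (α × ℕ) (fun p => E p.1) (fun p => u p.1) (fun p => p.2) (by fun_prop)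
        (by fun_prop) (by fun_prop)
    · exact h1.1 (α × ℕ) (fun p => E p.1) (fun p => v p.1) (fun p => p.2) (by fun_prop)
        (by fun_prop) (by fun_prop)
  · exact PolyF.natEq hcu.length hcv.length
  · exact PolyF.le ht hcu.length
  · exact PolyF.le ht hcv.length

end

theorem stmt_PF1 (h1 : Stmt_PA1) : Stmt_PF1 :=
  ⟨fun _ _ _ _ _ _ hE hn hu hv => PF1_twB h1 hE hn hu hv,
    fun _ _ _ _ _ hE hn hv => PF1_clsB h1 hE hn hv,
    fun _ _ _ _ _ _ _ hE hn ht hu hv => PF1_clB h1 hE hn ht hu hv⟩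

end Pool.Ker.N
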