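import Pool.Agent.Work.MP_2df4ce_n.Interface

/-!
# MP_2df4ce_lc, NearClusterKernels: block PF2
-/

set_option autoImplicit false

namespace Pool.Ker.N

open St Alg Pool.Ker Pool.Agent.Work.TMLib

section
variable {α : Type} [DE α]

theorem PF2_rkB (h1 : Stmt_PF1) {E : α → List (ℕ × ℕ)} {n v : α → ℕ} (hE : PolyF E)
    (hn : PolyF n) (hv : PolyF v) : PolyF (fun a => rkB (E a) (n a) (v a)) := by
  unfold rkB
  refine PolyF.length ?_
  refine PolyF.filter (f := fun a w => decide (w < v a) && twB (E a) (n a) (v a) w)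
    (by fun_prop) ?_
  refine PolyF.and (by fun_prop) ?_
  exact h1.1 (α × ℕ) (fun p => E p.1) (fun p => n p.1) (fun p => v p.1) (fun p => p.2)
    (by fun_prop) (by fun_prop) (by fun_prop) (by fun_prop)

theorem PF2_all (h1 : Stmt_PF1) {E : α → List (ℕ × ℕ)} {n u w : α → ℕ} (hE : PolyF E)
    (hn : PolyF n) (hu : PolyF u) (hw : PolyF w) :
    PolyF (fun a => (List.range (n a)).all fun x => !(twB (E a) (n a) (u a) x) || decide (w a ≤ x)) ∧
    PolyF (fun a => (List.range (n a)).all fun x =>
      !(twB (E a) (n a) (u a) x) || decide (w a < x)) := by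
  have ht : PolyF (fun p : α × ℕ => !(twB (E p.1) (n p.1) (u p.1) p.2)) := by
    refine PolyF.not ?_
    exact h1.1 (α × ℕ) (fun p => E p.1) (fun p => n p.1) (fun p => u p.1) (fun p => p.2)
      (by fun_prop) (by fun_prop) (by fun_prop) (by fun_prop)
  constructor
  · refine PolyF.all (f := fun a x => !(twB (E a) (n a) (u a) x) || decide (w a ≤ x))
      (by fun_prop) ?_
    exact PolyF.or ht (by fun_prop)
  · refine PolyF.all (f := fun a x => !(twB (E a) (n a) (u a) x) || decide (w a < x))
      (by fun_prop) ?_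
    exact PolyF.or ht (by fun_prop)

theorem PF2_crkB (h1 : Stmt_PF1) {E : α → List (ℕ × ℕ)} {n t v : α → ℕ} (hE : PolyF E)
    (hn : PolyF n) (ht : PolyF t) (hv : PolyF v) :
    PolyF (fun a => crkB (E a) (n a) (t a) (v a)) := by
  unfold crkB
  refine PolyF.length ?_
  refine PolyF.filter (f := fun a w =>
    ((List.range (n a)).all fun x => !(twB (E a) (n a) w x) || decide (w ≤ x)) &&
    (((List.range (n a)).all fun x => !(twB (E a) (n a) (v a) x) || decide (w < x)) &&
      clB (E a) (n a) (t a) (v a) w)) (by fun_prop) ?_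
  refine PolyF.and ?_ (PolyF.and ?_ ?_)
  · exact (PF2_all h1 (E := fun p : α × ℕ => E p.1) (n := fun p => n p.1) (u := fun p => p.2)
      (w := fun p => p.2) (by fun_prop) (by fun_prop) (by fun_prop) (by fun_prop)).1
  · exact (PF2_all h1 (E := fun p : α × ℕ => E p.1) (n := fun p => n p.1) (u := fun p => v p.1)
      (w := fun p => p.2) (by fun_prop) (by fun_prop) (by fun_prop) (by fun_prop)).2
  · exact h1.2.2 (α × ℕ) (fun p => E p.1) (fun p => n p.1) (fun p => t p.1) (fun p => v p.1)
      (fun p => p.2) (by fun_prop) (by fun_prop) (by fun_prop) (by fun_prop) (by fun_prop)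

theorem PF2_kpB (h1 : Stmt_PF1) {E : α → List (ℕ × ℕ)} {n t : α → ℕ} (hE : PolyF E)
    (hn : PolyF n) (ht : PolyF t) : PolyF (fun a => kpB (E a) (n a) (t a)) := by
  unfold kpB
  refine PolyF.filter (f := fun a v => decide (rkB (E a) (n a) v < t a) &&
    decide (crkB (E a) (n a) (t a) v < t a)) (by fun_prop) ?_
  refine PolyF.and (PolyF.lt ?_ (by fun_prop)) (PolyF.lt ?_ (by fun_prop))
  · exact PF2_rkB h1 (E := fun p : α × ℕ => E p.1) (n := fun p => n p.1) (v := fun p => p.2)
      (by fun_prop) (by fun_prop) (by fun_prop)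
  · exact PF2_crkB h1 (E := fun p : α × ℕ => E p.1) (n := fun p => n p.1) (t := fun p => t p.1)
      (v := fun p => p.2) (by fun_prop) (by fun_prop) (by fun_prop) (by fun_prop)

end

theorem stmt_PF2 (h1 : Stmt_PF1) : Stmt_PF2 := fun _ _ _ _ _ hE hn ht => PF2_kpB h1 hE hn ht

end Pool.Ker.N
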