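import Pool.Agent.Work.MP_2df4ce_n.Interface
import Pool.Agent.Work.MP_2df4ce_k.B_PA6

/-! # MP_2df4ce_n, block PF3: the kernelization is polynomial -/

set_option autoImplicit false

namespace Pool.Ker.N

open St Alg Pool.Ker Pool.Agent.Work.TMLib

/-- The reduced instance. -/
theorem PF3_redI (hPA1 : Stmt_PA1) (hPF2 : Stmt_PF2) (s : ℕ) :
    PolyF (fun I : Inst => redI s I) := by
  unfold redI
  refine PA6_sub hPA1 Inst (fun I => I.2.1) (fun I => I.2.2)
    (fun I => kpB I.2.1 I.1 (2 * I.2.2 + s + 1)) (by fun_prop) (by fun_prop) ?_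
  exact hPF2 Inst (fun I => I.2.1) (fun I => I.1) (fun I => 2 * I.2.2 + s + 1) (by fun_prop)
    (by fun_prop) (by fun_prop)

theorem p_PF3 (hPA1 : Stmt_PA1) (hPA6 : Stmt_PA6) (hPF2 : Stmt_PF2) : Stmt_PF3 := by
  intro OL s r D cc p b noI
  have hR := PF3_redI hPA1 hPF2 s
  have hK : PolyF (fun I : Inst => kern OL s r D cc noI (redI s I)) :=
    PolyF.comp (f := fun I : Inst => kern OL s r D cc noI I) (g := fun I : Inst => redI s I)
      (hPA6 OL s r D cc noI) hR
  have h1 : PolyF (fun I : Inst => (redI s I).1) := PolyF.comp (f := fun I : Inst => I.1)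
    (g := fun I : Inst => redI s I) (by fun_prop) hR
  have h2 : PolyF (fun I : Inst => pb p b (2 * I.2.2 + s + 1) I.2.2) := by
    unfold pb
    fun_prop
  unfold kern2
  exact PolyF.cond (PolyF.le h1 h2) hR hK

end Pool.Ker.N
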