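import Pool.Agent.Work.MP_2df4ce_n.Interface

/-!
# PT1
-/

set_option autoImplicit false

namespace Pool.Ker.N

open Classical St Alg Pool.Ker

theorem PT1_adj (p : ℕ) (i j : Fin (p + 2)) :
    (KMinus (p + 2)).Adj i j ↔ i ≠ j ∧ (2 ≤ i.val ∨ 2 ≤ j.val) := by
  unfold KMinus
  rw [SimpleGraph.fromRel_adj]

theorem stmt_PT1 : Stmt_PT1 := by
  intro F G U S p hF hS x hx y hy hxy hnadj Q hQU hQc hcl hQ
  obtain ⟨e, he1, he2⟩ : ∃ e : Fin p → ℕ, Function.Injective e ∧ ∀ k, e k ∈ Q := by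
    refine ⟨fun k => ((Finset.equivFinOfCardEq hQc).symm k : ℕ), ?_, fun k => Subtype.coe_prop _⟩
    intro a b hab
    exact (Finset.equivFinOfCardEq hQc).symm.injective (Subtype.ext hab)
  have hxQ : ∀ k, x ≠ e k := fun k h => (hQ _ (he2 k)).1.ne h
  have hyQ : ∀ k, y ≠ e k := fun k h => (hQ _ (he2 k)).2.ne h
  have hee : ∀ k l, k ≠ l → (ed G S).Adj (e k) (e l) :=
    fun k l h => hcl _ (he2 k) _ (he2 l) fun h' => h (he1 h')
  set φ : Fin (p + 2) → ℕ := Fin.cons x (Fin.cons y e : Fin (p + 1) → ℕ) with hφ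
  have h0 : φ 0 = x := rfl
  have h1 : φ (Fin.succ 0) = y := rfl
  have h2 : ∀ k : Fin p, φ k.succ.succ = e k := fun k => rfl
  have v0 : ((0 : Fin (p + 2)) : ℕ) = 0 := rfl
  have v1 : ((Fin.succ 0 : Fin (p + 2)) : ℕ) = 1 := rfl
  have v2 : ∀ k : Fin p, 2 ≤ ((k.succ.succ : Fin (p + 2)) : ℕ) := fun k => by
    rw [Fin.val_succ, Fin.val_succ]; omega
  refine hS (Finset.univ.image φ) ?_ ⟨_, hF, φ, ?_, ?_, rfl⟩
  · intro z hz
    obtain ⟨i, -, rfl⟩ := Finset.mem_image.1 hz
    refine Fin.cases ?_ (fun j => ?_) i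
    · exact hx
    · refine Fin.cases ?_ (fun k => ?_) j
      · exact hy
      · exact hQU (he2 k)
  · rw [hφ, Fin.cons_injective_iff, Fin.cons_injective_iff]
    refine ⟨?_, ?_, he1⟩
    · rintro ⟨j, hj⟩
      revert hj
      refine Fin.cases ?_ (fun k => ?_) j
      · exact fun h => hxy h.symm
      · exact fun h => hxQ k h.symm
    · rintro ⟨k, hk⟩
      exact hyQ k hk.symm
  · intro i j
    show (KMinus (p + 2)).Adj i j ↔ (ed G S).Adj (φ i) (φ j)
    rw [PT1_adj]
    refine Fin.cases ?_ (fun i => ?_) i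
    · refine Fin.cases ?_ (fun j => ?_) j
      · exact ⟨fun h => absurd rfl h.1, fun h => absurd rfl h.ne⟩
      · refine Fin.cases ?_ (fun l => ?_) j
        · rw [h0, h1, v0, v1]
          exact ⟨fun h => by omega, fun h => absurd h hnadj⟩
        · rw [h0, h2]
          exact ⟨fun _ => (hQ _ (he2 l)).1, fun _ => ⟨(Fin.succ_ne_zero _).symm, Or.inr (v2 l)⟩⟩
    · refine Fin.cases ?_ (fun k => ?_) i
      · refine Fin.cases ?_ (fun j => ?_) j
        · rw [h0, h1, v0, v1]
          exact ⟨fun h => by omega, fun h => absurd h.symm hnadj⟩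
        · refine Fin.cases ?_ (fun l => ?_) j
          · exact ⟨fun h => absurd rfl h.1, fun h => absurd rfl h.ne⟩
          · rw [h1, h2]
            refine ⟨fun _ => (hQ _ (he2 l)).2, fun _ => ⟨?_, Or.inr (v2 l)⟩⟩
            intro h
            exact (Fin.succ_ne_zero l) (Fin.succ_injective _ h).symm
      · refine Fin.cases ?_ (fun j => ?_) j
        · rw [h0, h2]
          exact ⟨fun _ => (hQ _ (he2 k)).1.symm, fun _ => ⟨Fin.succ_ne_zero _, Or.inl (v2 k)⟩⟩
        · refine Fin.cases ?_ (fun l => ?_) j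
          · rw [h1, h2]
            refine ⟨fun _ => (hQ _ (he2 k)).2.symm, fun _ => ⟨?_, Or.inl (v2 k)⟩⟩
            intro h
            exact (Fin.succ_ne_zero k) (Fin.succ_injective _ h)
          · rw [h2, h2]
            refine ⟨fun h => hee k l fun hkl => h.1 (by rw [hkl]), fun h => ⟨?_, Or.inl (v2 k)⟩⟩
            intro h'
            have h3 : k = l := Fin.succ_injective _ (Fin.succ_injective _ h')
            rw [h3] at h
            exact h.ne rfl

end Pool.Ker.N
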