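import Pool.Agent.Work.MP_2df4ce_n.Interface

/-!
# Block PT2
-/

set_option autoImplicit false

namespace Pool.Ker.N

open Classical St Alg Pool.Ker

theorem stmt_PT2 : Stmt_PT2 := by
  intro F G U S b hF hsol x hx y hy z hz hxz hxy hyz hnxz I hI hIc hIn hIx
  obtain ⟨H, hH⟩ : ∃ H : SimpleGraph ℕ, H = ed G S := ⟨_, rfl⟩
  rw [← hH] at hxy hyz hnxz hIn hIx
  have e : Fin b ≃ I := (Finset.equivFinOfCardEq hIc).symm
  have hxy' : x ≠ y := hxy.ne
  have hyz' : y ≠ z := hyz.ne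
  obtain ⟨φ, hφ⟩ : ∃ φ : Fin (b + 3) → ℕ, ∀ i : Fin (b + 3), φ i = if i.val = 0 then x else if i.val = 1 then y
      else if i.val = 2 then z else if h : i.val - 3 < b then (e ⟨i.val - 3, h⟩ : ℕ) else 0 := ⟨_, fun _ => rfl⟩
  have hcase : ∀ i : Fin (b + 3), (i.val = 0 ∧ φ i = x) ∨ (i.val = 1 ∧ φ i = y) ∨ (i.val = 2 ∧ φ i = z) ∨
      ∃ j : Fin b, i.val = j.val + 3 ∧ φ i = e j := by
    intro i
    by_cases h0 : i.val = 0
    · exact Or.inl ⟨h0, by rw [hφ, if_pos h0]⟩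
    by_cases h1 : i.val = 1
    · exact Or.inr (Or.inl ⟨h1, by rw [hφ, if_neg h0, if_pos h1]⟩)
    by_cases h2 : i.val = 2
    · exact Or.inr (Or.inr (Or.inl ⟨h2, by rw [hφ, if_neg h0, if_neg h1, if_pos h2]⟩))
    have h3 : i.val - 3 < b := by omega
    refine Or.inr (Or.inr (Or.inr ⟨⟨i.val - 3, h3⟩, by simp only; omega, ?_⟩))
    rw [hφ, if_neg h0, if_neg h1, if_neg h2, dif_pos h3]
  have hI' : ∀ j : Fin b, (e j : ℕ) ≠ x ∧ (e j : ℕ) ≠ y ∧ (e j : ℕ) ≠ z ∧ ¬ H.Adj x (e j) ∧ ¬ H.Adj y (e j) ∧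
      ¬ H.Adj z (e j) := fun j => hIx _ (e j).2
  have hinj : Function.Injective φ := by
    intro i j hij
    apply Fin.ext
    rcases hcase i with ⟨a, a'⟩ | ⟨a, a'⟩ | ⟨a, a'⟩ | ⟨p, a, a'⟩ <;>
      rcases hcase j with ⟨c, c'⟩ | ⟨c, c'⟩ | ⟨c, c'⟩ | ⟨q, c, c'⟩ <;>
      rw [a', c'] at hij
    · omega
    · exact absurd hij hxy'
    · exact absurd hij hxz
    · exact absurd hij.symm (hI' q).1
    · exact absurd hij.symm hxy'
    · omega
    · exact absurd hij hyz'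
    · exact absurd hij.symm (hI' q).2.1
    · exact absurd hij.symm hxz
    · exact absurd hij.symm hyz'
    · omega
    · exact absurd hij.symm (hI' q).2.2.1
    · exact absurd hij (hI' p).1
    · exact absurd hij (hI' p).2.1
    · exact absurd hij (hI' p).2.2.1
    · have h1 : p = q := e.injective (Subtype.ext hij)
      rw [a, c, h1]
  have hadj : ∀ i j, (PathPlus b).Adj i j ↔ H.Adj (φ i) (φ j) := by
    intro i j
    have hp : (PathPlus b).Adj i j ↔ i ≠ j ∧ (((i.val = 0 ∧ j.val = 1) ∨ (i.val = 1 ∧ j.val = 2)) ∨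
        ((j.val = 0 ∧ i.val = 1) ∨ (j.val = 1 ∧ i.val = 2))) := by
      unfold PathPlus
      rw [SimpleGraph.fromRel_adj]
    rw [hp]
    have hne : i ≠ j ↔ i.val ≠ j.val := by
      rw [Ne, Ne, Fin.ext_iff]
    rw [hne]
    rcases hcase i with ⟨a, a'⟩ | ⟨a, a'⟩ | ⟨a, a'⟩ | ⟨p, a, a'⟩ <;>
      rcases hcase j with ⟨c, c'⟩ | ⟨c, c'⟩ | ⟨c, c'⟩ | ⟨q, c, c'⟩ <;>
      rw [a', c', a, c]
    · simp
    · simpa using hxy
    · simpa using hnxz
    · simpa using (hI' q).2.2.2.1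
    · simpa using hxy.symm
    · simp
    · simpa using hyz
    · simpa using (hI' q).2.2.2.2.1
    · have := fun h : H.Adj z x => hnxz h.symm
      simpa using this
    · simpa using hyz.symm
    · simp
    · simpa using (hI' q).2.2.2.2.2
    · have := fun h : H.Adj (e p) x => (hI' p).2.2.2.1 h.symm
      simpa using this
    · have := fun h : H.Adj (e p) y => (hI' p).2.2.2.2.1 h.symm
      simpa using this
    · have := fun h : H.Adj (e p) z => (hI' p).2.2.2.2.2 h.symm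
      simpa using this
    · have h2 : ¬ H.Adj (e p) (e q) := by
        by_cases hpq : (e p : ℕ) = e q
        · rw [hpq]
          exact H.loopless.irrefl _
        · exact hIn _ (e p).2 _ (e q).2 hpq
      constructor
      · rintro ⟨_, h⟩
        omega
      · intro h
        exact absurd h h2
  refine hsol (Finset.univ.image φ) ?_ ⟨⟨b + 3, PathPlus b⟩, hF, φ, hinj, ?_, rfl⟩
  · intro w hw
    obtain ⟨i, -, rfl⟩ := Finset.mem_image.1 hw
    rcases hcase i with ⟨a, a'⟩ | ⟨a, a'⟩ | ⟨a, a'⟩ | ⟨p, a, a'⟩ <;> rw [a']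
    · exact hx
    · exact hy
    · exact hz
    · exact hI (e p).2
  · rw [← hH]
    exact hadj

end Pool.Ker.N
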