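import Pool.Agent.Work.MP_2df4ce_n.Interface

/-!
# PT3
-/

set_option autoImplicit false

namespace Pool.Ker.N

open Classical St Alg Pool.Ker

theorem PT3_adj (m : ℕ) (i j a b : Fin m) :
    (cliqG m).2.Adj (finProdFinEquiv (i, a)) (finProdFinEquiv (j, b)) ↔
      ((i, a) ≠ (j, b) ∧ i = j) := by
  unfold cliqG
  show (cliques m).Adj (finProdFinEquiv.symm (finProdFinEquiv (i, a)))
    (finProdFinEquiv.symm (finProdFinEquiv (j, b))) ↔ _
  rw [Equiv.symm_apply_apply, Equiv.symm_apply_apply]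
  unfold cliques
  rw [SimpleGraph.fromRel_adj]
  constructor
  · rintro ⟨h1, h2 | h2⟩
    · exact ⟨h1, h2⟩
    · exact ⟨h1, h2.symm⟩
  · rintro ⟨h1, h2⟩
    exact ⟨h1, Or.inl h2⟩

theorem stmt_PT3 : Stmt_PT3 := by
  intro F G U S m hS hn O hO hOb
  obtain ⟨H, hH, φ, hφ, hadj, himg⟩ := hOb
  rcases hH with rfl | hH
  · apply hn
    have hinj : ∀ i j a b : Fin m, φ (finProdFinEquiv (i, a)) = φ (finProdFinEquiv (j, b)) →
        (i, a) = (j, b) := fun i j a b h => finProdFinEquiv.injective (hφ h)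
    have hin : ∀ x, φ x ∈ O := by
      intro x
      rw [← himg]
      exact Finset.mem_image_of_mem _ (Finset.mem_univ _)
    refine ⟨fun i => Finset.univ.image fun a : Fin m => φ (finProdFinEquiv (i, a)), ?_, ?_, ?_, ?_⟩
    · intro i x hx
      obtain ⟨a, -, rfl⟩ := Finset.mem_image.1 hx
      exact hO (hin _)
    · intro i
      rw [Finset.card_image_of_injective, Finset.card_univ, Fintype.card_fin]
      intro a b hab
      exact (Prod.mk.inj (hinj i i a b hab)).2
    · intro i x hx y hy hxy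
      obtain ⟨a, -, rfl⟩ := Finset.mem_image.1 hx
      obtain ⟨b, -, rfl⟩ := Finset.mem_image.1 hy
      rw [← hadj, PT3_adj]
      refine ⟨fun h => hxy ?_, rfl⟩
      show φ (finProdFinEquiv (i, a)) = φ (finProdFinEquiv (i, b))
      rw [h]
    · intro i j hij x hx y hy
      obtain ⟨a, -, rfl⟩ := Finset.mem_image.1 hx
      obtain ⟨b, -, rfl⟩ := Finset.mem_image.1 hy
      refine ⟨fun h => hij (Prod.mk.inj (hinj i j a b h)).1, ?_⟩
      rw [← hadj, PT3_adj]
      exact fun h => hij h.2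
  · exact hS O hO ⟨H, hH, φ, hφ, hadj, himg⟩

end Pool.Ker.N
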