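import Pool.Agent.Work.MP_2df4ce_n.Interface

/-!
# Block RD1
-/

set_option autoImplicit false

namespace Pool.Ker.N

open Classical St Alg Pool.Ker

theorem stmt_RD1 (hSTA : Stmt_STA) (hSTB : Stmt_STB) : Stmt_RD1 := by
  intro G U s t k Ob hOb ht
  constructor
  · rintro ⟨S, hS, hsol⟩
    exact ⟨S, hS, fun O hO => hsol O (hO.trans (Finset.filter_subset _ _))⟩
  · rintro ⟨S, hS, hsol⟩
    obtain ⟨S', hS'⟩ : ∃ S' : Finset (Sym2 ℕ), S' = S.filter (fun e => ∀ x ∈ e, x ∈ Kp G U t) := ⟨_, rfl⟩
    have hc : S'.card ≤ k := by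
      rw [hS']
      exact (Finset.card_filter_le _ _).trans hS
    have hin : ∀ e ∈ S', ∀ x ∈ e, x ∈ Kp G U t := by
      intro e he
      rw [hS', Finset.mem_filter] at he
      exact he.2
    have hsol' : ∀ O ⊆ Kp G U t, ¬ Ob (ed G S') O := by
      intro O hO h
      apply hsol O hO
      have h1 := hOb.map (ed G S') (ed G S) O id h (Set.injOn_id _) (by
        intro x hx y hy
        have h2 : s(x, y) ∈ S' ↔ s(x, y) ∈ S := by
          rw [hS', Finset.mem_filter]
          constructor
          · exact fun h => h.1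
          · intro h
            refine ⟨h, ?_⟩
            intro z hz
            rcases Sym2.mem_iff.1 hz with rfl | rfl
            · exact hO hx
            · exact hO hy
        change (x ≠ y ∧ ¬ (G.Adj x y ↔ s(x, y) ∈ S')) ↔ (x ≠ y ∧ ¬ (G.Adj x y ↔ s(x, y) ∈ S))
        rw [h2])
      rwa [Finset.image_id] at h1
    refine ⟨S', hc, ?_⟩
    have key : ∀ n : ℕ, ∀ O ⊆ U, (O.filter fun x => x ∉ Kp G U t).card = n → ¬ Ob (ed G S') O := by
      intro n
      induction n using Nat.strong_induction_on with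
      | _ n ih =>
        intro O hO hn hO'
        by_cases h1 : ∃ x ∈ O, t ≤ crk G U t x
        · obtain ⟨O', h2, h3, h4⟩ := hSTA G U s t k Ob hOb ht S' hc hin O hO hO' h1
          exact ih _ (by rw [← hn]; exact h4) O' h2 rfl h3
        by_cases h2 : ∃ x ∈ O, crk G U t x < t ∧ t ≤ rk G U x
        · obtain ⟨O', h2, h3, h4⟩ := hSTB G U s t k Ob hOb ht S' hc hin O hO hO' h2
          exact ih _ (by rw [← hn]; exact h4) O' h2 rfl h3
        apply hsol' O _ hO'
        intro x hx
        have h3 : crk G U t x < t := by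
          by_contra h3
          exact h1 ⟨x, hx, not_lt.1 h3⟩
        have h4 : rk G U x < t := by
          by_contra h4
          exact h2 ⟨x, hx, h3, not_lt.1 h4⟩
        exact Finset.mem_filter.2 ⟨hO hx, h4, h3⟩
    exact fun O hO => key _ O hO rfl

end Pool.Ker.N
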