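import Pool.Agent.Work.MP_2df4ce_n.Interface

/-!
# Block RDI: the reduced instance (helper45)
-/

set_option autoImplicit false

namespace Pool.Ker.N

open Classical St Alg Pool.Ker

theorem stmt_RDI (hRD1 : Stmt_RD1) (hEQB : Stmt_EQB) (hBIG : Stmt_BIG) (hIOB : Stmt_IOB)
    (hTRF : Stmt_TRF) (hSBB : Stmt_SBB) : Stmt_RDI := by
  intro F s p b hB hp hb I
  obtain ⟨t, ht⟩ : ∃ t, t = 2 * I.2.2 + s + 1 := ⟨_, rfl⟩
  obtain ⟨K, hK⟩ : ∃ K, K = kpB I.2.1 I.1 t := ⟨_, rfl⟩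
  have hr : redI s I = sub I.2.1 I.2.2 K := by
    unfold redI
    rw [hK, ht]
  obtain ⟨e1, e2, e3⟩ := hEQB I.2.1 I.1 t
  rw [← hK] at e1 e2 e3
  obtain ⟨s1, s2, s3, s4⟩ := hSBB I.2.1 I.2.2 K e2
  have hid : St.Yes F I ↔ Ker.Yes (OF F) (gr I.2.1) (Finset.range I.1) I.2.2 := by
    have h := hTRF F I.2.1 I id (fun i j _ _ h => h) (fun i j _ _ => rfl)
    rw [Finset.image_id] at h
    exact h
  have hsub : ∀ F'' : Set Gr, (St.Yes F'' (sub I.2.1 I.2.2 K) ↔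
      Ker.Yes (OF F'') (gr I.2.1) (Kp (gr I.2.1) (Finset.range I.1) t) I.2.2) := by
    intro F''
    have h2 := hTRF F'' I.2.1 (sub I.2.1 I.2.2 K) (fun i => K.getD i 0) s2 s1
    have h3 : (Finset.range (sub I.2.1 I.2.2 K).1).image (fun i => K.getD i 0) =
        K.toFinset := s3
    rw [h3, e1] at h2
    exact h2
  have hrd := hRD1 (gr I.2.1) (Finset.range I.1) s t I.2.2 (OF F) (hIOB F s hB) (by omega)
  rw [hr]
  refine ⟨?_, rfl, s4, ?_⟩
  · rw [hsub F, hid]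
    exact hrd.symm
  · intro hlt hy
    rw [← ht] at hlt
    have hlt' : pb p b t I.2.2 < K.length := hlt
    have hc : (Kp (gr I.2.1) (Finset.range I.1) t).card = K.length := by
      rw [← e1, List.toFinset_card_of_nodup e2]
    rw [hsub F] at hy
    have h4 := hBIG F (gr I.2.1) (Finset.range I.1) p b t I.2.2 hp hb (by rw [hc]; exact hlt')
      (hrd.2 hy)
    rw [hsub]
    obtain ⟨S, h5, h6⟩ := h4
    exact ⟨S, h5, fun O hO => h6 O (hO.trans (Finset.filter_subset _ _))⟩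

end Pool.Ker.N
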