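import Pool.Agent.Work.MP_2df4ce_n.Interface

/-! # MP_2df4ce_lc, NearClusterKernels: block RKC -/

set_option autoImplicit false

namespace Pool.Ker.N

open Classical St Alg Pool.Ker

theorem stmt_RKC (hTWQ : Stmt_TWQ) (hSEG : Stmt_SEG) : Stmt_RKC := by
  intro G U t v hv
  obtain ⟨-, hsymm, htrans, -, -, -⟩ := hTWQ G U
  rw [← hSEG (cls G U v) t]
  congr 1
  refine Finset.filter_congr fun w hw => ?_
  obtain ⟨hwU, hvw⟩ := Finset.mem_filter.1 hw
  have h : (U.filter fun x => x < w ∧ Tw G U w x) = (cls G U v).filter fun x => x < w := by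
    ext x
    simp only [cls, Finset.mem_filter]
    constructor
    · rintro ⟨hx, hxw, hwx⟩
      exact ⟨⟨hx, htrans v w x hv hwU hx hvw hwx⟩, hxw⟩
    · rintro ⟨⟨hx, hvx⟩, hxw⟩
      exact ⟨hx, hxw, htrans w v x hwU hv hx (hsymm v w hvw) hvx⟩
  rw [rk, h]

end Pool.Ker.N

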