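import Pool.Agent.Work.MP_2df4ce_n.Interface

/-! # MP_2df4ce_lc, NearClusterKernels: block SEG -/

set_option autoImplicit false

namespace Pool.Ker.N

open Classical St Alg Pool.Ker

theorem stmt_SEG : Stmt_SEG := by
  intro W t
  induction W using Finset.induction_on_max with
  | empty => simp
  | insert a s ha ih =>
    have hna : a ∉ s := fun h => lt_irrefl _ (ha a h)
    have h1 : ∀ w ∈ s, ((insert a s).filter fun x => x < w) = s.filter fun x => x < w := by
      intro w hw
      rw [Finset.filter_insert, if_neg (not_lt.2 (ha w hw).le)]
    have h2 : ((insert a s).filter fun x => x < a) = s := by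
      rw [Finset.filter_insert, if_neg (lt_irrefl a)]
      exact Finset.filter_true_of_mem ha
    rw [Finset.filter_insert, h2]
    have h3 : (s.filter fun w => (((insert a s).filter fun x => x < w).card < t)) =
        s.filter fun w => ((s.filter fun x => x < w).card < t) := by
      refine Finset.filter_congr fun w hw => ?_
      rw [h1 w hw]
    rw [h3, Finset.card_insert_of_notMem hna]
    split_ifs with h
    · rw [Finset.card_insert_of_notMem (fun hc => hna (Finset.mem_filter.1 hc).1), ih]
      omega
    · rw [ih]
      omega

end Pool.Ker.N

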