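import Pool.Agent.Work.MP_2df4ce_n.Interface

/-! MP_2df4ce_lc, NearClusterKernels: block STA. -/

set_option autoImplicit false

namespace Pool.Ker.N

open Classical St Alg Pool.Ker

/-- The number of vertices outside of `K` decreases. -/
theorem STA_cnt (O T K : Finset ℕ) (f : ℕ → ℕ) (hT : T ⊆ O) (hn : T.Nonempty)
    (hK : ∀ v ∈ T, v ∉ K) (h1 : ∀ v ∈ O, v ∉ T → f v = v) (h2 : ∀ v ∈ T, f v ∈ K) :
    ((O.image f).filter fun x => x ∉ K).card < (O.filter fun x => x ∉ K).card := by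
  refine Finset.card_lt_card ?_
  rw [Finset.ssubset_iff_subset_ne]
  have hsub : ((O.image f).filter fun x => x ∉ K) ⊆ (O.filter fun x => x ∉ K) \ T := by
    intro y hy
    simp only [Finset.mem_filter, Finset.mem_image] at hy
    obtain ⟨⟨v, hv, rfl⟩, hy⟩ := hy
    have hvT : v ∉ T := fun h => hy (h2 v h)
    rw [h1 v hv hvT] at hy ⊢
    simp only [Finset.mem_sdiff, Finset.mem_filter]
    exact ⟨⟨hv, hy⟩, hvT⟩
  refine ⟨hsub.trans Finset.sdiff_subset, fun h => ?_⟩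
  obtain ⟨x, hx⟩ := hn
  have : x ∈ (O.image f).filter fun x => x ∉ K := by
    rw [h]
    exact Finset.mem_filter.2 ⟨hT hx, hK x hx⟩
  exact (Finset.mem_sdiff.1 (hsub this)).2 hx

theorem stmt_STA (hTWQ : Stmt_TWQ) (hCLQ : Stmt_CLQ) (hRKC : Stmt_RKC) (hCCC : Stmt_CCC)
    (hKCL : Stmt_KCL) (hTCH : Stmt_TCH) : Stmt_STA := by
  intro G U s t k Ob hOb ht S hS hSK O hO hObO ⟨x, hxO, hx⟩
  obtain ⟨tr, ts, tt, ta, tadj, tc⟩ := hTWQ G U
  obtain ⟨cs, cc, -⟩ := hCLQ G U t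
  have hxU : x ∈ U := hO hxO
  obtain ⟨R, hRU, hRc, hR, hRd⟩ := hKCL G U t x hxU hx
  have hOs : O.card ≤ s := hOb.card _ _ hObO
  have htch : (tch U S).card ≤ 2 * k := ((hTCH G U S).1).trans (by omega)
  have hed : ∀ u ∈ U, u ∉ tch U S → ∀ y, ((ed G S).Adj u y ↔ G.Adj u y) := (hTCH G U S).2
  have hKU : ∀ v ∈ Kp G U t, v ∈ U := fun v hv => (Finset.mem_filter.1 hv).1
  have hKm : ∀ v, v ∈ Kp G U t ↔ v ∈ U ∧ rk G U v < t ∧ crk G U t v < t := fun v => by
    simp [Kp]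
  have htK : ∀ v ∈ tch U S, v ∈ Kp G U t := by
    intro v hv
    obtain ⟨_, e, he, hve⟩ := Finset.mem_filter.1 hv
    exact hSK e he v hve
  -- a class in the family which is free
  have hex : ∃ w ∈ R, ∀ v ∈ cls G U w, v ∉ tch U S ∧ v ∉ O := by
    by_contra hcon
    push Not at hcon
    have hcon' : ∀ w ∈ R, ∃ v ∈ tch U S ∪ O, v ∈ U ∧ Tw G U w v := by
      intro w hw
      obtain ⟨v, hv, hv'⟩ := hcon w hw
      have hv2 := Finset.mem_filter.1 hv
      refine ⟨v, ?_, hv2.1, hv2.2⟩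
      rw [Finset.mem_union]
      by_cases h : v ∈ tch U S
      · exact Or.inl h
      · exact Or.inr (hv' h)
    choose! g hg using hcon'
    have hinj : Set.InjOn g (R : Set ℕ) := by
      intro w hw w' hw' he
      by_contra hne
      refine hRd w hw w' hw' hne ?_
      have h1 := (hg w hw).2.2
      have h2 := (hg w' hw').2.2
      rw [← he] at h2
      exact tt w (g w) w' (hRU hw) (hg w hw).2.1 (hRU hw') h1 (ts _ _ h2)
    have := Finset.card_le_card_of_injOn g (fun w hw => (hg w hw).1) hinj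
    have h3 := Finset.card_union_le (tch U S) O
    omega
  obtain ⟨w, hwR, hw⟩ := hex
  have hwU : w ∈ U := hRU hwR
  obtain ⟨hCl, hcw⟩ := hR w hwR
  set T : Finset ℕ := O.filter fun v => Tw G U x v with hT
  set A : Finset ℕ := (cls G U w).filter fun v => rk G U v < t with hA
  have hTO : T ⊆ O := Finset.filter_subset _ _
  have hTcls : T ⊆ cls G U x := by
    intro v hv
    obtain ⟨h1, h2⟩ := Finset.mem_filter.1 hv
    exact Finset.mem_filter.2 ⟨hO h1, h2⟩
  have hTA : T.card ≤ A.card := by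
    have h1 : A.card = min (cls G U w).card t := hRKC G U t w hwU
    have h2 : T.card ≤ (cls G U x).card := Finset.card_le_card hTcls
    have h3 : T.card ≤ O.card := Finset.card_le_card hTO
    have h4 := hCl.2.2.2
    rw [h1]
    omega
  obtain ⟨g, hgm, hgi⟩ : ∃ g : ℕ → ℕ, (∀ v ∈ T, g v ∈ A) ∧ Set.InjOn g (T : Set ℕ) := by
    obtain ⟨A', hA', hcard⟩ := Finset.exists_subset_card_eq hTA
    have e := Finset.equivOfCardEq hcard.symm
    refine ⟨fun v => if h : v ∈ T then (e ⟨v, h⟩ : ℕ) else v, ?_, ?_⟩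
    · intro v hv
      simp only [hv, dite_true]
      exact hA' (e ⟨v, hv⟩).2
    · intro v hv v' hv' he
      have hv1 : v ∈ T := hv
      have hv1' : v' ∈ T := hv'
      simp only [hv1, hv1', dite_true] at he
      have := e.injective (Subtype.ext he)
      exact congrArg Subtype.val this
  have hAw : ∀ v ∈ A, v ∈ U ∧ Tw G U w v ∧ rk G U v < t := by
    intro v hv
    obtain ⟨h1, h2⟩ := Finset.mem_filter.1 hv
    obtain ⟨h3, h4⟩ := Finset.mem_filter.1 h1
    exact ⟨h3, h4, h2⟩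
  have hAfree : ∀ v ∈ A, v ∉ tch U S ∧ v ∉ O := fun v hv => hw v (Finset.mem_filter.1 hv).1
  have hAK : ∀ v ∈ A, v ∈ Kp G U t := by
    intro v hv
    obtain ⟨h1, h2, h3⟩ := hAw v hv
    rw [hKm]
    exact ⟨h1, h3, by rw [← hCCC G U t w v hwU h1 h2]; exact hcw⟩
  have hTx : ∀ v ∈ T, v ∈ U ∧ v ∈ O ∧ Tw G U x v := by
    intro v hv
    obtain ⟨h1, h2⟩ := Finset.mem_filter.1 hv
    exact ⟨hO h1, h1, h2⟩
  have hTK : ∀ v ∈ T, v ∉ Kp G U t := by
    intro v hv hk
    obtain ⟨h1, _, h3⟩ := hTx v hv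
    have := ((hKm v).1 hk).2.2
    rw [← hCCC G U t x v hxU h1 h3] at this
    omega
  set f : ℕ → ℕ := fun v => if v ∈ T then g v else v with hf
  have hfT : ∀ v ∈ T, f v = g v := fun v hv => by simp only [hf, hv, if_true]
  have hfn : ∀ v, v ∉ T → f v = v := fun v hv => by simp only [hf, hv, if_false]
  have hfinj : Set.InjOn f (O : Set ℕ) := by
    intro u hu v hv he
    by_cases h1 : u ∈ T <;> by_cases h2 : v ∈ T
    · rw [hfT u h1, hfT v h2] at he
      exact hgi h1 h2 he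
    · rw [hfT u h1, hfn v h2] at he
      exact absurd (he ▸ hv : g u ∈ O) (hAfree _ (hgm u h1)).2
    · rw [hfn u h1, hfT v h2] at he
      exact absurd (he ▸ hu : g v ∈ O) (hAfree _ (hgm v h2)).2
    · rw [hfn u h1, hfn v h2] at he
      exact he
  have hmix : ∀ u ∈ T, ∀ v ∈ O, v ∉ T → ((ed G S).Adj u v ↔ (ed G S).Adj (g u) v) := by
    intro u hu v hv hvT
    obtain ⟨hu1, _, hu3⟩ := hTx u hu
    obtain ⟨ha1, ha2, _⟩ := hAw _ (hgm u hu)
    rw [hed u hu1 (fun h => hTK u hu (htK u h)), hed (g u) ha1 (hAfree _ (hgm u hu)).1]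
    have hcl : Cl G U t u (g u) := cc x u w (g u) hxU hu1 hwU ha1 hu3 ha2 hCl
    refine hcl.2.2.1 v (hO hv) (fun h => hvT ?_) (fun h => ?_)
    · exact Finset.mem_filter.2 ⟨hv, tt x u v hxU hu1 (hO hv) hu3 h⟩
    · have : v ∈ cls G U w := Finset.mem_filter.2 ⟨hO hv, tt w (g u) v hwU ha1 (hO hv) ha2 h⟩
      exact (hw v this).2 hv
  have hadj : ∀ u ∈ O, ∀ v ∈ O, ((ed G S).Adj u v ↔ (ed G S).Adj (f u) (f v)) := by
    intro u hu v hv
    by_cases h1 : u ∈ T <;> by_cases h2 : v ∈ T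
    · rw [hfT u h1, hfT v h2]
      by_cases huv : u = v
      · subst huv
        simp
      · obtain ⟨hu1, _, hu3⟩ := hTx u h1
        obtain ⟨hv1, _, hv3⟩ := hTx v h2
        obtain ⟨ha1, ha2, _⟩ := hAw _ (hgm u h1)
        obtain ⟨hb1, hb2, _⟩ := hAw _ (hgm v h2)
        rw [hed u hu1 (fun h => hTK u h1 (htK u h)), hed (g u) ha1 (hAfree _ (hgm u h1)).1]
        have e1 : G.Adj u v := tadj u v (tt u x v hu1 hxU hv1 (ts _ _ hu3) hv3) huv
        have e2 : G.Adj (g u) (g v) := tadj _ _ (tt _ w _ ha1 hwU hb1 (ts _ _ ha2) hb2)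
          (fun h => huv (hgi h1 h2 h))
        exact ⟨fun _ => e2, fun _ => e1⟩
    · rw [hfT u h1, hfn v h2]
      exact hmix u h1 v hv h2
    · rw [hfn u h1, hfT v h2, (ed G S).adj_comm u v, (ed G S).adj_comm u (g v)]
      exact hmix v h2 u hu h1
    · rw [hfn u h1, hfn v h2]
  refine ⟨O.image f, ?_, hOb.map _ _ O f hObO hfinj hadj, ?_⟩
  · intro y hy
    obtain ⟨v, hv, rfl⟩ := Finset.mem_image.1 hy
    by_cases h : v ∈ T
    · rw [hfT v h]
      exact (hAw _ (hgm v h)).1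
    · rw [hfn v h]
      exact hO hv
  · refine STA_cnt O T (Kp G U t) f hTO ⟨x, Finset.mem_filter.2 ⟨hxO, tr x⟩⟩ hTK
      (fun v _ h => hfn v h) (fun v hv => ?_)
    rw [hfT v hv]
    exact hAK _ (hgm v hv)

end Pool.Ker.N
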