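import Pool.Agent.Work.MP_2df4ce_n.Interface

/-! MP_2df4ce_lc, NearClusterKernels: block STB. -/

set_option autoImplicit false

namespace Pool.Ker.N

open Classical St Alg Pool.Ker

theorem stmt_STB (hTWQ : Stmt_TWQ) (hRKC : Stmt_RKC) (hCCC : Stmt_CCC) (hTCH : Stmt_TCH) :
    Stmt_STB := by
  intro G U s t k Ob hOb ht S hS hSK O hO hObO ⟨x, hxO, hx, hxr⟩
  obtain ⟨tr, ts, tt, ta, tadj, tc⟩ := hTWQ G U
  have hxU : x ∈ U := hO hxO
  have hOs : O.card ≤ s := hOb.card _ _ hObO
  have htch : (tch U S).card ≤ 2 * k := ((hTCH G U S).1).trans (by omega)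
  have hed : ∀ u ∈ U, u ∉ tch U S → ∀ y, ((ed G S).Adj u y ↔ G.Adj u y) := (hTCH G U S).2
  have hKm : ∀ v, v ∈ Kp G U t ↔ v ∈ U ∧ rk G U v < t ∧ crk G U t v < t := fun v => by
    simp [Kp]
  have htK : ∀ v ∈ tch U S, v ∈ Kp G U t := by
    intro v hv
    obtain ⟨_, e, he, hve⟩ := Finset.mem_filter.1 hv
    exact hSK e he v hve
  have hxK : x ∉ Kp G U t := fun h => by
    have := ((hKm x).1 h).2.1
    omega
  set A : Finset ℕ := (cls G U x).filter fun v => rk G U v < t with hA
  have hAc : t ≤ A.card := by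
    have h1 : A.card = min (cls G U x).card t := hRKC G U t x hxU
    have h2 : rk G U x ≤ (cls G U x).card := by
      refine Finset.card_le_card fun v hv => ?_
      obtain ⟨h3, h4⟩ := Finset.mem_filter.1 hv
      exact Finset.mem_filter.2 ⟨h3, h4.2⟩
    rw [h1]
    omega
  obtain ⟨y, hyA, hy⟩ : ∃ y ∈ A, y ∉ tch U S ∪ O := by
    by_contra hcon
    push Not at hcon
    have h1 := Finset.card_le_card (show A ⊆ tch U S ∪ O from hcon)
    have h2 := Finset.card_union_le (tch U S) O
    omega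
  obtain ⟨hyc, hyr⟩ := Finset.mem_filter.1 hyA
  obtain ⟨hyU, hyT⟩ := Finset.mem_filter.1 hyc
  have hyt : y ∉ tch U S := fun h => hy (Finset.mem_union_left _ h)
  have hyO : y ∉ O := fun h => hy (Finset.mem_union_right _ h)
  have hyK : y ∈ Kp G U t := by
    rw [hKm]
    exact ⟨hyU, hyr, by rw [← hCCC G U t x y hxU hyU hyT]; exact hx⟩
  have hxt : x ∉ tch U S := fun h => hxK (htK x h)
  set f : ℕ → ℕ := fun v => if v = x then y else v with hf
  have hfx : f x = y := by simp [hf]
  have hfn : ∀ v, v ≠ x → f v = v := fun v hv => by simp only [hf, hv, if_false]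
  have hmix : ∀ v ∈ O, v ≠ x → ((ed G S).Adj x v ↔ (ed G S).Adj y v) := by
    intro v hv hvx
    rw [hed x hxU hxt, hed y hyU hyt]
    exact ta x y v hyT (hO hv) hvx (fun h => hyO (h ▸ hv))
  refine ⟨O.image f, ?_, hOb.map _ _ O f hObO ?_ ?_, ?_⟩
  · intro z hz
    obtain ⟨v, hv, rfl⟩ := Finset.mem_image.1 hz
    by_cases h : v = x
    · rw [h, hfx]; exact hyU
    · rw [hfn v h]; exact hO hv
  · intro u hu v hv he
    by_cases h1 : u = x <;> by_cases h2 : v = x
    · rw [h1, h2]
    · rw [h1, hfx, hfn v h2] at he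
      exact absurd (he ▸ hv : y ∈ O) hyO
    · rw [h2, hfx, hfn u h1] at he
      exact absurd (he ▸ hu : y ∈ O) hyO
    · rw [hfn u h1, hfn v h2] at he
      exact he
  · intro u hu v hv
    by_cases h1 : u = x <;> by_cases h2 : v = x
    · rw [h1, h2]
      simp
    · rw [h1, hfx, hfn v h2]
      exact hmix v hv h2
    · rw [h2, hfx, hfn u h1, (ed G S).adj_comm u x, (ed G S).adj_comm u y]
      exact hmix u hu h1
    · rw [hfn u h1, hfn v h2]
  · refine Finset.card_lt_card ?_
    rw [Finset.ssubset_iff_subset_ne]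
    have hsub : ((O.image f).filter fun z => z ∉ Kp G U t) ⊆
        (O.filter fun z => z ∉ Kp G U t) \ {x} := by
      intro z hz
      simp only [Finset.mem_filter, Finset.mem_image] at hz
      obtain ⟨⟨v, hv, rfl⟩, hz⟩ := hz
      have hvx : v ≠ x := fun h => hz (by rw [h, hfx]; exact hyK)
      rw [hfn v hvx] at hz ⊢
      simp only [Finset.mem_sdiff, Finset.mem_filter, Finset.mem_singleton]
      exact ⟨⟨hv, hz⟩, hvx⟩
    refine ⟨hsub.trans Finset.sdiff_subset, fun h => ?_⟩
    have : x ∈ (O.image f).filter fun z => z ∉ Kp G U t := by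
      rw [h]
      exact Finset.mem_filter.2 ⟨hxO, hxK⟩
    exact (Finset.mem_sdiff.1 (hsub this)).2 (Finset.mem_singleton_self x)

end Pool.Ker.N
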