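import Pool.Agent.Work.MP_2df4ce_n.Interface

/-!
# MP_2df4ce_lc, block TCH: the touched vertices
-/

set_option autoImplicit false

namespace Pool.Ker.N

open Classical St Alg Pool.Ker

theorem stmt_TCH : Stmt_TCH := by
  intro G U S
  constructor
  · have h1 : tch U S ⊆ S.biUnion fun e => e.toFinset := by
      intro x hx
      rw [tch, Finset.mem_filter] at hx
      obtain ⟨e, he, hxe⟩ := hx.2
      rw [Finset.mem_biUnion]
      exact ⟨e, he, Sym2.mem_toFinset.2 hxe⟩
    have h2 : (S.biUnion fun e => e.toFinset).card ≤ S.card * 2 := by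
      apply Finset.card_biUnion_le_card_mul
      intro e _
      rw [Sym2.card_toFinset]
      split_ifs <;> omega
    have h3 := Finset.card_le_card h1
    omega
  · intro x hx hxt y
    have hn : s(x, y) ∉ S := by
      intro h
      apply hxt
      rw [tch, Finset.mem_filter]
      exact ⟨hx, s(x, y), h, Sym2.mem_mk_left x y⟩
    constructor
    · intro h
      by_contra hc
      exact h.2 ⟨fun h' => absurd h' hc, fun h' => absurd h' hn⟩
    · intro h
      exact ⟨h.ne, fun h' => hn (h'.1 h)⟩

end Pool.Ker.N
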