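import Pool.Agent.Work.MP_2df4ce_n.Interface

/-!
# Block TWQ: twins
-/

set_option autoImplicit false

namespace Pool.Ker.N

open Classical St Alg Pool.Ker

theorem TWQ.symm {G : SimpleGraph ℕ} {U : Finset ℕ} {u v : ℕ} (h : Tw G U u v) : Tw G U v u := by
  rcases h with h | ⟨h1, h2⟩
  · exact Or.inl h.symm
  · exact Or.inr ⟨h1.symm, fun w hw hv hu => (h2 w hw hu hv).symm⟩

theorem TWQ.trans {G : SimpleGraph ℕ} {U : Finset ℕ} {u v w : ℕ} (hv : v ∈ U)
    (hw : w ∈ U) (h : Tw G U u v) (h' : Tw G U v w) : Tw G U u w := by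
  by_cases huw : u = w
  · exact Or.inl huw
  rcases h with rfl | ⟨a1, a2⟩
  · exact h'
  rcases h' with rfl | ⟨b1, b2⟩
  · exact Or.inr ⟨a1, a2⟩
  refine Or.inr ⟨(a2 w hw (Ne.symm huw) b1.ne').2 b1, ?_⟩
  intro z hz hzu hzw
  by_cases hzv : z = v
  · subst hzv
    exact ⟨fun _ => b1.symm, fun _ => a1⟩
  · exact (a2 z hz hzu hzv).trans (b2 z hz hzv hzw)

theorem stmt_TWQ : Stmt_TWQ := by
  intro G U
  refine ⟨fun v => Or.inl rfl, fun u v h => TWQ.symm h,
    fun u v w _ hv hw h h' => TWQ.trans hv hw h h', ?_, ?_, ?_⟩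
  · intro u v z h hz hzu hzv
    rcases h with rfl | ⟨_, h2⟩
    · exact Iff.rfl
    · exact h2 z hz hzu hzv
  · intro u v h hne
    rcases h with h | ⟨h1, _⟩
    · exact absurd h hne
    · exact h1
  · intro u v hu hv h
    ext w
    unfold cls
    rw [Finset.mem_filter, Finset.mem_filter]
    constructor
    · rintro ⟨hw, h1⟩
      exact ⟨hw, TWQ.trans hu hw (TWQ.symm h) h1⟩
    · rintro ⟨hw, h1⟩
      exact ⟨hw, TWQ.trans hv hw h h1⟩

end Pool.Ker.N
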