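import Pool.Agent.Work.MP_2df4ce_n.Interface

set_option autoImplicit false

namespace Pool.Ker.N

open Classical St Alg Pool.Ker

/-- Embeddings of `K_{p+2}` minus an edge. -/
theorem UN1_mkK {p : ℕ} {V : Type} (G : SimpleGraph V) (x y : V) (q : Fin p → V) (hxy : x ≠ y)
    (hn : ¬ G.Adj x y) (hx : ∀ i, G.Adj x (q i)) (hy : ∀ i, G.Adj y (q i))
    (hq : ∀ i j, i ≠ j → G.Adj (q i) (q j)) : Nonempty (KMinus (p + 2) ↪g G) := by
  let f : Fin (p + 2) → V := Fin.cons x (Fin.cons y q)
  have f0 : f 0 = x := rfl
  have f1 : f (Fin.succ 0) = y := rfl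
  have f2 : ∀ i : Fin p, f i.succ.succ = q i := fun i => rfl
  have xq : ∀ i, x ≠ q i := fun i h => G.loopless.irrefl _ (h ▸ hx i)
  have yq : ∀ i, y ≠ q i := fun i h => G.loopless.irrefl _ (h ▸ hy i)
  have hinj : Function.Injective f := by
    intro i j
    refine Fin.cases ?_ (fun i => ?_) i
    · refine Fin.cases (fun _ => rfl) (fun j => ?_) j
      refine Fin.cases (fun h => ?_) (fun j h => ?_) j
      · exact absurd h hxy
      · exact absurd h (xq j)
    · refine Fin.cases ?_ (fun i => ?_) i
      · refine Fin.cases (fun h => ?_) (fun j => ?_) j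
        · exact absurd h.symm hxy
        · refine Fin.cases (fun _ => rfl) (fun j h => ?_) j
          exact absurd h (yq j)
      · refine Fin.cases (fun h => ?_) (fun j => ?_) j
        · exact absurd h.symm (xq i)
        · refine Fin.cases (fun h => ?_) (fun j h => ?_) j
          · exact absurd h.symm (yq i)
          · by_contra hij
            have hne : i ≠ j := fun e => hij (by rw [e])
            have h1 := hq i j hne
            have h2 : q i = q j := h
            rw [h2] at h1
            exact G.loopless.irrefl _ h1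
  have hadj : ∀ i j, G.Adj (f i) (f j) ↔ (KMinus (p + 2)).Adj i j := by
    have hK : ∀ i j : Fin (p + 2), (KMinus (p + 2)).Adj i j ↔ i ≠ j ∧ (2 ≤ i.val ∨ 2 ≤ j.val) :=
      fun i j => by rw [KMinus, SimpleGraph.fromRel_adj]
    intro i j
    rw [hK]
    refine Fin.cases ?_ (fun i => ?_) i
    · refine Fin.cases ?_ (fun j => ?_) j
      · simp
      · refine Fin.cases ?_ (fun j => ?_) j
        · rw [f0, f1]
          simp [hn]
        · rw [f0, f2]
          simp only [hx j, true_iff]
          exact ⟨(Fin.succ_ne_zero _).symm, Or.inr (by simp)⟩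
    · refine Fin.cases ?_ (fun i => ?_) i
      · refine Fin.cases ?_ (fun j => ?_) j
        · rw [f0, f1]
          have : ¬ G.Adj y x := fun h => hn h.symm
          simp [this]
        · refine Fin.cases ?_ (fun j => ?_) j
          · simp
          · rw [f1, f2]
            simp only [hy j, true_iff]
            refine ⟨fun h => ?_, Or.inr (by simp)⟩
            have := congrArg Fin.val h
            simp at this
      · refine Fin.cases ?_ (fun j => ?_) j
        · rw [f0, f2]
          simp only [(hx i).symm, true_iff]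
          exact ⟨Fin.succ_ne_zero _, Or.inl (by simp)⟩
        · refine Fin.cases ?_ (fun j => ?_) j
          · rw [f1, f2]
            simp only [(hy i).symm, true_iff]
            refine ⟨fun h => ?_, Or.inl (by simp)⟩
            have := congrArg Fin.val h
            simp at this
          · rw [f2, f2]
            constructor
            · intro h
              refine ⟨fun e => ?_, Or.inl (by simp)⟩
              have e' : i = j := by simpa using e
              rw [e'] at h
              exact G.loopless.irrefl _ h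
            · rintro ⟨h, -⟩
              exact hq i j (fun e => h (by rw [e]))
  exact ⟨⟨⟨f, hinj⟩, fun {i j} => hadj i j⟩⟩

theorem stmt_UN1 : Stmt_UN1 := by
  intro p a b hab
  refine ⟨p + 2, ?_⟩
  rcases hab with ha | hb
  · subst ha
    refine UN1_mkK (half true b (p + 2)) (Sum.inl ⟨p + 1, by omega⟩) (Sum.inr ⟨p, by omega⟩)
      (fun i => Sum.inl ⟨i.val, by omega⟩) (by simp) ?_ ?_ ?_ ?_
    · show ¬ ((⟨p + 1, by omega⟩ : Fin (p + 2)) ≤ ⟨p, by omega⟩)
      simp
    · intro i
      show (⟨p + 1, by omega⟩ : Fin (p + 2)) ≠ ⟨i.val, by omega⟩ ∧ true = true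
      refine ⟨fun h => ?_, rfl⟩
      have h1 := congrArg Fin.val h
      have h2 := i.isLt
      simp at h1
      omega
    · intro i
      show (⟨i.val, by omega⟩ : Fin (p + 2)) ≤ ⟨p, by omega⟩
      simp only [Fin.mk_le_mk]
      exact i.isLt.le
    · intro i j hij
      show (⟨i.val, by omega⟩ : Fin (p + 2)) ≠ ⟨j.val, by omega⟩ ∧ true = true
      refine ⟨fun h => hij ?_, rfl⟩
      have h1 := congrArg Fin.val h
      exact Fin.ext h1
  · subst hb
    refine UN1_mkK (half a true (p + 2)) (Sum.inl ⟨1, by omega⟩) (Sum.inr ⟨0, by omega⟩)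
      (fun i => Sum.inr ⟨i.val + 1, by omega⟩) (by simp) ?_ ?_ ?_ ?_
    · show ¬ ((⟨1, by omega⟩ : Fin (p + 2)) ≤ ⟨0, by omega⟩)
      simp
    · intro i
      show (⟨1, by omega⟩ : Fin (p + 2)) ≤ ⟨i.val + 1, by omega⟩
      simp only [Fin.mk_le_mk]
      omega
    · intro i
      show (⟨0, by omega⟩ : Fin (p + 2)) ≠ ⟨i.val + 1, by omega⟩ ∧ true = true
      refine ⟨fun h => ?_, rfl⟩
      have h1 := congrArg Fin.val h
      simp at h1
    · intro i j hij
      show (⟨i.val + 1, by omega⟩ : Fin (p + 2)) ≠ ⟨j.val + 1, by omega⟩ ∧ true = true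
      refine ⟨fun h => hij ?_, rfl⟩
      have h1 := congrArg Fin.val h
      simp only [Nat.add_right_cancel_iff] at h1
      exact Fin.ext h1

end Pool.Ker.N
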