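import Pool.Agent.Work.MP_2df4ce_n.Interface

set_option autoImplicit false

namespace Pool.Ker.N

open Classical St Alg Pool.Ker

/-- Embeddings of `P_3 + bK_1`. -/
theorem UN2_mkP {b : ℕ} {V : Type} (G : SimpleGraph V) (x y z : V) (q : Fin b → V) (hxz : x ≠ z)
    (hxy : G.Adj x y) (hyz : G.Adj y z) (hn : ¬ G.Adj x z) (hq : Function.Injective q)
    (hx : ∀ i, x ≠ q i ∧ ¬ G.Adj x (q i)) (hy : ∀ i, y ≠ q i ∧ ¬ G.Adj y (q i))
    (hz : ∀ i, z ≠ q i ∧ ¬ G.Adj z (q i)) (hqq : ∀ i j, ¬ G.Adj (q i) (q j)) :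
    Nonempty (PathPlus b ↪g G) := by
  let f : Fin (b + 3) → V := Fin.cons x (Fin.cons y (Fin.cons z q))
  have nxy : x ≠ y := fun h => G.loopless.irrefl _ (h ▸ hxy)
  have nyz : y ≠ z := fun h => G.loopless.irrefl _ (h ▸ hyz)
  have hinj : Function.Injective f := by
    have h1 : Function.Injective (Fin.cons z q : Fin (b + 1) → V) := by
      rw [Fin.cons_injective_iff]
      refine ⟨?_, hq⟩
      rintro ⟨i, hi⟩
      exact (hz i).1 hi.symm
    have h2 : Function.Injective (Fin.cons y (Fin.cons z q) : Fin (b + 2) → V) := by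
      rw [Fin.cons_injective_iff]
      refine ⟨?_, h1⟩
      rintro ⟨i, hi⟩
      revert hi
      refine Fin.cases (fun h => ?_) (fun i h => ?_) i
      · exact nyz h.symm
      · exact (hy i).1 h.symm
    rw [Fin.cons_injective_iff]
    refine ⟨?_, h2⟩
    rintro ⟨i, hi⟩
    revert hi
    refine Fin.cases (fun h => ?_) (fun i => ?_) i
    · exact nxy h.symm
    · refine Fin.cases (fun h => ?_) (fun i h => ?_) i
      · exact hxz h.symm
      · exact (hx i).1 h.symm
  have hP : ∀ i j : Fin (b + 3), (PathPlus b).Adj i j ↔ i ≠ j ∧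
      (((i.val = 0 ∧ j.val = 1) ∨ (i.val = 1 ∧ j.val = 2)) ∨
        ((j.val = 0 ∧ i.val = 1) ∨ (j.val = 1 ∧ i.val = 2))) :=
    fun i j => by rw [PathPlus, SimpleGraph.fromRel_adj]
  have f0 : f ⟨0, by omega⟩ = x := rfl
  have f1 : f ⟨1, by omega⟩ = y := rfl
  have f2 : f ⟨2, by omega⟩ = z := rfl
  have f3 : ∀ i : Fin b, f ⟨i.val + 3, by omega⟩ = q i := fun i => rfl
  have hcases : ∀ i : Fin (b + 3), i = ⟨0, by omega⟩ ∨ i = ⟨1, by omega⟩ ∨ i = ⟨2, by omega⟩ ∨
      ∃ k : Fin b, i = ⟨k.val + 3, by omega⟩ := by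
    intro i
    have := i.isLt
    by_cases h0 : i.val = 0
    · left; exact Fin.ext h0
    by_cases h1 : i.val = 1
    · right; left; exact Fin.ext h1
    by_cases h2 : i.val = 2
    · right; right; left; exact Fin.ext h2
    right; right; right
    refine ⟨⟨i.val - 3, by omega⟩, Fin.ext ?_⟩
    show i.val = i.val - 3 + 3
    omega
  have hadj : ∀ i j, G.Adj (f i) (f j) ↔ (PathPlus b).Adj i j := by
    intro i j
    rw [hP]
    rcases hcases i with h | h | h | ⟨k, h⟩ <;> rcases hcases j with h' | h' | h' | ⟨k', h'⟩ <;>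
      rw [h, h']
    · simp
    · rw [f0, f1]; simp [hxy]
    · rw [f0, f2]; simp [hn]
    · rw [f0, f3]; simp [(hx k').2]
    · rw [f1, f0]; simp [hxy.symm]
    · simp
    · rw [f1, f2]; simp [hyz]
    · rw [f1, f3]; simp [(hy k').2]
    · rw [f2, f0]
      have : ¬ G.Adj z x := fun e => hn e.symm
      simp [this]
    · rw [f2, f1]; simp [hyz.symm]
    · simp
    · rw [f2, f3]; simp [(hz k').2]
    · rw [f3, f0]
      have : ¬ G.Adj (q k) x := fun e => (hx k).2 e.symm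
      simp [this]
    · rw [f3, f1]
      have : ¬ G.Adj (q k) y := fun e => (hy k).2 e.symm
      simp [this]
    · rw [f3, f2]
      have : ¬ G.Adj (q k) z := fun e => (hz k).2 e.symm
      simp [this]
    · rw [f3, f3]; simp [hqq k k']
  exact ⟨⟨⟨f, hinj⟩, fun {i j} => hadj i j⟩⟩

theorem stmt_UN2 : Stmt_UN2 := by
  intro b
  refine ⟨⟨b + 3, ?_⟩, ⟨b + 3, ?_⟩, ⟨b + 3, ?_⟩, ⟨b + 3, ?_⟩⟩
  · -- half false false
    refine UN2_mkP (half false false (b + 3)) (Sum.inr ⟨0, by omega⟩) (Sum.inl ⟨0, by omega⟩)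
      (Sum.inr ⟨1, by omega⟩) (fun i => Sum.inl ⟨i.val + 2, by omega⟩) ?_ ?_ ?_ ?_ ?_ ?_ ?_ ?_ ?_
    · intro h; have h1 := congrArg Fin.val (Sum.inr.inj h); simp at h1
    · show (⟨0, by omega⟩ : Fin (b + 3)) ≤ ⟨0, by omega⟩
      exact le_rfl
    · show (⟨0, by omega⟩ : Fin (b + 3)) ≤ ⟨1, by omega⟩
      simp
    · rintro ⟨_, h⟩; exact absurd h (by simp)
    · intro i j h
      have h1 := congrArg Fin.val (Sum.inl.inj h)
      simp only [Nat.add_right_cancel_iff] at h1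
      exact Fin.ext h1
    · intro i
      refine ⟨by simp, ?_⟩
      show ¬ ((⟨i.val + 2, by omega⟩ : Fin (b + 3)) ≤ ⟨0, by omega⟩)
      simp
    · intro i
      refine ⟨fun h => ?_, ?_⟩
      · have h1 := congrArg Fin.val (Sum.inl.inj h); simp at h1
      · rintro ⟨_, h⟩; exact absurd h (by simp)
    · intro i
      refine ⟨by simp, ?_⟩
      show ¬ ((⟨i.val + 2, by omega⟩ : Fin (b + 3)) ≤ ⟨1, by omega⟩)
      simp only [Fin.mk_le_mk]
      omega
    · rintro i j ⟨_, h⟩; exact absurd h (by simp)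
  · -- mtch false false true
    refine UN2_mkP (mtch false false true (b + 3)) (Sum.inr (⟨0, by omega⟩, ⟨0, by omega⟩))
      (Sum.inl ⟨0, by omega⟩) (Sum.inr (⟨0, by omega⟩, ⟨1, by omega⟩))
      (fun i => Sum.inl ⟨i.val + 1, by omega⟩) ?_ ?_ ?_ ?_ ?_ ?_ ?_ ?_ ?_
    · intro h; have h1 := congrArg (fun x => Fin.val (Prod.snd x)) (Sum.inr.inj h); simp at h1
    · show ((⟨0, by omega⟩ : Fin (b + 3)) = ⟨0, by omega⟩ ↔ true = true)
      simp
    · show ((⟨0, by omega⟩ : Fin (b + 3)) = ⟨0, by omega⟩ ↔ true = true)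
      simp
    · rintro ⟨_, h⟩; exact absurd h (by simp)
    · intro i j h
      have h1 := congrArg Fin.val (Sum.inl.inj h)
      simp only [Nat.add_right_cancel_iff] at h1
      exact Fin.ext h1
    · intro i
      refine ⟨by simp, ?_⟩
      show ¬ ((⟨i.val + 1, by omega⟩ : Fin (b + 3)) = ⟨0, by omega⟩ ↔ true = true)
      simp
    · intro i
      refine ⟨fun h => ?_, ?_⟩
      · have h1 := congrArg Fin.val (Sum.inl.inj h); simp at h1
      · rintro ⟨_, h⟩; exact absurd h (by simp)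
    · intro i
      refine ⟨by simp, ?_⟩
      show ¬ ((⟨i.val + 1, by omega⟩ : Fin (b + 3)) = ⟨0, by omega⟩ ↔ true = true)
      simp
    · rintro i j ⟨_, h⟩; exact absurd h (by simp)
  · -- mtch false false false
    refine UN2_mkP (mtch false false false (b + 3)) (Sum.inr (⟨1, by omega⟩, ⟨0, by omega⟩))
      (Sum.inl ⟨0, by omega⟩) (Sum.inr (⟨1, by omega⟩, ⟨1, by omega⟩))
      (fun i => Sum.inr (⟨0, by omega⟩, ⟨i.val, by omega⟩)) ?_ ?_ ?_ ?_ ?_ ?_ ?_ ?_ ?_
    · intro h; have h1 := congrArg (fun x => Fin.val (Prod.snd x)) (Sum.inr.inj h); simp at h1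
    · show ((⟨0, by omega⟩ : Fin (b + 3)) = ⟨1, by omega⟩ ↔ false = true)
      simp
    · show ((⟨0, by omega⟩ : Fin (b + 3)) = ⟨1, by omega⟩ ↔ false = true)
      simp
    · rintro ⟨_, h⟩; exact absurd h (by simp)
    · intro i j h
      have h1 := congrArg (fun x => Fin.val (Prod.snd x)) (Sum.inr.inj h)
      exact Fin.ext h1
    · intro i
      refine ⟨fun h => ?_, ?_⟩
      · have h1 := congrArg (fun x => Fin.val (Prod.fst x)) (Sum.inr.inj h); simp at h1
      · rintro ⟨_, h⟩; exact absurd h (by simp)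
    · intro i
      refine ⟨by simp, ?_⟩
      show ¬ ((⟨0, by omega⟩ : Fin (b + 3)) = ⟨0, by omega⟩ ↔ false = true)
      simp
    · intro i
      refine ⟨fun h => ?_, ?_⟩
      · have h1 := congrArg (fun x => Fin.val (Prod.fst x)) (Sum.inr.inj h); simp at h1
      · rintro ⟨_, h⟩; exact absurd h (by simp)
    · rintro i j ⟨_, h⟩; exact absurd h (by simp)
  · -- mtch true false true
    refine UN2_mkP (mtch true false true (b + 3)) (Sum.inr (⟨0, by omega⟩, ⟨0, by omega⟩))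
      (Sum.inl ⟨0, by omega⟩) (Sum.inr (⟨0, by omega⟩, ⟨1, by omega⟩))
      (fun i => Sum.inr (⟨1, by omega⟩, ⟨i.val, by omega⟩)) ?_ ?_ ?_ ?_ ?_ ?_ ?_ ?_ ?_
    · intro h; have h1 := congrArg (fun x => Fin.val (Prod.snd x)) (Sum.inr.inj h); simp at h1
    · show ((⟨0, by omega⟩ : Fin (b + 3)) = ⟨0, by omega⟩ ↔ true = true)
      simp
    · show ((⟨0, by omega⟩ : Fin (b + 3)) = ⟨0, by omega⟩ ↔ true = true)
      simp
    · rintro ⟨_, h⟩; exact absurd h (by simp)
    · intro i j h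
      have h1 := congrArg (fun x => Fin.val (Prod.snd x)) (Sum.inr.inj h)
      exact Fin.ext h1
    · intro i
      refine ⟨fun h => ?_, ?_⟩
      · have h1 := congrArg (fun x => Fin.val (Prod.fst x)) (Sum.inr.inj h); simp at h1
      · rintro ⟨_, h⟩; exact absurd h (by simp)
    · intro i
      refine ⟨by simp, ?_⟩
      show ¬ ((⟨0, by omega⟩ : Fin (b + 3)) = ⟨1, by omega⟩ ↔ true = true)
      simp
    · intro i
      refine ⟨fun h => ?_, ?_⟩
      · have h1 := congrArg (fun x => Fin.val (Prod.fst x)) (Sum.inr.inj h); simp at h1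
      · rintro ⟨_, h⟩; exact absurd h (by simp)
    · rintro i j ⟨_, h⟩; exact absurd h (by simp)

end Pool.Ker.N
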