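import Pool.Agent.Work.MP_2df4ce_n.B_UN1

set_option autoImplicit false

namespace Pool.Ker.N

open Classical St Alg Pool.Ker

theorem stmt_UN3 : Stmt_UN3 := by
  intro p
  refine ⟨fun a c => ⟨p + 2, ?_⟩, ⟨p + 2, ?_⟩, ⟨p + 2, ?_⟩⟩
  · cases c
    · -- `c = false`
      refine UN1_mkK (mtch a true false (p + 2)) (Sum.inl ⟨0, by omega⟩)
        (Sum.inr (⟨0, by omega⟩, ⟨0, by omega⟩))
        (fun i => Sum.inr (⟨1, by omega⟩, ⟨i.val, by omega⟩)) (by simp) ?_ ?_ ?_ ?_
      · show ¬ ((⟨0, by omega⟩ : Fin (p + 2)) = ⟨0, by omega⟩ ↔ false = true)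
        simp
      · intro i
        show ((⟨0, by omega⟩ : Fin (p + 2)) = ⟨1, by omega⟩ ↔ false = true)
        simp
      · intro i
        show ((⟨0, by omega⟩ : Fin (p + 2)), (⟨0, by omega⟩ : Fin (p + 2))) ≠
          (⟨1, by omega⟩, ⟨i.val, by omega⟩) ∧ true = true
        refine ⟨fun h => ?_, rfl⟩
        have h1 := congrArg (fun x => Fin.val (Prod.fst x)) h
        simp at h1
      · intro i j hij
        show ((⟨1, by omega⟩ : Fin (p + 2)), (⟨i.val, by omega⟩ : Fin (p + 2))) ≠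
          (⟨1, by omega⟩, ⟨j.val, by omega⟩) ∧ true = true
        refine ⟨fun h => hij ?_, rfl⟩
        have h1 := congrArg (fun x => Fin.val (Prod.snd x)) h
        exact Fin.ext h1
    · refine UN1_mkK (mtch a true true (p + 2)) (Sum.inl ⟨0, by omega⟩)
        (Sum.inr (⟨1, by omega⟩, ⟨0, by omega⟩))
        (fun i => Sum.inr (⟨0, by omega⟩, ⟨i.val, by omega⟩)) (by simp) ?_ ?_ ?_ ?_
      · show ¬ ((⟨0, by omega⟩ : Fin (p + 2)) = ⟨1, by omega⟩ ↔ true = true)
        simp
      · intro i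
        show ((⟨0, by omega⟩ : Fin (p + 2)) = ⟨0, by omega⟩ ↔ true = true)
        simp
      · intro i
        show ((⟨1, by omega⟩ : Fin (p + 2)), (⟨0, by omega⟩ : Fin (p + 2))) ≠
          (⟨0, by omega⟩, ⟨i.val, by omega⟩) ∧ true = true
        refine ⟨fun h => ?_, rfl⟩
        have h1 := congrArg (fun x => Fin.val (Prod.fst x)) h
        simp at h1
      · intro i j hij
        show ((⟨0, by omega⟩ : Fin (p + 2)), (⟨i.val, by omega⟩ : Fin (p + 2))) ≠
          (⟨0, by omega⟩, ⟨j.val, by omega⟩) ∧ true = true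
        refine ⟨fun h => hij ?_, rfl⟩
        have h1 := congrArg (fun x => Fin.val (Prod.snd x)) h
        exact Fin.ext h1
  · refine UN1_mkK (mtch true false false (p + 2)) (Sum.inr (⟨0, by omega⟩, ⟨0, by omega⟩))
      (Sum.inr (⟨0, by omega⟩, ⟨1, by omega⟩)) (fun i => Sum.inl ⟨i.val + 1, by omega⟩)
      ?_ ?_ ?_ ?_ ?_
    · intro h
      have h1 := congrArg (fun x => Fin.val (Prod.snd x)) (Sum.inr.inj h)
      simp at h1
    · show ¬ (((⟨0, by omega⟩ : Fin (p + 2)), (⟨0, by omega⟩ : Fin (p + 2))) ≠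
          (⟨0, by omega⟩, ⟨1, by omega⟩) ∧ false = true)
      simp
    · intro i
      show ((⟨i.val + 1, by omega⟩ : Fin (p + 2)) = ⟨0, by omega⟩ ↔ false = true)
      simp
    · intro i
      show ((⟨i.val + 1, by omega⟩ : Fin (p + 2)) = ⟨0, by omega⟩ ↔ false = true)
      simp
    · intro i j hij
      show (⟨i.val + 1, by omega⟩ : Fin (p + 2)) ≠ ⟨j.val + 1, by omega⟩ ∧ true = true
      refine ⟨fun h => hij ?_, rfl⟩
      have h1 := congrArg Fin.val h
      simp only [Nat.add_right_cancel_iff] at h1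
      exact Fin.ext h1
  · have hc : ∀ x y : Fin (p + 2) × Fin (p + 2), ((cliques (p + 2))ᶜ).Adj x y ↔ x.1 ≠ y.1 := by
      intro x y
      rw [SimpleGraph.compl_adj, cliques, SimpleGraph.fromRel_adj]
      constructor
      · rintro ⟨h1, h2⟩ h3
        exact h2 ⟨h1, Or.inl h3⟩
      · intro h1
        refine ⟨fun h2 => h1 (by rw [h2]), ?_⟩
        rintro ⟨-, h3 | h3⟩
        · exact h1 h3
        · exact h1 h3.symm
    refine UN1_mkK ((cliques (p + 2))ᶜ) (⟨0, by omega⟩, ⟨0, by omega⟩) (⟨0, by omega⟩, ⟨1, by omega⟩)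
      (fun i => (⟨i.val + 1, by omega⟩, ⟨0, by omega⟩)) ?_ ?_ ?_ ?_ ?_
    · intro h
      have h1 := congrArg (fun x => Fin.val (Prod.snd x)) h
      simp at h1
    · rw [hc]; simp
    · intro i; rw [hc]; intro h
      have h1 := congrArg Fin.val h
      simp at h1
    · intro i; rw [hc]; intro h
      have h1 := congrArg Fin.val h
      simp at h1
    · intro i j hij; rw [hc]; intro h
      have h1 := congrArg Fin.val h
      simp only [Nat.add_right_cancel_iff] at h1
      exact hij (Fin.ext h1)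

end Pool.Ker.N
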