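import Pool.Agent.Work.MP_2df4ce_n.Interface

/-!
# UNA
-/

set_option autoImplicit false

namespace Pool.Ker.N

open Classical St Alg Pool.Ker

theorem stmt_UNA (hUN1 : Stmt_UN1) (hUN2 : Stmt_UN2) (hUN3 : Stmt_UN3) : Stmt_UNA := by
  intro F p b m hK hP
  obtain ⟨u1, u2, u3, u4⟩ := hUN2 b
  obtain ⟨v1, v2, v3⟩ := hUN3 p
  have hK' : (⟨p + 2, KMinus (p + 2)⟩ : Gr) ∈ insert (cliqG m) F := Set.mem_insert_of_mem _ hK
  have hP' : (⟨b + 3, PathPlus b⟩ : Gr) ∈ insert (cliqG m) F := Set.mem_insert_of_mem _ hP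
  refine ⟨?_, ?_, ?_, ?_⟩
  · intro x y
    rcases x with _ | _ <;> rcases y with _ | _
    · exact ⟨_, hP', u1⟩
    · exact ⟨_, hK', hUN1 p false true (Or.inr rfl)⟩
    · exact ⟨_, hK', hUN1 p true false (Or.inl rfl)⟩
    · exact ⟨_, hK', hUN1 p true true (Or.inl rfl)⟩
  · intro x y z
    rcases y with _ | _
    · rcases x with _ | _ <;> rcases z with _ | _
      · exact ⟨_, hP', u3⟩
      · exact ⟨_, hP', u2⟩
      · exact ⟨_, hK', v2⟩
      · exact ⟨_, hP', u4⟩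
    · exact ⟨_, hK', v1 x z⟩
  · exact ⟨cliqG m, Set.mem_insert _ _, m,
      ⟨SimpleGraph.Embedding.comap finProdFinEquiv.symm.toEmbedding (cliques m)⟩⟩
  · exact ⟨_, hK', v3⟩

end Pool.Ker.N
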