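import Pool.Agent.Work.MP_2df4ce_k.InterfaceB
import Pool.Agent.Work.MP_2df4ce_k.InterfaceP
import Pool.Agent.Work.MP_2df4ce_k.InterfaceH

/-!
# MP_2df4ce_lc, NearClusterKernels: definitions

`K_{p+2}` minus an edge and `P_3 + bK_1` in `F`: `F`-free edge editing has a polynomial kernel.
Twins, clones, the kept vertices `Kp`, the algorithm.
-/

set_option autoImplicit false

namespace Pool.Ker.N

open Classical St Alg Pool.Ker

/-- `P_3 + bK_1`: the path `0 - 1 - 2` and `b` isolated vertices. -/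
def PathPlus (b : ℕ) : SimpleGraph (Fin (b + 3)) :=
  SimpleGraph.fromRel fun i j => (i.val = 0 ∧ j.val = 1) ∨ (i.val = 1 ∧ j.val = 2)

/-- `cliques m` as a graph on `Fin (m * m)`. -/
def cliqG (m : ℕ) : Gr := ⟨m * m, (cliques m).comap finProdFinEquiv.symm⟩

/-- True twins in `U`, or equal. -/
def Tw (G : SimpleGraph ℕ) (U : Finset ℕ) (u v : ℕ) : Prop :=
  u = v ∨ (G.Adj u v ∧ ∀ w ∈ U, w ≠ u → w ≠ v → (G.Adj u w ↔ G.Adj v w))

/-- The twin class. -/
noncomputable def cls (G : SimpleGraph ℕ) (U : Finset ℕ) (v : ℕ) : Finset ℕ :=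
  U.filter fun w => Tw G U v w

/-- The classes of `u` and `v` are clones: different, not adjacent, with the same outer neighbours, and of the
same size, sizes at least `t` being considered as equal. -/
def Cl (G : SimpleGraph ℕ) (U : Finset ℕ) (t : ℕ) (u v : ℕ) : Prop :=
  ¬ Tw G U u v ∧ ¬ G.Adj u v ∧
    (∀ w ∈ U, ¬ Tw G U u w → ¬ Tw G U v w → (G.Adj u w ↔ G.Adj v w)) ∧
    ((cls G U u).card = (cls G U v).card ∨ (t ≤ (cls G U u).card ∧ t ≤ (cls G U v).card))

/-- The number of smaller twins. -/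
noncomputable def rk (G : SimpleGraph ℕ) (U : Finset ℕ) (v : ℕ) : ℕ :=
  (U.filter fun w => w < v ∧ Tw G U v w).card

/-- The number of clone classes whose least element is less than all elements of the class of `v` (counted
by their least elements `w`). -/
noncomputable def crk (G : SimpleGraph ℕ) (U : Finset ℕ) (t : ℕ) (v : ℕ) : ℕ :=
  (U.filter fun w => (∀ x ∈ U, Tw G U w x → w ≤ x) ∧ (∀ x ∈ U, Tw G U v x → w < x) ∧
    Cl G U t v w).card

/-- The kept vertices: the first `t` of each class, for the first `t` classes of each clone family. -/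
noncomputable def Kp (G : SimpleGraph ℕ) (U : Finset ℕ) (t : ℕ) : Finset ℕ :=
  U.filter fun v => rk G U v < t ∧ crk G U t v < t

/-- No `K_{q+2}` minus an edge. -/
def NoKM (H : SimpleGraph ℕ) (U : Finset ℕ) (q : ℕ) : Prop :=
  ∀ x ∈ U, ∀ y ∈ U, x ≠ y → ¬ H.Adj x y → ∀ Q : Finset ℕ, Q ⊆ U → Q.card = q →
    (∀ a ∈ Q, ∀ a' ∈ Q, a ≠ a' → H.Adj a a') → (∀ a ∈ Q, H.Adj x a ∧ H.Adj y a) → False

/-- No `P_3 + bK_1`. -/
def NoP3 (H : SimpleGraph ℕ) (U : Finset ℕ) (b : ℕ) : Prop :=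
  ∀ x ∈ U, ∀ y ∈ U, ∀ z ∈ U, x ≠ z → H.Adj x y → H.Adj y z → ¬ H.Adj x z →
    ∀ I : Finset ℕ, I ⊆ U → I.card = b → (∀ a ∈ I, ∀ a' ∈ I, a ≠ a' → ¬ H.Adj a a') →
    (∀ a ∈ I, a ≠ x ∧ a ≠ y ∧ a ≠ z ∧ ¬ H.Adj x a ∧ ¬ H.Adj y a ∧ ¬ H.Adj z a) → False

/-- `m` cliques with `m` vertices without edges between them. -/
def IsCQ (H : SimpleGraph ℕ) (U : Finset ℕ) (m : ℕ) (Q : Fin m → Finset ℕ) : Prop :=
  (∀ i, Q i ⊆ U) ∧ (∀ i, (Q i).card = m) ∧
    (∀ i, ∀ x ∈ Q i, ∀ y ∈ Q i, x ≠ y → H.Adj x y) ∧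
    ∀ i j, i ≠ j → ∀ x ∈ Q i, ∀ y ∈ Q j, x ≠ y ∧ ¬ H.Adj x y

/-- The order of the cliques used. -/
def mm (p b : ℕ) : ℕ := (p + 2) * (b + 2) + p + b + 5

/-- The situation of the structure lemmas. -/
structure Big (H : SimpleGraph ℕ) (U : Finset ℕ) (p b m : ℕ) (Q : Fin m → Finset ℕ) : Prop where
  km : NoKM H U p
  p3 : NoP3 H U b
  cq : IsCQ H U m Q
  hm : mm p b ≤ m

/-- The vertices with neighbours in two of the cliques. -/
noncomputable def DD (H : SimpleGraph ℕ) (U : Finset ℕ) {m : ℕ} (Q : Fin m → Finset ℕ) : Finset ℕ :=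
  U.filter fun v => ∃ i j, i ≠ j ∧ (∃ x ∈ Q i, H.Adj v x) ∧ ∃ y ∈ Q j, H.Adj v y

/-- Outside of the small set `D` the graph is a disjoint union of cliques, and the non-neighbours of
`v ∈ D` are in few of them. -/
structure Clu (H : SimpleGraph ℕ) (U D : Finset ℕ) (p b : ℕ) : Prop where
  sub : D ⊆ U
  card : D.card ≤ p
  clus : ∀ x ∈ U, ∀ y ∈ U, ∀ z ∈ U, x ∉ D → y ∉ D → z ∉ D → x ≠ z → H.Adj x y → H.Adj y z →
    H.Adj x z
  ind : ∀ v ∈ D, ∀ I : Finset ℕ, I ⊆ U → (∀ a ∈ I, a ∉ D ∧ ¬ H.Adj v a) →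
    (∀ a ∈ I, ∀ a' ∈ I, a ≠ a' → ¬ H.Adj a a') → I.card ≤ b + 1

/-- The vertices of `U` in a pair of `S`. -/
noncomputable def tch (U : Finset ℕ) (S : Finset (Sym2 ℕ)) : Finset ℕ :=
  U.filter fun x => ∃ e ∈ S, x ∈ e

/-- The component of `x` in `U \ D`. -/
noncomputable def cp (H : SimpleGraph ℕ) (U D : Finset ℕ) (x : ℕ) : Finset ℕ :=
  (U \ D).filter fun y => y = x ∨ H.Adj x y

/-- The component of `x` has a touched vertex or a vertex not adjacent to some `v ∈ D`. -/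
def Bad (H : SimpleGraph ℕ) (U D : Finset ℕ) (S : Finset (Sym2 ℕ)) (x : ℕ) : Prop :=
  ∃ y ∈ cp H U D x, y ∈ tch U S ∨ ∃ v ∈ D, ¬ H.Adj v y

/-- The bound for the number of kept vertices. -/
def pb (p b t k : ℕ) : ℕ :=
  p + 2 * k + (2 * k + p * (b + 1)) * 2 ^ p * t + t * (t * (t + 1) + 1)

/-! ### The algorithm -/

/-- `Tw`. -/
def twB (E : List (ℕ × ℕ)) (n u v : ℕ) : Bool :=
  decide (u = v) || (adj E u v && (List.range n).all fun w =>
    decide (w = u) || (decide (w = v) || decide (adj E u w = adj E v w)))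

/-- `cls`. -/
def clsB (E : List (ℕ × ℕ)) (n v : ℕ) : List ℕ := (List.range n).filter fun w => twB E n v w

/-- `Cl`. -/
def clB (E : List (ℕ × ℕ)) (n t u v : ℕ) : Bool :=
  !(twB E n u v) && (!(adj E u v) && (((List.range n).all fun w =>
    twB E n u w || (twB E n v w || decide (adj E u w = adj E v w))) &&
    (decide ((clsB E n u).length = (clsB E n v).length) ||
      (decide (t ≤ (clsB E n u).length) && decide (t ≤ (clsB E n v).length)))))

/-- `rk`. -/
def rkB (E : List (ℕ × ℕ)) (n v : ℕ) : ℕ :=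
  ((List.range n).filter fun w => decide (w < v) && twB E n v w).length

/-- `crk`. -/
def crkB (E : List (ℕ × ℕ)) (n t v : ℕ) : ℕ :=
  ((List.range n).filter fun w =>
    ((List.range n).all fun x => !(twB E n w x) || decide (w ≤ x)) &&
    (((List.range n).all fun x => !(twB E n v x) || decide (w < x)) && clB E n t v w)).length

/-- `Kp`. -/
def kpB (E : List (ℕ × ℕ)) (n t : ℕ) : List ℕ :=
  (List.range n).filter fun v => decide (rkB E n v < t) && decide (crkB E n t v < t)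

/-- The reduced instance. -/
def redI (s : ℕ) (I : Inst) : Inst := sub I.2.1 I.2.2 (kpB I.2.1 I.1 (2 * I.2.2 + s + 1))

/-- The kernelization. -/
def kern2 (OL : List (ℕ × List Bool)) (s r D cc p b : ℕ) (noI : Inst) (I : Inst) : Inst :=
  bif decide ((redI s I).1 ≤ pb p b (2 * I.2.2 + s + 1) I.2.2) then redI s I
  else kern OL s r D cc noI (redI s I)

end Pool.Ker.N
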