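import Pool.Agent.Work.MP_2df4ce_k.Final
import Pool.Agent.Work.MP_2df4ce_k.B_RMC
import Pool.Agent.Work.MP_2df4ce_k.B_BIR
import Pool.Agent.Work.MP_2df4ce_k.B_CLE
import Pool.Agent.Work.MP_2df4ce_k.B_CHN
import Pool.Agent.Work.MP_2df4ce_k.B_HTY
import Pool.Agent.Work.MP_2df4ce_k.B_UNI
import Pool.Agent.Work.MP_2df4ce_k.B_EXC
import Pool.Agent.Work.MP_2df4ce_k.B_MO2
import Pool.Agent.Work.MP_2df4ce_k.B_UNB
import Pool.Agent.Work.MP_2df4ce_k.B_FTN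
import Pool.Agent.Work.MP_2df4ce_n.B_TWQ
import Pool.Agent.Work.MP_2df4ce_n.B_CLQ
import Pool.Agent.Work.MP_2df4ce_n.B_SEG
import Pool.Agent.Work.MP_2df4ce_n.B_RKC
import Pool.Agent.Work.MP_2df4ce_n.B_CCC
import Pool.Agent.Work.MP_2df4ce_n.B_KCL
import Pool.Agent.Work.MP_2df4ce_n.B_KPB
import Pool.Agent.Work.MP_2df4ce_n.B_STA
import Pool.Agent.Work.MP_2df4ce_n.B_STB
import Pool.Agent.Work.MP_2df4ce_n.B_RD1
import Pool.Agent.Work.MP_2df4ce_n.B_EQB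
import Pool.Agent.Work.MP_2df4ce_n.B_PT1
import Pool.Agent.Work.MP_2df4ce_n.B_PT2
import Pool.Agent.Work.MP_2df4ce_n.B_PT3
import Pool.Agent.Work.MP_2df4ce_n.B_DM1
import Pool.Agent.Work.MP_2df4ce_n.B_DM2
import Pool.Agent.Work.MP_2df4ce_n.B_DM3
import Pool.Agent.Work.MP_2df4ce_n.B_DM4
import Pool.Agent.Work.MP_2df4ce_n.B_DM5
import Pool.Agent.Work.MP_2df4ce_n.B_TCH
import Pool.Agent.Work.MP_2df4ce_n.B_CMP
import Pool.Agent.Work.MP_2df4ce_n.B_BRC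
import Pool.Agent.Work.MP_2df4ce_n.B_FIB
import Pool.Agent.Work.MP_2df4ce_n.B_BAC
import Pool.Agent.Work.MP_2df4ce_n.B_GTW
import Pool.Agent.Work.MP_2df4ce_n.B_GCL
import Pool.Agent.Work.MP_2df4ce_n.B_GDC
import Pool.Agent.Work.MP_2df4ce_n.B_GDV
import Pool.Agent.Work.MP_2df4ce_n.B_BIG
import Pool.Agent.Work.MP_2df4ce_n.B_COG
import Pool.Agent.Work.MP_2df4ce_n.B_KRG
import Pool.Agent.Work.MP_2df4ce_n.B_RDI
import Pool.Agent.Work.MP_2df4ce_n.B_KN2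
import Pool.Agent.Work.MP_2df4ce_n.B_PF1
import Pool.Agent.Work.MP_2df4ce_n.B_PF2
import Pool.Agent.Work.MP_2df4ce_n.B_PF3
import Pool.Agent.Work.MP_2df4ce_n.B_UN1
import Pool.Agent.Work.MP_2df4ce_n.B_UN2
import Pool.Agent.Work.MP_2df4ce_n.B_UN3
import Pool.Agent.Work.MP_2df4ce_n.B_UNA
import Pool.Agent.Work.MP_2df4ce_n.B_FI2

/-!
# MP_2df4ce_lc, NearClusterKernels: assembly
-/

set_option autoImplicit false

namespace Pool.Ker.N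

open St Pool.Ker

theorem hFTN : Stmt_FTN :=
  stmt_FTN (stmt_EXC p_RMC (stmt_CLE stmt_RAM stmt_BIR) stmt_CHN stmt_HTY stmt_UNI) stmt_MO2
    stmt_UNB

theorem hCLQ : Stmt_CLQ := stmt_CLQ stmt_TWQ
theorem hRKC : Stmt_RKC := stmt_RKC stmt_TWQ stmt_SEG
theorem hCCC : Stmt_CCC := stmt_CCC stmt_TWQ hCLQ
theorem hKCL : Stmt_KCL := stmt_KCL stmt_TWQ hCLQ stmt_SEG
theorem hKPB : Stmt_KPB := stmt_KPB stmt_TWQ hCLQ hRKC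
theorem hSTA : Stmt_STA := stmt_STA stmt_TWQ hCLQ hRKC hCCC hKCL stmt_TCH
theorem hSTB : Stmt_STB := stmt_STB stmt_TWQ hRKC hCCC stmt_TCH
theorem hRD1 : Stmt_RD1 := stmt_RD1 hSTA hSTB

theorem hDM2 : Stmt_DM2 := stmt_DM2 stmt_DM1
theorem hDM3 : Stmt_DM3 := p_DM3 stmt_DM1 hDM2
theorem hDM5 : Stmt_DM5 := stmt_DM5 stmt_DM1 stmt_DM4
theorem hBRC : Stmt_BRC := stmt_BRC stmt_TCH stmt_CMP
theorem hFIB : Stmt_FIB := stmt_FIB stmt_TCH stmt_CMP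
theorem hBAC : Stmt_BAC := stmt_BAC stmt_CMP hBRC hFIB
theorem hGDC : Stmt_GDC := stmt_GDC stmt_GCL
theorem hGDV : Stmt_GDV := stmt_GDV stmt_CMP hFIB hGDC
theorem hBIG : Stmt_BIG :=
  stmt_BIG stmt_PT1 stmt_PT2 stmt_PT3 hDM3 stmt_DM4 hDM5 hKPB stmt_TCH hBAC hGDV

theorem hCOG : Stmt_COG := stmt_COG stmt_IOB hCRE hBLE hGLU
theorem hKRG : Stmt_KRG := stmt_KRG hPFR hCOG hVKB stmt_TRF (stmt_SBB stmt_LBA)
theorem hRDI : Stmt_RDI := stmt_RDI hRD1 stmt_EQB hBIG stmt_IOB stmt_TRF (stmt_SBB stmt_LBA)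
theorem hKN2 : Stmt_KN2 := stmt_KN2 hKRG hRDI stmt_NOI
theorem hPF3 : Stmt_PF3 := p_PF3 stmt_PA1 hPA6 (stmt_PF2 (stmt_PF1 stmt_PA1))
theorem hUNA : Stmt_UNA := stmt_UNA stmt_UN1 stmt_UN2 stmt_UN3

/-- The theorem. -/
theorem near_cluster_kernel : Stmt_FI2 :=
  stmt_FI2 hUNA hFTN hGS4 (stmt_ZER stmt_PEN) stmt_TRS hKN2 hPF3 stmt_PEN

end Pool.Ker.N
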