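import Pool.Agent.Work.MP_2df4ce_n.Defs

/-!
# MP_2df4ce_lc, NearClusterKernels: statements of the blocks (proofs in the comments)
-/

set_option autoImplicit false

namespace Pool.Ker.N

open Classical St Alg Pool.Ker Pool.Agent.Work.TMLib

/-! ## Twins and clones -/

/-- TWQ. `Tw` is an equivalence relation on `U`. Transitivity, `u, v, w` different: `Adj u w` from
`Tw u v` at the vertex `w` and `Adj v w`; for `z ≠ u, w`: if `z = v` both sides hold, otherwise chain. -/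
def Stmt_TWQ : Prop :=
  ∀ (G : SimpleGraph ℕ) (U : Finset ℕ), (∀ v, Tw G U v v) ∧ (∀ u v, Tw G U u v → Tw G U v u) ∧
    (∀ u v w, u ∈ U → v ∈ U → w ∈ U → Tw G U u v → Tw G U v w → Tw G U u w) ∧
    (∀ u v z, Tw G U u v → z ∈ U → z ≠ u → z ≠ v → (G.Adj u z ↔ G.Adj v z)) ∧
    (∀ u v, Tw G U u v → u ≠ v → G.Adj u v) ∧
    (∀ u v, u ∈ U → v ∈ U → Tw G U u v → cls G U u = cls G U v)

/-- CLQ. `Cl` is symmetric, depends only on the classes, and is transitive up to `Tw`. Transitivity,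
`Cl u v`, `Cl v w`, not `Tw u w`: `w` is in neither of the classes of `u`, `v`, so `Adj u w ↔ Adj v w`, false.
For `x` outside of the classes of `u` and `w`: if `x` is a twin of `v` both `Adj u x`, `Adj w x` are false
(`Tw v x`, `¬ Adj v u`, `¬ Adj v w`), otherwise chain. Uses TWQ. -/
def Stmt_CLQ : Prop :=
  ∀ (G : SimpleGraph ℕ) (U : Finset ℕ) (t : ℕ), (∀ u v, Cl G U t u v → Cl G U t v u) ∧
    (∀ u u' v v', u ∈ U → u' ∈ U → v ∈ U → v' ∈ U → Tw G U u u' → Tw G U v v' →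
      Cl G U t u v → Cl G U t u' v') ∧
    (∀ u v w, u ∈ U → v ∈ U → w ∈ U → Cl G U t u v → Cl G U t v w → Tw G U u w ∨ Cl G U t u w)

/-- SEG. In a finite set `W` of numbers exactly `min |W| t` elements have less than `t` smaller elements.
(Induction on `W` by removing the maximum, or `W.orderIsoOfFin`.) -/
def Stmt_SEG : Prop :=
  ∀ (W : Finset ℕ) (t : ℕ),
    (W.filter fun w => (W.filter fun x => x < w).card < t).card = min W.card t

/-- RKC. `rk w` is the number of smaller elements of the class, for `w` in the class of `v`; SEG. -/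
def Stmt_RKC : Prop :=
  ∀ (G : SimpleGraph ℕ) (U : Finset ℕ) (t v : ℕ), v ∈ U →
    ((cls G U v).filter fun w => rk G U w < t).card = min (cls G U v).card t

/-- CCC. `crk` depends only on the class (TWQ, CLQ). -/
def Stmt_CCC : Prop :=
  ∀ (G : SimpleGraph ℕ) (U : Finset ℕ) (t u v : ℕ), u ∈ U → v ∈ U → Tw G U u v →
    crk G U t u = crk G U t v

/-- KCL. Let `W` be the set counted by `crk v`, `|W| ≥ t`; `R` = the elements of `W` with less than `t`
smaller elements in `W` (SEG: `t` of them). For `w ∈ R` the set counted by `crk w` is contained in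
`{x ∈ W : x < w}`: `Cl v w`, `Cl w x` gives `Cl v x` (`Tw v x` is impossible since `x < w`, `x` is less than
all elements of the class of `w`, and `w ≤ ...`: the least element `w` is less than the elements of the class
of `v`). Different least elements are not twins. -/
def Stmt_KCL : Prop :=
  ∀ (G : SimpleGraph ℕ) (U : Finset ℕ) (t v : ℕ), v ∈ U → t ≤ crk G U t v →
    ∃ R : Finset ℕ, R ⊆ U ∧ t ≤ R.card ∧ (∀ w ∈ R, Cl G U t v w ∧ crk G U t w < t) ∧
      ∀ w ∈ R, ∀ w' ∈ R, w ≠ w' → ¬ Tw G U w w'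

/-- KPB. At most `t` kept vertices in a class (they have `rk < t`: SEG, RKC), and at most `t` pairwise clones
in `Kp`: take the least elements `l x` of the classes of the `x ∈ R` (different); for the `x` with the largest
one, all the others are counted by `crk x`, so `|R| - 1 ≤ crk x < t`. -/
def Stmt_KPB : Prop :=
  ∀ (G : SimpleGraph ℕ) (U : Finset ℕ) (t : ℕ),
    (∀ v ∈ U, ((Kp G U t).filter fun w => Tw G U v w).card ≤ t) ∧
    ∀ R : Finset ℕ, R ⊆ Kp G U t → (∀ x ∈ R, ∀ y ∈ R, x ≠ y → Cl G U t x y) → R.card ≤ t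

/-- STA (step A of the replacement). Let `T` be the class of `x`; by CCC no vertex of `T` is in `Kp`, so `T`
is in no pair of `S`. KCL gives `t ≥ 2k + s + 1` clone classes with `crk < t`, pairwise disjoint; at most `2k` of
them contain a vertex of a pair of `S`, at most `s` of them meet `O`; take another one, `T'`. It has
`min |T'| t` vertices with `rk < t` (RKC), `min |T'| t = min |T| t ≥ |O ∩ T|`. Map `O ∩ T` injectively into
them, the identity on the rest of `O`; adjacencies in `ed G S` are preserved (TWQ, `Cl`); `IsOb.map`. -/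
def Stmt_STA : Prop :=
  ∀ (G : SimpleGraph ℕ) (U : Finset ℕ) (s t k : ℕ) (Ob : SimpleGraph ℕ → Finset ℕ → Prop),
    IsOb s Ob → 2 * k + s + 1 ≤ t → ∀ S : Finset (Sym2 ℕ), S.card ≤ k →
    (∀ e ∈ S, ∀ x ∈ e, x ∈ Kp G U t) → ∀ O : Finset ℕ, O ⊆ U → Ob (ed G S) O →
    (∃ x ∈ O, t ≤ crk G U t x) →
    ∃ O' : Finset ℕ, O' ⊆ U ∧ Ob (ed G S) O' ∧
      (O'.filter fun x => x ∉ Kp G U t).card < (O.filter fun x => x ∉ Kp G U t).card

/-- STB (step B). `x ∈ O`, `crk x < t ≤ rk x`: `x ∉ Kp`, so `x` is in no pair of `S`. Its class has at least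
`t` vertices, so exactly `t` with `rk < t` (RKC), all in `Kp` (CCC); one of them, `y`, is in no pair of `S` and
not in `O`. Replace `x` by `y` (TWQ, `IsOb.map`). -/
def Stmt_STB : Prop :=
  ∀ (G : SimpleGraph ℕ) (U : Finset ℕ) (s t k : ℕ) (Ob : SimpleGraph ℕ → Finset ℕ → Prop),
    IsOb s Ob → 2 * k + s + 1 ≤ t → ∀ S : Finset (Sym2 ℕ), S.card ≤ k →
    (∀ e ∈ S, ∀ x ∈ e, x ∈ Kp G U t) → ∀ O : Finset ℕ, O ⊆ U → Ob (ed G S) O →
    (∃ x ∈ O, crk G U t x < t ∧ t ≤ rk G U x) →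
    ∃ O' : Finset ℕ, O' ⊆ U ∧ Ob (ed G S) O' ∧
      (O'.filter fun x => x ∉ Kp G U t).card < (O.filter fun x => x ∉ Kp G U t).card

/-- RD1 (the reduction is correct). A solution on `U` is one on `Kp ⊆ U`. Conversely let `S` be a solution on
`Kp`; remove from it the pairs not inside `Kp` (`IsOb.map` with the identity: still a solution on `Kp`). An
obstruction `O ⊆ U` with the least number of vertices outside of `Kp` lies in `Kp` by STA, STB. -/
def Stmt_RD1 : Prop :=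
  ∀ (G : SimpleGraph ℕ) (U : Finset ℕ) (s t k : ℕ) (Ob : SimpleGraph ℕ → Finset ℕ → Prop),
    IsOb s Ob → 2 * k + s + 1 ≤ t → (Ker.Yes Ob G U k ↔ Ker.Yes Ob G (Kp G U t) k)

/-- EQB. The algorithm computes `Kp` for `U = range n` (compare the functions one after the other;
`(gr E).Adj u v ↔ adj E u v = true`; a filter of `List.range n` has the length of the filter of
`Finset.range n`). -/
def Stmt_EQB : Prop :=
  ∀ (E : List (ℕ × ℕ)) (n t : ℕ), (kpB E n t).toFinset = Kp (gr E) (Finset.range n) t ∧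
    (kpB E n t).Nodup ∧ ∀ v ∈ kpB E n t, v < n

/-! ## Patterns -/

/-- PT1. `φ 0 = x`, `φ 1 = y`, `φ (i + 2)` = the elements of `Q`. -/
def Stmt_PT1 : Prop :=
  ∀ (F : Set Gr) (G : SimpleGraph ℕ) (U : Finset ℕ) (S : Finset (Sym2 ℕ)) (p : ℕ),
    (⟨p + 2, KMinus (p + 2)⟩ : Gr) ∈ F → Sol (OF F) G U S → NoKM (ed G S) U p

/-- PT2. `φ 0 = x`, `φ 1 = y`, `φ 2 = z`, `φ (i + 3)` = the elements of `I`. -/
def Stmt_PT2 : Prop :=
  ∀ (F : Set Gr) (G : SimpleGraph ℕ) (U : Finset ℕ) (S : Finset (Sym2 ℕ)) (b : ℕ),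
    (⟨b + 3, PathPlus b⟩ : Gr) ∈ F → Sol (OF F) G U S → NoP3 (ed G S) U b

/-- PT3. A copy of `cliqG m` in `U` gives the cliques `Q i` = the images of `(i, a)`, `a < m`. -/
def Stmt_PT3 : Prop :=
  ∀ (F : Set Gr) (G : SimpleGraph ℕ) (U : Finset ℕ) (S : Finset (Sym2 ℕ)) (m : ℕ),
    Sol (OF F) G U S → (¬ ∃ Q : Fin m → Finset ℕ, IsCQ (ed G S) U m Q) →
    Sol (OF (insert (cliqG m) F)) G U S

/-! ## The structure of a solution with `m` cliques -/

/-- DM1. `v ∈ DD` is in no `Q l` (a vertex of `Q l` has neighbours only in `Q l`). `v` has neighbours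
`x ∈ Q i`, `z ∈ Q j`. If more than `b + 1` of the `Q l` contain a non-neighbour of `v`, take one in `b` of them
with `l ≠ i, j`: `NoP3` is violated. -/
def Stmt_DM1 : Prop :=
  ∀ (H : SimpleGraph ℕ) (U : Finset ℕ) (p b m : ℕ) (Q : Fin m → Finset ℕ), Big H U p b m Q →
    ∀ v ∈ DD H U Q, (∀ i, v ∉ Q i) ∧
      (Finset.univ.filter fun i : Fin m => ∃ x ∈ Q i, ¬ H.Adj v x).card ≤ b + 1

/-- DM2. `DD` is a clique: non-adjacent `v, w ∈ DD` are complete to a common `Q i` (DM1,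
`m > 2 (b + 1)`), `p` vertices of `Q i` violate `NoKM`. -/
def Stmt_DM2 : Prop :=
  ∀ (H : SimpleGraph ℕ) (U : Finset ℕ) (p b m : ℕ) (Q : Fin m → Finset ℕ), Big H U p b m Q →
    ∀ v ∈ DD H U Q, ∀ w ∈ DD H U Q, v ≠ w → H.Adj v w

/-- DM3. `|DD| ≤ p`: otherwise `p` vertices of `DD` are complete to two of the `Q i` (DM1,
`m ≥ p (b + 1) + 2`); a vertex of each of the two and these `p` vertices (a clique, DM2) violate `NoKM`. -/
def Stmt_DM3 : Prop :=
  ∀ (H : SimpleGraph ℕ) (U : Finset ℕ) (p b m : ℕ) (Q : Fin m → Finset ℕ), Big H U p b m Q →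
    (DD H U Q).card ≤ p

/-- DM4. Each `x ∈ U \ DD` is in or has neighbours in at most one `Q i`. For `x - y - z` with `x, z` not
adjacent there are `b` of the `Q i` (`m ≥ b + 3`) not meeting `{x, y, z}` and without neighbours of `x, y, z`; one
vertex of each of them: `NoP3` is violated. -/
def Stmt_DM4 : Prop :=
  ∀ (H : SimpleGraph ℕ) (U : Finset ℕ) (p b m : ℕ) (Q : Fin m → Finset ℕ), Big H U p b m Q →
    ∀ x ∈ U, ∀ y ∈ U, ∀ z ∈ U, x ∉ DD H U Q → y ∉ DD H U Q → z ∉ DD H U Q → x ≠ z →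
      H.Adj x y → H.Adj y z → H.Adj x z

/-- DM5. `v` has neighbours `x ∈ Q i`, `z ∈ Q j` (`x, z ∉ DD`, not adjacent). At most one element of `I` is
equal or adjacent to `x` (two such elements would be adjacent by DM4), the same for `z`; `b` of the others
violate `NoP3` (with the path `x v z`) if `|I| ≥ b + 2`. -/
def Stmt_DM5 : Prop :=
  ∀ (H : SimpleGraph ℕ) (U : Finset ℕ) (p b m : ℕ) (Q : Fin m → Finset ℕ), Big H U p b m Q →
    ∀ v ∈ DD H U Q, ∀ I : Finset ℕ, I ⊆ U → (∀ a ∈ I, a ∉ DD H U Q ∧ ¬ H.Adj v a) →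
      (∀ a ∈ I, ∀ a' ∈ I, a ≠ a' → ¬ H.Adj a a') → I.card ≤ b + 1

/-! ## Counting the kept vertices -/

/-- TCH. `|tch U S| ≤ 2 |S|` (a pair has at most two vertices); and a vertex of `U` not in `tch` has the same
neighbours in `G` and `ed G S`. -/
def Stmt_TCH : Prop :=
  ∀ (G : SimpleGraph ℕ) (U : Finset ℕ) (S : Finset (Sym2 ℕ)), (tch U S).card ≤ 2 * S.card ∧
    ∀ x ∈ U, x ∉ tch U S → ∀ y, ((ed G S).Adj x y ↔ G.Adj x y)

/-- CMP. Components: for `x ∈ U \ D`: `x ∈ cp x`; if `y ∈ cp x` then `cp y = cp x`; different elements of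
`cp x` are adjacent; a vertex of `U \ D` adjacent to an element of `cp x` is in `cp x`. (`Clu.clus`) -/
def Stmt_CMP : Prop :=
  ∀ (H : SimpleGraph ℕ) (U D : Finset ℕ) (p b : ℕ), Clu H U D p b → ∀ x ∈ U, x ∉ D →
    x ∈ cp H U D x ∧ (∀ y ∈ cp H U D x, cp H U D y = cp H U D x) ∧
    (∀ y ∈ cp H U D x, ∀ z ∈ cp H U D x, y ≠ z → H.Adj y z) ∧
    ∀ y ∈ cp H U D x, ∀ z ∈ U, z ∉ D → H.Adj y z → z ∈ cp H U D x

/-- BRC (bad components). `R`: bad vertices in pairwise different components. For each `x ∈ R` choose a witness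
`y ∈ cp x`: a touched one (at most `|tch| ≤ 2k` of the `x`, the components are disjoint), or a non-neighbour of
some `v ∈ D`; for each `v` these witnesses are pairwise not adjacent: at most `b + 1` (`Clu.ind`). -/
def Stmt_BRC : Prop :=
  ∀ (G : SimpleGraph ℕ) (U D : Finset ℕ) (S : Finset (Sym2 ℕ)) (p b k : ℕ),
    Clu (ed G S) U D p b → S.card ≤ k → ∀ R : Finset ℕ, R ⊆ U →
    (∀ x ∈ R, x ∉ D ∧ Bad (ed G S) U D S x) →
    (∀ x ∈ R, ∀ y ∈ R, x ≠ y → ¬ (ed G S).Adj x y) → R.card ≤ 2 * k + p * (b + 1)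

/-- FIB (fibres). Vertices `y, y'` of `U \ D`, not touched, in the same component and with the same
neighbours in `D`, are twins in `G`. So at most `t` of them are in `K` (if there is one). -/
def Stmt_FIB : Prop :=
  ∀ (G : SimpleGraph ℕ) (U D K : Finset ℕ) (S : Finset (Sym2 ℕ)) (p b t : ℕ),
    Clu (ed G S) U D p b → K ⊆ U → (∀ v ∈ U, (K.filter fun w => Tw G U v w).card ≤ t) →
    ∀ x ∈ U, x ∉ D → ∀ P : Finset ℕ,
      (K.filter fun y => y ∉ D ∧ y ∉ tch U S ∧ y ∈ cp (ed G S) U D x ∧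
        ∀ v ∈ D, ((ed G S).Adj v y ↔ v ∈ P)).card ≤ t

/-- BAC (the kept bad vertices). They are covered by the fibres of FIB for one representative `x` of each of
the bad components (BRC: at most `2k + p (b + 1)`) and the `P ⊆ D` (`2^|D| ≤ 2^p`). (Representatives: e.g. the
least element of `cp x`; CMP.) -/
def Stmt_BAC : Prop :=
  ∀ (G : SimpleGraph ℕ) (U D K : Finset ℕ) (S : Finset (Sym2 ℕ)) (p b t k : ℕ),
    Clu (ed G S) U D p b → S.card ≤ k → K ⊆ U →
    (∀ v ∈ U, (K.filter fun w => Tw G U v w).card ≤ t) →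
    (K.filter fun y => y ∉ D ∧ y ∉ tch U S ∧ Bad (ed G S) U D S y).card ≤
      (2 * k + p * (b + 1)) * 2 ^ p * t

/-- GTW (good components are twin classes). `x, y` good, in different components. `z ∈ cp x`: `x`, `z` are not
touched, adjacent, complete to `D`. Conversely a twin `z ≠ x` of `x` is in `cp x` or in `D`; if `z ∈ D`, then `y`
good is adjacent to `z`, also in `G` (`y` not touched), so to `x` (twins), contradiction. -/
def Stmt_GTW : Prop :=
  ∀ (G : SimpleGraph ℕ) (U D : Finset ℕ) (S : Finset (Sym2 ℕ)) (p b : ℕ),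
    Clu (ed G S) U D p b → ∀ x ∈ U, ∀ y ∈ U, x ∉ D → y ∉ D → ¬ Bad (ed G S) U D S x →
    ¬ Bad (ed G S) U D S y → x ≠ y → ¬ (ed G S).Adj x y →
    ∀ z ∈ U, (Tw G U x z ↔ z ∈ cp (ed G S) U D x)

/-- GCL (they are clones). Not twins (GTW), not adjacent in `G` (`x` is not touched), a vertex outside of the
two components is in `D` (adjacent to both) or adjacent to neither; `cls G U x = cp x` (GTW). -/
def Stmt_GCL : Prop :=
  ∀ (G : SimpleGraph ℕ) (U D : Finset ℕ) (S : Finset (Sym2 ℕ)) (p b t : ℕ),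
    Clu (ed G S) U D p b → ∀ x ∈ U, ∀ y ∈ U, x ∉ D → y ∉ D → ¬ Bad (ed G S) U D S x →
    ¬ Bad (ed G S) U D S y → x ≠ y → ¬ (ed G S).Adj x y →
    ((cp (ed G S) U D x).card = (cp (ed G S) U D y).card ∨
      (t ≤ (cp (ed G S) U D x).card ∧ t ≤ (cp (ed G S) U D y).card)) → Cl G U t x y

/-- GDC (the number of good components). `R`: kept good vertices in pairwise different components. Those with
`min |cp x| t = j` are pairwise clones (GCL): at most `t`; `j ≤ t`: `|R| ≤ t (t + 1) + 1`. -/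
def Stmt_GDC : Prop :=
  ∀ (G : SimpleGraph ℕ) (U D K : Finset ℕ) (S : Finset (Sym2 ℕ)) (p b t : ℕ),
    Clu (ed G S) U D p b → K ⊆ U →
    (∀ R : Finset ℕ, R ⊆ K → (∀ x ∈ R, ∀ y ∈ R, x ≠ y → Cl G U t x y) → R.card ≤ t) →
    ∀ R : Finset ℕ, R ⊆ K → (∀ x ∈ R, x ∉ D ∧ ¬ Bad (ed G S) U D S x) →
      (∀ x ∈ R, ∀ y ∈ R, x ≠ y → ¬ (ed G S).Adj x y) → R.card ≤ t * (t + 1) + 1

/-- GDV (the kept good vertices). One kept representative of each component (GDC); in each component at most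
`t` kept vertices (FIB with `P = D`; good vertices are not touched: `x ∈ cp x`). -/
def Stmt_GDV : Prop :=
  ∀ (G : SimpleGraph ℕ) (U D K : Finset ℕ) (S : Finset (Sym2 ℕ)) (p b t : ℕ),
    Clu (ed G S) U D p b → K ⊆ U → (∀ v ∈ U, (K.filter fun w => Tw G U v w).card ≤ t) →
    (∀ R : Finset ℕ, R ⊆ K → (∀ x ∈ R, ∀ y ∈ R, x ≠ y → Cl G U t x y) → R.card ≤ t) →
    (K.filter fun y => y ∉ D ∧ ¬ Bad (ed G S) U D S y).card ≤ t * (t * (t + 1) + 1)

/-- BIG (the main lemma). If more than `pb` vertices are kept, a solution `S` for `F` on `U` is one for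
`F ∪ {m K_m}`: otherwise PT3 gives cliques `Q`, PT1 and PT2 the structure `Big`, DM2 to DM5 the structure `Clu`
with `D = DD`; `K = Kp` (KPB): `|Kp| ≤ |D| + |tch| + BAC + GDV ≤ pb` (TCH). -/
def Stmt_BIG : Prop :=
  ∀ (F : Set Gr) (G : SimpleGraph ℕ) (U : Finset ℕ) (p b t k : ℕ),
    (⟨p + 2, KMinus (p + 2)⟩ : Gr) ∈ F → (⟨b + 3, PathPlus b⟩ : Gr) ∈ F →
    pb p b t k < (Kp G U t).card → Ker.Yes (OF F) G U k →
    Ker.Yes (OF (insert (cliqG (mm p b)) F)) G U k

/-! ## The algorithm for the larger family -/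

/-- COG. As COR (`B_COR.lean`, the same proof): the kernel vertices of the algorithm, with any parameters
and any list `P`, are correct for every family with `Bdd F s`. -/
def Stmt_COG : Prop :=
  ∀ (F : Set Gr) (s r D cc : ℕ), Bdd F s → ∀ (n k : ℕ) (E : List (ℕ × ℕ)) (P : List (List ℕ)),
      (Ker.Yes (OF F) (gr E) (Finset.range n) k ↔
        Ker.Yes (OF F) (gr E) (vk s r D cc n k E P).toFinset k) ∧
      (vk s r D cc n k E P).Nodup ∧ ∀ v ∈ vk s r D cc n k E P, v < n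

/-- KRG. As KRN (`B_KRN.lean`, the same proof with COG): the algorithm for `F'`, used for `F ⊆ F'`, with a
given output `noI`. -/
def Stmt_KRG : Prop :=
  ∀ (F F' : Set Gr) (OL : List (ℕ × List Bool)) (s r D c : ℕ) (noI : Inst), F ⊆ F' →
    IsOL F' OL → Bdd F' s → StrN F' r D c → ∃ P : Polynomial ℕ, ∀ I : Inst,
      ((packO OL s I.1 I.2.2 I.2.1).length ≤ I.2.2 →
        (St.Yes F (kern OL s r D (c + r * (2 * D + 2)) noI I) ↔ St.Yes F I) ∧
        (kern OL s r D (c + r * (2 * D + 2)) noI I).2.2 ≤ I.2.2) ∧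
      (I.2.2 < (packO OL s I.1 I.2.2 I.2.1).length →
        kern OL s r D (c + r * (2 * D + 2)) noI I = noI ∧ ¬ St.Yes F' I) ∧
      (kern OL s r D (c + r * (2 * D + 2)) noI I).enc.length ≤ P.eval I.2.2

/-- RDI (the reduced instance). `redI s I` is equivalent to `I` (RD1, EQB, TRF with `φ = id` and with
`φ i = K.getD i 0`, SBB), has the same `k`, its length is bounded by a polynomial in its number of vertices and
`k` (SBB), and if it has more than `pb` vertices, `St.Yes F (redI s I)` gives `St.Yes F' (redI s I)` for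
`F' = F ∪ {m K_m}` (RD1, BIG; a solution on `range n` is one on the subset `Kp`). -/
def Stmt_RDI : Prop :=
  ∀ (F : Set Gr) (s p b : ℕ), Bdd F s → (⟨p + 2, KMinus (p + 2)⟩ : Gr) ∈ F →
    (⟨b + 3, PathPlus b⟩ : Gr) ∈ F → ∀ I : Inst,
      (St.Yes F (redI s I) ↔ St.Yes F I) ∧ (redI s I).2.2 = I.2.2 ∧
      (redI s I).enc.length ≤ ((redI s I).1 + 1) + (I.2.2 + 1) +
        (redI s I).1 ^ 2 * (2 * (redI s I).1 + 2) ∧
      (pb p b (2 * I.2.2 + s + 1) I.2.2 < (redI s I).1 → St.Yes F (redI s I) →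
        St.Yes (insert (cliqG (mm p b)) F) (redI s I))

/-- KN2 (the kernel, mathematically). KRG for `F' = F ∪ {m K_m}`, RDI, NOI. -/
def Stmt_KN2 : Prop :=
  ∀ (F : Set Gr) (OL : List (ℕ × List Bool)) (s r D c p b : ℕ),
    (⟨p + 2, KMinus (p + 2)⟩ : Gr) ∈ F → (⟨b + 3, PathPlus b⟩ : Gr) ∈ F →
    IsOL (insert (cliqG (mm p b)) F) OL → Bdd (insert (cliqG (mm p b)) F) s →
    StrN (insert (cliqG (mm p b)) F) r D c →
    ∃ (noI : Inst) (P : Polynomial ℕ), ∀ I : Inst,
      (St.Yes F (kern2 OL s r D (c + r * (2 * D + 2)) p b noI I) ↔ St.Yes F I) ∧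
      (kern2 OL s r D (c + r * (2 * D + 2)) p b noI I).2.2 ≤ I.2.2 ∧
      (kern2 OL s r D (c + r * (2 * D + 2)) p b noI I).enc.length ≤ P.eval I.2.2

/-! ## Polynomial time -/

/-- PF1. `twB`, `clsB`, `clB`. (`PolyF`: see `InterfaceP.lean` and `B_PA1.lean`, `B_PA4.lean`.) -/
def Stmt_PF1 : Prop :=
  (∀ (α : Type) [DE α] (E : α → List (ℕ × ℕ)) (n u v : α → ℕ), PolyF E → PolyF n → PolyF u →
    PolyF v → PolyF (fun a => twB (E a) (n a) (u a) (v a))) ∧
  (∀ (α : Type) [DE α] (E : α → List (ℕ × ℕ)) (n v : α → ℕ), PolyF E → PolyF n → PolyF v →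
    PolyF (fun a => clsB (E a) (n a) (v a))) ∧
  (∀ (α : Type) [DE α] (E : α → List (ℕ × ℕ)) (n t u v : α → ℕ), PolyF E → PolyF n → PolyF t →
    PolyF u → PolyF v → PolyF (fun a => clB (E a) (n a) (t a) (u a) (v a)))

/-- PF2. `rkB`, `crkB`, `kpB` (with PF1). -/
def Stmt_PF2 : Prop :=
  ∀ (α : Type) [DE α] (E : α → List (ℕ × ℕ)) (n t : α → ℕ), PolyF E → PolyF n → PolyF t →
    PolyF (fun a => kpB (E a) (n a) (t a))

/-- PF3. `redI` (`sub`: see `B_PA6.lean`) and `kern2` (PA6; `pb` is a polynomial expression with constants `p`,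
`b`, `s`). -/
def Stmt_PF3 : Prop :=
  ∀ (OL : List (ℕ × List Bool)) (s r D cc p b : ℕ) (noI : Inst),
    PolyF (fun I : Inst => kern2 OL s r D cc p b noI I)

/-! ## The larger family is bounded -/

/-- UN1. `K_{p+2} - e` in half graphs with a clique side: e.g. `a = false`, `b = true`: the pair `inl 1`,
`inr 0` and `inr 1, ..., inr p`; `a = true`, `b = false`: the pair `inr p`, `inr (p + 1)` and
`inl 0, ..., inl (p - 1)`; both: the pair `inl (p + 1)`, `inr p`, and `inl 0, ..., inl (p - 1)`. `m = p + 2`. -/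
def Stmt_UN1 : Prop :=
  ∀ (p : ℕ) (a b : Bool), (a = true ∨ b = true) →
    ∃ m, Nonempty (KMinus (p + 2) ↪g half a b m)

/-- UN2. `P_3 + bK_1` in `half false false (b + 3)`: `inr 0 - inl 0 - inr 1` and `inl 2, ..., inl (b + 1)`; in
`mtch false false true m`: `inr (0, 0) - inl 0 - inr (0, 1)`, `inl 1, ..., inl b`; in
`mtch false false false m`: `inr (1, 0) - inl 0 - inr (1, 1)` and `inr (0, y)`, `y < b`; in
`mtch true false true m`: `inr (0, 0) - inl 0 - inr (0, 1)` and `inr (1, y)`, `y < b`. -/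
def Stmt_UN2 : Prop :=
  ∀ b : ℕ, (∃ m, Nonempty (PathPlus b ↪g half false false m)) ∧
    (∃ m, Nonempty (PathPlus b ↪g mtch false false true m)) ∧
    (∃ m, Nonempty (PathPlus b ↪g mtch false false false m)) ∧
    ∃ m, Nonempty (PathPlus b ↪g mtch true false true m)

/-- UN3. `K_{p+2} - e` in `mtch a true true m`: the pair `inl 0`, `inr (1, 0)` and `inr (0, y)`, `y < p`; in
`mtch a true false m`: the pair `inl 0`, `inr (0, 0)` and `inr (1, y)`, `y < p`; in
`mtch true false false m`: the pair `inr (0, 0)`, `inr (0, 1)` and `inl 1, ..., inl p`; in the complement of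
`cliques m`: the pair `(0, 0)`, `(0, 1)` and `(i, 0)`, `1 ≤ i ≤ p` (`m = p + 2`). -/
def Stmt_UN3 : Prop :=
  ∀ p : ℕ, (∀ a c : Bool, ∃ m, Nonempty (KMinus (p + 2) ↪g mtch a true c m)) ∧
    (∃ m, Nonempty (KMinus (p + 2) ↪g mtch true false false m)) ∧
    ∃ m, Nonempty (KMinus (p + 2) ↪g (cliques m)ᶜ)

/-- UNA. The family `F ∪ {m K_m}` satisfies the criterion (UN1, UN2, UN3; `cliqG m` is isomorphic to
`cliques m`). -/
def Stmt_UNA : Prop :=
  ∀ (F : Set Gr) (p b m : ℕ), (⟨p + 2, KMinus (p + 2)⟩ : Gr) ∈ F →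
    (⟨b + 3, PathPlus b⟩ : Gr) ∈ F → St.Unavoidable (insert (cliqG m) F)

/-- FI2 (the theorem). `F' = F ∪ {m K_m}` is finite, Unavoidable (UNA), so Bounded (FTN), Structured (GS4). If
a member of `F` has no vertices: ZER. Otherwise `Bdd F' s`, `OL`, `StrN` (TRS) as in `B_FIN.lean`; KN2, PF3, PEN. -/
def Stmt_FI2 : Prop :=
  ∀ (F : Set Gr) (p b : ℕ), F.Finite → (⟨p + 2, KMinus (p + 2)⟩ : Gr) ∈ F →
    (⟨b + 3, PathPlus b⟩ : Gr) ∈ F → HasKernel F

end Pool.Ker.N
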